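import Pool.Agent.Lib.MP_a267a3_lc.Defs

/-!
# MP_a267a3_lc: the closure system (abstract part)

`H` a permutation group on `X`, `𝒮` a family of subsets of `X` all of which are Jordan
complements, no two `H`-translates covering `X`.  `cl A` is the intersection of all small
Jordan complements containing `A`.
-/

set_option autoImplicit false

namespace Pool.Agent.MPa267

variable {X : Type*}

/-- abstract hypotheses -/
structure AbsSetup (H : Subgroup (Equiv.Perm X)) (𝒮 : Set (Set X)) (P0 : Set X) (n : ℕ) :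
    Prop where
  jor : ∀ P ∈ 𝒮, Jor H P
  cov : ∀ P ∈ 𝒮, ∀ Q ∈ 𝒮, ∀ h ∈ H, ∃ x, h x ∉ P ∧ x ∉ Q
  mem : P0 ∈ 𝒮
  inf : P0.Infinite
  trans : MT H n
  ntrans : ¬ MT H (n + 1)
  three : 3 ≤ n
  good : ∀ A : Set X, A ⊆ P0 → ∃ t u, t ∉ P0 ∧ u ∉ cl H 𝒮 (insert t A) ∧ t ∉ cl H 𝒮 (insert u A)

section Basic

variable {H : Subgroup (Equiv.Perm X)} {𝒮 : Set (Set X)}

lemma subset_cl (A : Set X) : A ⊆ cl H 𝒮 A := fun _ ha _ _ hA => hA ha

lemma cl_mono {A B : Set X} (h : A ⊆ B) : cl H 𝒮 A ⊆ cl H 𝒮 B :=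
  fun _ hx S hS hB => hx S hS (h.trans hB)

lemma cl_le {A B : Set X} (h : A ⊆ cl H 𝒮 B) : cl H 𝒮 A ⊆ cl H 𝒮 B :=
  fun _ hx S hS hB => hx S hS (fun _ ha => h ha S hS hB)

lemma cl_subset_of_mem_JJ {A S : Set X} (hS : S ∈ JJ H 𝒮) (hA : A ⊆ S) : cl H 𝒮 A ⊆ S :=
  fun _ hx => hx S hS hA

lemma cl_cl (A : Set X) : cl H 𝒮 (cl H 𝒮 A) = cl H 𝒮 A :=
  Set.Subset.antisymm (cl_le (Set.Subset.refl _)) (subset_cl _)

/-- translates of small Jordan complements are small Jordan complements -/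
lemma image_mem_JJ {S : Set X} (hS : S ∈ JJ H 𝒮) {h : Equiv.Perm X} (hh : h ∈ H) :
    h '' S ∈ JJ H 𝒮 := by
  obtain ⟨⟨h₁, hh₁, P, hP, hSP⟩, hJ⟩ := hS
  refine ⟨⟨h₁ * h⁻¹, H.mul_mem hh₁ (H.inv_mem hh), P, hP, ?_⟩, ?_⟩
  · rintro _ ⟨s, hs, rfl⟩
    have h2 : (h₁ * h⁻¹) (h s) = h₁ s := by
      rw [Equiv.Perm.mul_apply]; congr 1; exact h.symm_apply_apply s
    rw [h2]; exact hSP s hs
  · intro x hx y hy
    have hx' : h⁻¹ x ∉ S := fun h' => hx ⟨_, h', h.apply_symm_apply x⟩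
    have hy' : h⁻¹ y ∉ S := fun h' => hy ⟨_, h', h.apply_symm_apply y⟩
    obtain ⟨g, hg, hgS, hgx⟩ := hJ _ hx' _ hy'
    refine ⟨h * g * h⁻¹, H.mul_mem (H.mul_mem hh hg) (H.inv_mem hh), ?_, ?_⟩
    · rintro _ ⟨s, hs, rfl⟩
      rw [Equiv.Perm.mul_apply, Equiv.Perm.mul_apply]
      have h2 : h⁻¹ (h s) = s := h.symm_apply_apply s
      rw [h2, hgS s hs]
    · rw [Equiv.Perm.mul_apply, Equiv.Perm.mul_apply, hgx]
      exact h.apply_symm_apply y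

/-- the closure is `H`-equivariant -/
theorem image_cl {h : Equiv.Perm X} (hh : h ∈ H) (A : Set X) :
    h '' (cl H 𝒮 A) = cl H 𝒮 (h '' A) := by
  have key : ∀ g : Equiv.Perm X, g ∈ H → ∀ A : Set X, g '' (cl H 𝒮 A) ⊆ cl H 𝒮 (g '' A) := by
    rintro g hg A _ ⟨x, hx, rfl⟩ S hS hAS
    have h1 : (g⁻¹ : Equiv.Perm X) '' S ∈ JJ H 𝒮 := image_mem_JJ hS (H.inv_mem hg)
    have h2 : A ⊆ (g⁻¹ : Equiv.Perm X) '' S := by
      intro a ha
      exact ⟨g a, hAS ⟨a, ha, rfl⟩, g.symm_apply_apply a⟩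
    obtain ⟨y, hy, hyx⟩ := hx _ h1 h2
    have h3 : g x = y := by rw [← hyx]; exact g.apply_symm_apply y
    rw [h3]; exact hy
  apply Set.Subset.antisymm (key h hh A)
  intro x hx
  have h1 := key h⁻¹ (H.inv_mem hh) (h '' A) ⟨x, hx, rfl⟩
  have h2 : (h⁻¹ : Equiv.Perm X) '' (h '' A) = A := by
    rw [← Set.image_comp]
    have : (h⁻¹ : Equiv.Perm X) ∘ h = id := by
      funext y; exact h.symm_apply_apply y
    rw [this, Set.image_id]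
  rw [h2] at h1
  exact ⟨h⁻¹ x, h1, h.apply_symm_apply x⟩

end Basic

namespace AbsSetup

variable {H : Subgroup (Equiv.Perm X)} {𝒮 : Set (Set X)} {P0 : Set X} {n : ℕ}

lemma mem_JJ_of_mem (s : AbsSetup H 𝒮 P0 n) {P : Set X} (hP : P ∈ 𝒮) : P ∈ JJ H 𝒮 :=
  ⟨⟨1, one_mem _, P, hP, fun _ hs => hs⟩, s.jor P hP⟩

/-- two members of `JJ` never cover `X` -/
lemma exists_not_mem_two (s : AbsSetup H 𝒮 P0 n) {S T : Set X} (hS : S ∈ JJ H 𝒮)
    (hT : T ∈ JJ H 𝒮) : ∃ x, x ∉ S ∧ x ∉ T := by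
  obtain ⟨⟨h₁, hh₁, P, hP, hSP⟩, -⟩ := hS
  obtain ⟨⟨h₂, hh₂, Q, hQ, hTQ⟩, -⟩ := hT
  obtain ⟨x, hx1, hx2⟩ := s.cov P hP Q hQ (h₁ * h₂⁻¹) (H.mul_mem hh₁ (H.inv_mem hh₂))
  refine ⟨h₂⁻¹ x, fun h => hx1 (hSP _ h), fun h => hx2 ?_⟩
  have := hTQ _ h
  have h3 : h₂ (h₂⁻¹ x) = x := h₂.apply_symm_apply x
  rwa [h3] at this

/-- the closure of a small set is a small Jordan complement -/
theorem cl_mem_JJ (s : AbsSetup H 𝒮 P0 n) {A : Set X} (hA : Small H 𝒮 A) : cl H 𝒮 A ∈ JJ H 𝒮 := by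
  obtain ⟨h, hh, P, hP, hAP⟩ := hA
  have hPJ := s.mem_JJ_of_mem hP
  have hS0 : (h⁻¹ : Equiv.Perm X) '' P ∈ JJ H 𝒮 := image_mem_JJ hPJ (H.inv_mem hh)
  have hAS : A ⊆ (h⁻¹ : Equiv.Perm X) '' P := fun a ha => ⟨h a, hAP a ha, h.symm_apply_apply a⟩
  refine ⟨?_, ?_⟩
  · refine ⟨h, hh, P, hP, ?_⟩
    intro x hx
    obtain ⟨y, hy, hyx⟩ := hx _ hS0 hAS
    have h3 : h x = y := by rw [← hyx]; exact h.apply_symm_apply y
    rw [h3]; exact hy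
  · intro x hx y hy
    simp only [cl, Set.mem_ofPred_eq, not_forall] at hx hy
    obtain ⟨S₁, hS₁, hA₁, hx⟩ := hx
    obtain ⟨S₂, hS₂, hA₂, hy⟩ := hy
    obtain ⟨w, hw1, hw2⟩ := s.exists_not_mem_two hS₁ hS₂
    obtain ⟨h₁, hh₁, hf₁, hx₁⟩ := hS₁.2 x hx w hw1
    obtain ⟨h₂, hh₂, hf₂, hx₂⟩ := hS₂.2 w hw2 y hy
    refine ⟨h₂ * h₁, H.mul_mem hh₂ hh₁, ?_, ?_⟩
    · intro a ha
      rw [Equiv.Perm.mul_apply, hf₁ a (ha _ hS₁ hA₁), hf₂ a (ha _ hS₂ hA₂)]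
    · rw [Equiv.Perm.mul_apply, hx₁, hx₂]

/-- the closure of a set which is not small is everything -/
theorem cl_eq_univ (s : AbsSetup H 𝒮 P0 n) {A : Set X} (hA : ¬ Small H 𝒮 A) :
    cl H 𝒮 A = Set.univ := by
  rw [Set.eq_univ_iff_forall]
  intro x S hS hAS
  exfalso
  apply hA
  obtain ⟨⟨h, hh, P, hP, hSP⟩, -⟩ := hS
  exact ⟨h, hh, P, hP, fun a ha => hSP a (hAS ha)⟩

/-- sets with at most `n` points are small -/
theorem exists_move_into (s : AbsSetup H 𝒮 P0 n) (A : Finset X) (hA : A.card ≤ n) :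
    ∃ h ∈ H, ∀ a ∈ A, h a ∈ P0 := by
  classical
  obtain ⟨B, hB, hBc⟩ := s.inf.exists_subset_card_eq A.card
  obtain ⟨e⟩ : Nonempty (A ≃ B) := Fintype.card_eq.1 (by simp [hBc])
  obtain ⟨h, hh, hf⟩ := s.trans A (fun x => if hx : x ∈ A then (e ⟨x, hx⟩ : X) else x) hA (by
    intro x hx y hy hxy
    have hx' : x ∈ A := hx
    have hy' : y ∈ A := hy
    simp only [hx', hy', dif_pos] at hxy
    have := e.injective (Subtype.ext hxy)
    exact congrArg Subtype.val this)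
  refine ⟨h, hh, ?_⟩
  intro a ha
  rw [hf a ha, dif_pos ha]
  exact hB (e ⟨a, ha⟩).2

theorem small_of_card_le (s : AbsSetup H 𝒮 P0 n) (A : Finset X) (hA : A.card ≤ n) :
    Small H 𝒮 (A : Set X) := by
  obtain ⟨h, hh, hf⟩ := s.exists_move_into A hA
  exact ⟨h, hh, P0, s.mem, fun a ha => hf a ha⟩

/-- `A` is good: there are two points independent over `A` -/
def Good (H : Subgroup (Equiv.Perm X)) (𝒮 : Set (Set X)) (A : Set X) : Prop :=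
  ∃ t u, t ∉ cl H 𝒮 A ∧ u ∉ cl H 𝒮 (insert t A) ∧ t ∉ cl H 𝒮 (insert u A)

/-- exchange over good sets -/
theorem small_of_mem_JJ_of_subset {A S : Set X} (hS : S ∈ JJ H 𝒮) (hA : A ⊆ S) :
    Small H 𝒮 A := by
  obtain ⟨⟨h, hh, P, hP, hSP⟩, -⟩ := hS
  exact ⟨h, hh, P, hP, fun a ha => hSP a (hA ha)⟩

theorem cl_mem_JJ_of_not_mem (s : AbsSetup H 𝒮 P0 n) {A : Set X} {x : X}
    (hx : x ∉ cl H 𝒮 A) : cl H 𝒮 A ∈ JJ H 𝒮 := by
  apply s.cl_mem_JJ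
  by_contra h
  rw [s.cl_eq_univ h] at hx
  exact hx (Set.mem_univ _)

/-- the closure is invariant under elements fixing the generators -/
theorem mem_cl_of_fix {h : Equiv.Perm X} (hh : h ∈ H) {A : Set X} (hA : ∀ a ∈ A, h a = a)
    {x y : X} (hy : y ∈ cl H 𝒮 (insert x A)) : h y ∈ cl H 𝒮 (insert (h x) A) := by
  have h1 : h y ∈ h '' (cl H 𝒮 (insert x A)) := ⟨y, hy, rfl⟩
  rw [image_cl hh] at h1
  have h2 : h '' (insert x A) = insert (h x) A := by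
    rw [Set.image_insert_eq]
    congr 1
    ext z
    constructor
    · rintro ⟨a, ha, rfl⟩; rwa [hA a ha]
    · intro hz; exact ⟨z, hz, hA z hz⟩
  rwa [h2] at h1

theorem exchange (s : AbsSetup H 𝒮 P0 n) {A : Set X} (hA : Good H 𝒮 A) {x y : X}
    (hy : y ∈ cl H 𝒮 (insert x A)) (hy' : y ∉ cl H 𝒮 A) : x ∈ cl H 𝒮 (insert y A) := by
  by_contra hx
  obtain ⟨t, u, ht, hu, htu⟩ := hA
  have hclA := s.cl_mem_JJ_of_not_mem hy'
  obtain ⟨h₁, hh₁, hf₁, hyt⟩ := hclA.2 y hy' t ht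
  have hf₁' : ∀ a ∈ A, h₁ a = a := fun a ha => hf₁ a (subset_cl A ha)
  have h1 : t ∈ cl H 𝒮 (insert (h₁ x) A) := by
    have := mem_cl_of_fix hh₁ hf₁' hy
    rwa [hyt] at this
  have h2 : h₁ x ∉ cl H 𝒮 (insert t A) := by
    intro h3
    apply hx
    have h4 := mem_cl_of_fix (H := H) (𝒮 := 𝒮) (H.inv_mem hh₁) (A := A) (fun a ha => by
      have : h₁⁻¹ (h₁ a) = a := h₁.symm_apply_apply a
      rwa [hf₁' a ha] at this) h3
    have h5 : h₁⁻¹ (h₁ x) = x := h₁.symm_apply_apply x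
    have h6 : h₁⁻¹ t = y := by rw [← hyt]; exact h₁.symm_apply_apply y
    rwa [h5, h6] at h4
  have hclt := s.cl_mem_JJ_of_not_mem hu
  obtain ⟨h₂, hh₂, hf₂, hxu⟩ := hclt.2 _ h2 u hu
  have h3 := mem_cl_of_fix hh₂ (A := A) (fun a ha =>
    hf₂ a (subset_cl _ (Set.mem_insert_of_mem _ ha))) h1
  rw [hxu, hf₂ t (subset_cl _ (Set.mem_insert _ _))] at h3
  exact htu h3

theorem good_of_subset (s : AbsSetup H 𝒮 P0 n) {A : Set X} (hA : A ⊆ P0) : Good H 𝒮 A := by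
  obtain ⟨t, u, ht, hu, htu⟩ := s.good A hA
  exact ⟨t, u, fun h => ht (cl_subset_of_mem_JJ (s.mem_JJ_of_mem s.mem) hA h), hu, htu⟩

theorem good_image {h : Equiv.Perm X} (hh : h ∈ H) {A : Set X} (hA : Good H 𝒮 A) :
    Good H 𝒮 (h '' A) := by
  obtain ⟨t, u, ht, hu, htu⟩ := hA
  refine ⟨h t, h u, ?_, ?_, ?_⟩
  · rw [← image_cl hh]
    rintro ⟨x, hx, hxt⟩
    rw [h.injective hxt] at hx; exact ht hx
  · rw [← Set.image_insert_eq, ← image_cl hh]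
    rintro ⟨x, hx, hxt⟩
    rw [h.injective hxt] at hx; exact hu hx
  · rw [← Set.image_insert_eq, ← image_cl hh]
    rintro ⟨x, hx, hxt⟩
    rw [h.injective hxt] at hx; exact htu hx

theorem good_of_card_le (s : AbsSetup H 𝒮 P0 n) (A : Finset X) (hA : A.card ≤ n) :
    Good H 𝒮 (A : Set X) := by
  obtain ⟨h, hh, hf⟩ := s.exists_move_into A hA
  have h1 : Good H 𝒮 (h '' (A : Set X)) := s.good_of_subset (by
    rintro _ ⟨a, ha, rfl⟩; exact hf a ha)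
  have h2 := good_image (H.inv_mem hh) h1
  have h3 : (h⁻¹ : Equiv.Perm X) '' (h '' (A : Set X)) = A := by
    rw [← Set.image_comp]
    have : (h⁻¹ : Equiv.Perm X) ∘ h = id := by
      funext y; exact h.symm_apply_apply y
    rw [this, Set.image_id]
  rwa [h3] at h2

end AbsSetup

end Pool.Agent.MPa267
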