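import Pool.Agent.Lib.MP_a267a3_lc.Basic

/-!
# MP_a267a3_lc: relative algebraic closure
-/

set_option autoImplicit false

namespace Pool.Agent.MPa267

open OnePoint

variable {F : Type*} [Field F]

lemma mem_acl {s : Set F} {x : F} : x ∈ acl s ↔ IsAlgebraic (Subfield.closure s) x :=
  mem_algebraicClosure_iff

open scoped IntermediateField.algebraAdjoinAdjoin in
lemma acl_eq_matroid (s : Set F) :
    (acl s : Set F) = (AlgebraicIndependent.matroid (⊥ : Subfield F) F).closure s := by
  rw [AlgebraicIndependent.matroid_closure_eq]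
  ext x
  rw [SetLike.mem_coe, mem_acl, SetLike.mem_coe]
  have h0 : (IntermediateField.adjoin (⊥ : Subfield F) s).toSubfield = Subfield.closure s := by
    rw [IntermediateField.adjoin_toSubfield]
    apply le_antisymm
    · rw [Subfield.closure_le]
      rintro y (⟨z, rfl⟩ | hy)
      · exact (bot_le : (⊥ : Subfield F) ≤ Subfield.closure s) z.2
      · exact Subfield.subset_closure hy
    · exact Subfield.closure_mono Set.subset_union_right
  rw [← h0]
  exact (IsFractionRing.isAlgebraic_iff (Algebra.adjoin (⊥ : Subfield F) s)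
    (IntermediateField.adjoin (⊥ : Subfield F) s) F (x := x)).symm

lemma subset_acl (s : Set F) : s ⊆ (acl s : Set F) := by
  rw [acl_eq_matroid]
  exact Matroid.subset_closure _ s (by simp)

lemma acl_mono {s t : Set F} (h : s ⊆ t) : acl s ≤ acl t := by
  intro x hx
  rw [← SetLike.mem_coe, acl_eq_matroid] at hx ⊢
  exact Matroid.closure_subset_closure _ h hx

lemma acl_le {s t : Set F} (h : s ⊆ (acl t : Set F)) : acl s ≤ acl t := by
  intro x hx
  rw [← SetLike.mem_coe, acl_eq_matroid] at hx ⊢
  rw [acl_eq_matroid] at h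
  exact Matroid.closure_subset_closure_of_subset_closure h hx

/-- exchange -/
theorem acl_exchange {s : Set F} {x y : F} (hy : y ∈ acl (insert x s)) (hy' : y ∉ acl s) :
    x ∈ acl (insert y s) := by
  rw [← SetLike.mem_coe, acl_eq_matroid] at *
  exact (Matroid.closure_exchange ⟨hy, hy'⟩).1

/-- an algebraically closed subfield is relatively algebraically closed -/
theorem acl_eq_of_isAlgClosed (K : Subfield F) [IsAlgClosed K] : acl (K : Set F) = K := by
  apply le_antisymm
  · intro x hx
    rw [mem_acl, Subfield.closure_eq] at hx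
    have hx' : IsIntegral K x := hx.isIntegral
    have h1 := IsAlgClosed.degree_eq_one_of_irreducible K (minpoly.irreducible hx')
    obtain ⟨y, hy⟩ := minpoly.mem_range_of_degree_eq_one K x h1
    rw [← hy]; exact y.2
  · exact fun x hx => subset_acl _ hx

/-- `acl s` is algebraically closed -/
theorem isAlgClosed_acl [IsAlgClosed F] (s : Set F) : IsAlgClosed (acl s) :=
  (algebraicClosure.isAlgClosure (Subfield.closure s) F).isAlgClosed

/-- automorphisms transport `acl` -/
theorem map_acl (φ : F ≃+* F) {s : Set F} {x : F} : φ x ∈ acl (φ '' s) ↔ x ∈ acl s := by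
  have key : ∀ (φ : F ≃+* F) (s : Set F) (x : F), x ∈ acl s → φ x ∈ acl (φ '' s) := by
    intro φ s x hx
    rw [mem_acl] at hx ⊢
    obtain ⟨p, hp, hpx⟩ := hx
    have h1 : ∀ y ∈ Subfield.closure s, φ y ∈ Subfield.closure (φ '' s) := by
      intro y hy
      have : φ y ∈ (Subfield.closure s).map (φ : F →+* F) := ⟨y, hy, rfl⟩
      rw [RingHom.map_field_closure] at this
      exact this
    let ψ : Subfield.closure s →+* Subfield.closure (φ '' s) :=
      ((φ : F →+* F).comp (Subfield.closure s).subtype).codRestrict _ (fun y => h1 _ y.2)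
    refine ⟨p.map ψ, ?_, ?_⟩
    · exact (Polynomial.map_ne_zero_iff ψ.injective).2 hp
    · have h2 : (Polynomial.aeval (φ x)) (p.map ψ) = φ (Polynomial.aeval x p) := by
        rw [Polynomial.aeval_def, Polynomial.aeval_def, Polynomial.eval₂_map]
        have := Polynomial.hom_eval₂ p (algebraMap (Subfield.closure s) F) (φ : F →+* F) x
        exact this.symm
      rw [h2, hpx, map_zero]
  refine ⟨fun h => ?_, key φ s x⟩
  have h1 := key φ.symm _ _ h
  rw [← Set.image_comp] at h1
  simpa using h1

/-- (IND) if `a ∉ acl ∅` and `b ∉ acl {a}` then `acl {a} ∩ acl {b} = acl ∅` -/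
theorem acl_inter {a b x : F} (hb : b ∉ acl {a}) (hxa : x ∈ acl {a}) (hxb : x ∈ acl {b}) :
    x ∈ acl (∅ : Set F) := by
  by_contra hx
  have h1 : a ∈ acl ({x} : Set F) := by
    have := acl_exchange (s := (∅ : Set F)) (x := a) (y := x) (by simpa using hxa) hx
    simpa using this
  have h2 : a ∈ acl ({b} : Set F) := acl_le (by simpa using hxb) h1
  by_cases ha : a ∈ acl (∅ : Set F)
  · exact hx (acl_le (by simpa using ha) hxa)
  · apply hb
    have := acl_exchange (s := (∅ : Set F)) (x := b) (y := a) (by simpa using h2) ha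
    simpa using this
end Pool.Agent.MPa267
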