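import Pool.Agent.Lib.MP_a267a3_lc.AlgA

/-!
# MP_a267a3_lc: automorphisms of algebraically closed fields
-/

set_option autoImplicit false

namespace Pool.Agent.MPa267

open OnePoint

variable {F : Type*} [Field F]

/-- An isomorphism of the base rings together with a bijection of transcendence bases extends to an
isomorphism of algebraically closed fields. -/
private theorem algB_extend_iso {R S K L : Type*} [CommRing R] [CommRing S] [Field K] [Field L]
    [Algebra R K] [Algebra S L] [IsAlgClosed K] [IsAlgClosed L] {ι κ : Type*} {v : ι → K}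
    {w : κ → L} (σ : R ≃+* S) (e : ι ≃ κ) (hv : IsTranscendenceBasis R v)
    (hw : IsTranscendenceBasis S w) :
    ∃ φ : K ≃+* L, (∀ r, φ (algebraMap R K r) = algebraMap S L (σ r)) ∧
      ∀ i, φ (v i) = w (e i) := by
  let _ := IsAlgClosed.isAlgClosure_of_transcendence_basis v hv
  let _ := IsAlgClosed.isAlgClosure_of_transcendence_basis w hw
  let E : Algebra.adjoin R (Set.range v) ≃+* Algebra.adjoin S (Set.range w) :=
    hv.1.aevalEquiv.symm.toRingEquiv.trans ((MvPolynomial.mapEquiv ι σ).trans
      ((MvPolynomial.renameEquiv S e).toRingEquiv.trans hw.1.aevalEquiv.toRingEquiv))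
  have hE : ∀ p : MvPolynomial ι R, E (hv.1.aevalEquiv p) =
      hw.1.aevalEquiv (MvPolynomial.rename e (MvPolynomial.map (σ : R →+* S) p)) := by
    intro p
    show hw.1.aevalEquiv (MvPolynomial.rename e (MvPolynomial.map (σ : R →+* S)
      (hv.1.aevalEquiv.symm (hv.1.aevalEquiv p)))) = _
    rw [AlgEquiv.symm_apply_apply]
  have key : ∀ p : MvPolynomial ι R, IsAlgClosure.equivOfEquiv K L E (MvPolynomial.aeval v p) =
      MvPolynomial.aeval w (MvPolynomial.rename e (MvPolynomial.map (σ : R →+* S) p)) := by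
    intro p
    rw [← hv.1.algebraMap_aevalEquiv p, IsAlgClosure.equivOfEquiv_algebraMap, hE,
      hw.1.algebraMap_aevalEquiv]
  refine ⟨IsAlgClosure.equivOfEquiv K L E, ?_, ?_⟩
  · intro r
    have := key (MvPolynomial.C r)
    rw [MvPolynomial.map_C, MvPolynomial.rename_C, MvPolynomial.aeval_C, MvPolynomial.aeval_C] at this
    exact this
  · intro i
    have := key (MvPolynomial.X i)
    rw [MvPolynomial.map_X, MvPolynomial.rename_X, MvPolynomial.aeval_X, MvPolynomial.aeval_X] at this
    exact this

private theorem algB_transcendental (K : Subfield F) [IsAlgClosed K] {x : F} (hx : x ∉ K) :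
    Transcendental K x := by
  intro hal
  apply hx
  have hint : IsIntegral K x := hal.isIntegral
  have h1 := IsAlgClosed.degree_eq_one_of_irreducible K (minpoly.irreducible hint)
  obtain ⟨a, ha⟩ := minpoly.mem_range_of_degree_eq_one K x h1
  rw [← ha]
  exact a.2

private theorem algB_indep (K : Subfield F) [IsAlgClosed K] {x : F} (hx : x ∉ K) :
    AlgebraicIndepOn K id ({x} : Set F) := by
  show AlgebraicIndependent K (fun i : ({x} : Set F) => id i.val)
  rw [algebraicIndependent_unique_type_iff]
  exact algB_transcendental K hx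

/-- elements outside an algebraically closed subfield `K` are conjugate over `K` -/
theorem exists_aut_of_not_mem [IsAlgClosed F] (K : Subfield F) [IsAlgClosed K] {x y : F}
    (hx : x ∉ K) (hy : y ∉ K) : ∃ φ : F ≃+* F, (∀ a ∈ K, φ a = a) ∧ φ x = y := by
  classical
  obtain ⟨s, hxs, hs⟩ := exists_isTranscendenceBasis_superset (algB_indep K hx)
  obtain ⟨t, hyt, ht⟩ := exists_isTranscendenceBasis_superset (algB_indep K hy)
  obtain ⟨e⟩ := Cardinal.eq.mp (hs.cardinalMk_eq ht)
  let x' : s := ⟨x, hxs rfl⟩
  let y' : t := ⟨y, hyt rfl⟩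
  obtain ⟨φ, h1, h2⟩ := algB_extend_iso (RingEquiv.refl K) (e.trans (Equiv.swap (e x') y')) hs ht
  refine ⟨φ, ?_, ?_⟩
  · intro a ha
    exact h1 ⟨a, ha⟩
  · have := h2 x'
    rw [Equiv.trans_apply, Equiv.swap_apply_left] at this
    exact this

/-- extension of automorphisms of algebraically closed subfields -/
theorem exists_aut_extend [IsAlgClosed F] (K : Subfield F) [IsAlgClosed K] (τ : K ≃+* K) :
    ∃ φ : F ≃+* F, ∀ a : K, φ a = τ a := by
  obtain ⟨s, hs⟩ := exists_isTranscendenceBasis K F
  obtain ⟨φ, h1, -⟩ := algB_extend_iso τ (Equiv.refl s) hs hs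
  exact ⟨φ, h1⟩

end Pool.Agent.MPa267
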