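import Pool.Agent.Lib.MP_a267a3_lc.AlgB

/-!
# MP_a267a3_lc: fixed fields
-/

set_option autoImplicit false

namespace Pool.Agent.MPa267

open OnePoint

variable {F : Type*} [Field F]

/-- an element fixed by all automorphisms fixing a subfield `L` pointwise is purely inseparable
over `L` -/
theorem fixed_aut_pow_mem [IsAlgClosed F] (p : ℕ) [ExpChar F p] (L : Subfield F) {z : F}
    (hz : ∀ φ : F ≃+* F, (∀ a ∈ L, φ a = a) → φ z = z) : ∃ i : ℕ, z ^ p ^ i ∈ L := by
  classical
  have hclos : IsAlgClosure L (algebraicClosure L F) := algebraicClosure.isAlgClosure L F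
  let K' : Subfield F := (algebraicClosure L F).toSubfield
  have hK' : IsAlgClosed K' := hclos.isAlgClosed
  have hnorm : Normal L (algebraicClosure L F) := IsAlgClosure.normal L (algebraicClosure L F)
  have hLK : ∀ a ∈ L, a ∈ K' := by
    intro a ha
    exact (algebraicClosure L F).algebraMap_mem ⟨a, ha⟩
  -- z is algebraic over L
  have hzK : z ∈ K' := by
    by_contra hzK
    have hz1 : z + 1 ∉ K' := by
      intro h
      apply hzK
      have := K'.sub_mem h K'.one_mem
      simpa using this
    obtain ⟨φ, h1, h2⟩ := exists_aut_of_not_mem K' hzK hz1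
    have h3 := hz φ (fun a ha => h1 a (hLK a ha))
    rw [h2] at h3
    simp at h3
  have halg : IsAlgebraic L z := mem_algebraicClosure_iff.1 hzK
  have hint : IsIntegral L z := halg.isIntegral
  have hroot : ∀ z' : F, Polynomial.aeval z' (minpoly L z) = 0 → z' = z := by
    intro z' hz'
    have hconj : IsConjRoot L z z' := isConjRoot_of_aeval_eq_zero hint hz'
    have hz'K : z' ∈ K' := by
      have : IsIntegral L z' := hconj.isIntegral hint
      exact mem_algebraicClosure_iff.2 this.isAlgebraic
    let x : algebraicClosure L F := ⟨z, hzK⟩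
    let y : algebraicClosure L F := ⟨z', hz'K⟩
    have hconj' : IsConjRoot L y x :=
      (isConjRoot_algHom_iff (algebraicClosure L F).val).1 hconj.symm
    obtain ⟨σ, hσ⟩ := hconj'.exists_algEquiv
    let τ : K' ≃+* K' := σ.toRingEquiv
    obtain ⟨φ, hφ⟩ := exists_aut_extend K' τ
    have h1 : ∀ a ∈ L, φ a = a := by
      intro a ha
      have h2 := hφ ⟨a, hLK a ha⟩
      have h3 : σ (algebraMap L (algebraicClosure L F) ⟨a, ha⟩) =
          algebraMap L (algebraicClosure L F) ⟨a, ha⟩ := σ.commutes _
      have h4 : ((τ ⟨a, hLK a ha⟩ : K') : F) = a := congrArg Subtype.val h3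
      rw [h4] at h2
      exact h2
    have h2 := hz φ h1
    have h3 := hφ ⟨z, hzK⟩
    have h4 : ((τ ⟨z, hzK⟩ : K') : F) = z' := congrArg Subtype.val hσ
    rw [h4] at h3
    rw [← h3]
    exact h2
  have : ExpChar L p := (algebraMap L F).expChar (algebraMap L F).injective p
  have hsep : (minpoly L z).natSepDegree = 1 := by
    rw [Polynomial.natSepDegree_eq_of_isAlgClosed F, Finset.card_eq_one]
    refine ⟨z, ?_⟩
    ext z'
    rw [Multiset.mem_toFinset, Polynomial.mem_aroots, Finset.mem_singleton]
    constructor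
    · rintro ⟨-, h⟩
      exact hroot z' h
    · rintro rfl
      exact ⟨minpoly.ne_zero hint, minpoly.aeval L z'⟩
  obtain ⟨n, ⟨y, hy⟩⟩ := (minpoly.natSepDegree_eq_one_iff_pow_mem p).1 hsep
  refine ⟨n, ?_⟩
  rw [← hy]
  exact y.2

end Pool.Agent.MPa267
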