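import Pool.Agent.Lib.MP_a267a3_lc.AlgC

/-!
# MP_a267a3_lc: elements with the same stabiliser
-/

set_option autoImplicit false

namespace Pool.Agent.MPa267

open OnePoint

variable {F : Type*} [Field F]

/-- elements of `K(x)` are quotients of polynomials -/
theorem mem_closure_insert {K : Subfield F} {x z : F}
    (hz : z ∈ Subfield.closure (insert x (K : Set F))) :
    ∃ a b : Polynomial K, IsCoprime a b ∧ b.aeval x ≠ 0 ∧ z * b.aeval x = a.aeval x := by
  classical
  have hrange : Subring.closure (insert x (K : Set F)) ≤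
      (Polynomial.aeval (R := K) x).range.toSubring := by
    rw [Subring.closure_le]
    intro w hw
    rcases hw with rfl | hw
    · exact ⟨Polynomial.X, by simp⟩
    · exact ⟨Polynomial.C ⟨w, hw⟩, by simp; rfl⟩
  obtain ⟨u, hu, v, hv, huv⟩ := Subfield.mem_closure_iff.1 hz
  obtain ⟨a0, ha0⟩ := hrange hu
  obtain ⟨b0, hb0⟩ := hrange hv
  change Polynomial.aeval x a0 = u at ha0
  change Polynomial.aeval x b0 = v at hb0
  by_cases hv0 : v = 0
  · refine ⟨0, 1, isCoprime_one_right, by simp, ?_⟩
    rw [← huv, hv0]; simp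
  · have hb0' : b0 ≠ 0 := by rintro rfl; apply hv0; rw [← hb0]; simp
    have hg : EuclideanDomain.gcd a0 b0 ≠ 0 := by
      intro h; exact hb0' (EuclideanDomain.gcd_eq_zero_iff.1 h).2
    obtain ⟨a, ha⟩ := EuclideanDomain.gcd_dvd_left a0 b0
    obtain ⟨b, hb⟩ := EuclideanDomain.gcd_dvd_right a0 b0
    set g := EuclideanDomain.gcd a0 b0 with hgdef
    refine ⟨a, b, ?_, ?_, ?_⟩
    · have h1 := EuclideanDomain.gcd_eq_gcd_ab a0 b0
      rw [← hgdef] at h1
      refine ⟨EuclideanDomain.gcdA a0 b0, EuclideanDomain.gcdB a0 b0, ?_⟩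
      apply mul_left_cancel₀ hg
      rw [mul_one]
      conv_rhs => rw [h1]
      conv_rhs =>
        enter [1, 1]
        rw [ha]
      conv_rhs =>
        enter [2, 1]
        rw [hb]
      ring
    · intro h
      apply hv0
      rw [← hb0, hb, map_mul, h, mul_zero]
    · have hbx : Polynomial.aeval x b ≠ 0 := by
        intro h
        apply hv0
        rw [← hb0, hb, map_mul, h, mul_zero]
      have hgx : Polynomial.aeval x g ≠ 0 := by
        intro h
        apply hv0
        rw [← hb0, hb, map_mul, h, zero_mul]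
      rw [← huv, ← ha0, ← hb0]
      have e1 : Polynomial.aeval x a0 = Polynomial.aeval x g * Polynomial.aeval x a := by
        conv_lhs => rw [ha]
        rw [map_mul]
      have e2 : Polynomial.aeval x b0 = Polynomial.aeval x g * Polynomial.aeval x b := by
        conv_lhs => rw [hb]
        rw [map_mul]
      rw [e1, e2]
      field_simp

/-- a positive number is a power of the exponential characteristic times a number that is
not zero in `F` -/
private lemma exists_expChar_pow_mul (p : ℕ) [ExpChar F p] (m : ℕ) (hm : m ≠ 0) :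
    ∃ v m' : ℕ, m = p ^ v * m' ∧ (m' : F) ≠ 0 ∧ m' ≠ 0 := by
  rcases (inferInstance : ExpChar F p) with _ | ⟨hp⟩
  · refine ⟨0, m, by simp, ?_, hm⟩
    exact_mod_cast hm
  · obtain ⟨v, m', hd, hm'⟩ := Nat.exists_eq_pow_mul_and_not_dvd hm p hp.ne_one
    refine ⟨v, m', hm', ?_, ?_⟩
    · rwa [Ne, CharP.cast_eq_zero_iff F p]
    · rintro rfl; exact hd (dvd_zero _)

private lemma pow_not_mem (p : ℕ) [ExpChar F p] (K : Subfield F)
    [IsAlgClosed K] {y : F} (hy : y ∉ K) (i : ℕ) : y ^ p ^ i ∉ K := by
  intro h
  obtain ⟨z, hz⟩ := IsAlgClosed.exists_pow_nat_eq (⟨y ^ p ^ i, h⟩ : K)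
    (n := p ^ i) (pow_pos (expChar_pos F p) i)
  have hz' : (z : F) ^ p ^ i = y ^ p ^ i := by
    have := congrArg (Subtype.val) hz
    simpa using this
  have : (z : F) = y := by
    apply iterateFrobenius_inj F p i
    rw [iterateFrobenius_def, iterateFrobenius_def]
    exact hz'
  exact hy (this ▸ z.2)

/-- If `x, y ∉ K` have the same stabiliser in `Aut(F/K)` then, up to powers of Frobenius, they
are related by a Moebius transformation over `K`. -/
theorem moebius_of_same_stabiliser [IsAlgClosed F] (p : ℕ) [ExpChar F p] (K : Subfield F)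
    [IsAlgClosed K] {x y : F} (hx : x ∉ K) (hy : y ∉ K)
    (h : ∀ φ : F ≃+* F, (∀ a ∈ K, φ a = a) → (φ x = x ↔ φ y = y)) :
    ∃ (g : GL (Fin 2) F) (i j : ℕ), GLK K g ∧
      ((y ^ p ^ i : F) : OnePoint F) = mob g ((x ^ p ^ j : F) : OnePoint F) := by
  classical
  -- `y ^ p ^ i ∈ K(x)`
  obtain ⟨i, hi⟩ : ∃ i : ℕ, y ^ p ^ i ∈ Subfield.closure (insert x (K : Set F)) := by
    apply fixed_aut_pow_mem
    intro φ hφ
    apply (h φ (fun a ha => hφ a (Subfield.subset_closure (Set.mem_insert_of_mem _ ha)))).1
    exact hφ x (Subfield.subset_closure (Set.mem_insert _ _))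
  obtain ⟨a, b, hab, hbx, hub⟩ := mem_closure_insert hi
  set u : F := y ^ p ^ i with hu
  have huK : u ∉ K := pow_not_mem p K hy i
  set P : Polynomial F := a.map (algebraMap K F) - Polynomial.C u * b.map (algebraMap K F) with hP
  have hcoeff : ∀ n, P.coeff n = (a.coeff n : F) - u * (b.coeff n : F) := by
    intro n
    rw [hP, Polynomial.coeff_sub, Polynomial.coeff_C_mul, Polynomial.coeff_map,
      Polynomial.coeff_map]
    rfl
  have heval : ∀ w, P.eval w = a.aeval w - u * b.aeval w := by
    intro w
    rw [hP, Polynomial.eval_sub, Polynomial.eval_mul, Polynomial.eval_C, Polynomial.eval_map,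
      Polynomial.eval_map]
    rfl
  have hP0 : P ≠ 0 := by
    intro h0
    have hb0 : b ≠ 0 := by rintro rfl; simp at hbx
    obtain ⟨n, hn⟩ : ∃ n, b.coeff n ≠ 0 := by
      by_contra hcon
      push Not at hcon
      exact hb0 (Polynomial.ext (by simpa using hcon))
    have h1 := hcoeff n
    rw [h0, Polynomial.coeff_zero] at h1
    have hn' : (b.coeff n : F) ≠ 0 := by simpa using hn
    apply huK
    have : u = (a.coeff n : F) / (b.coeff n : F) := by
      rw [eq_div_iff hn']; linear_combination h1
    rw [this]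
    exact K.div_mem (a.coeff n).2 (b.coeff n).2
  have hroot : P.IsRoot x := by
    rw [Polynomial.IsRoot.def, heval, ← hub]; ring
  -- every root of `P` is `x`
  have hall : ∀ w ∈ P.roots, w = x := by
    intro w hw
    rw [Polynomial.mem_roots hP0, Polynomial.IsRoot.def, heval] at hw
    have hbw : b.aeval w ≠ 0 := by
      intro h0
      obtain ⟨s, t, hst⟩ := hab
      have h1 := congrArg (Polynomial.aeval w) hst
      rw [map_add, map_mul, map_mul, map_one, h0] at h1
      rw [h0] at hw
      have : a.aeval w = 0 := by linear_combination hw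
      rw [this] at h1
      simp at h1
    have huw : u = a.aeval w / b.aeval w := by
      rw [eq_div_iff hbw]; linear_combination -hw
    have haev : ∀ (q : Polynomial K) (w : F), w ∈ K → q.aeval w ∈ K := by
      intro q w hw
      have : q.aeval w = ((q.eval ⟨w, hw⟩ : K) : F) := by
        have := Polynomial.aeval_algebraMap_apply_eq_algebraMap_eval (A := F) (⟨w, hw⟩ : K) q
        exact this
      rw [this]
      exact SetLike.coe_mem _
    have hwK : w ∉ K := by
      intro hw'
      apply huK
      rw [huw]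
      exact K.div_mem (haev a w hw') (haev b w hw')
    obtain ⟨φ, hφ, hφx⟩ := exists_aut_of_not_mem K hx hwK
    have hφa : ∀ q : Polynomial K, φ (q.aeval x) = q.aeval w := by
      intro q
      rw [Polynomial.aeval_def, Polynomial.aeval_def]
      have := Polynomial.hom_eval₂ q (algebraMap K F) (φ : F →+* F) x
      rw [show φ (Polynomial.eval₂ (algebraMap K F) x q) =
        (φ : F →+* F) (Polynomial.eval₂ (algebraMap K F) x q) from rfl, this]
      have e1 : (φ : F →+* F).comp (algebraMap K F) = algebraMap K F := by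
        ext c
        exact hφ c c.2
      have e2 : (φ : F →+* F) x = w := hφx
      rw [e1, e2]
    have hφu : φ u = u := by
      have hux : u = a.aeval x / b.aeval x := by
        rw [eq_div_iff hbx]; exact hub
      conv_lhs => rw [hux]
      rw [map_div₀, hφa, hφa, ← huw]
    have hφy : φ y = y := by
      apply iterateFrobenius_inj F p i
      rw [iterateFrobenius_def, iterateFrobenius_def, ← map_pow]
      exact hφu
    rw [← hφx, (h φ hφ).2 hφy]
  -- hence `P = λ (X - x) ^ m`
  have hsplit : P.roots.card = P.natDegree :=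
    (Polynomial.splits_iff_card_roots.1 (IsAlgClosed.splits P))
  set m : ℕ := P.natDegree with hm
  have hrep : P.roots = Multiset.replicate m x := Multiset.eq_replicate.2 ⟨hsplit, hall⟩
  have hPeq : P = Polynomial.C P.leadingCoeff * (Polynomial.X - Polynomial.C x) ^ m := by
    have h1 := Polynomial.C_leadingCoeff_mul_prod_multiset_X_sub_C hsplit
    rw [hrep] at h1
    rw [Multiset.map_replicate, Multiset.prod_replicate] at h1
    exact h1.symm
  have hlc : P.leadingCoeff ≠ 0 := Polynomial.leadingCoeff_ne_zero.2 hP0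
  have hm0 : m ≠ 0 := by
    intro h0
    have : x ∈ P.roots := (Polynomial.mem_roots hP0).2 hroot
    rw [hrep, h0] at this
    simp at this
  obtain ⟨v, m', hmm, hm'F, hm'0⟩ := exists_expChar_pow_mul (F := F) p m hm0
  -- the coefficient of `X ^ (p ^ v * (m' - 1))`
  set k : ℕ := p ^ v with hk
  have hkpos : 0 < k := pow_pos (expChar_pos F p) v
  set n : ℕ := m' - 1 with hn
  have hn1 : m' = n + 1 := by omega
  have hexp : (Polynomial.X - Polynomial.C x) ^ m =
      Polynomial.expand F k ((Polynomial.X - Polynomial.C (x ^ k)) ^ m') := by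
    rw [hmm, pow_mul, map_pow, map_sub, Polynomial.expand_X, Polynomial.expand_C]
    congr 1
    rw [hk, sub_pow_expChar_pow, ← Polynomial.C_pow]
  have hc1 : P.coeff (n * k) = P.leadingCoeff * (-(m' : F) * x ^ k) := by
    conv_lhs => rw [hPeq]
    rw [hexp, Polynomial.coeff_C_mul, Polynomial.coeff_expand_mul hkpos,
      sub_eq_add_neg, ← Polynomial.C_neg, Polynomial.coeff_X_add_C_pow]
    have h1 : m' - n = 1 := by omega
    have h2 : m'.choose n = m' := by
      rw [hn1]; simp
    rw [h1, h2]
    ring
  have hlc' : P.leadingCoeff = (a.coeff m : F) - u * (b.coeff m : F) := by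
    rw [Polynomial.leadingCoeff, ← hm, hcoeff]
  set am : F := (a.coeff m : F) with ham
  set bm : F := (b.coeff m : F) with hbm
  set an : F := (a.coeff (n * k) : F) with han
  set bn : F := (b.coeff (n * k) : F) with hbn
  have hamK : am ∈ K := (a.coeff m).2
  have hbmK : bm ∈ K := (b.coeff m).2
  have hanK : an ∈ K := (a.coeff (n * k)).2
  have hbnK : bn ∈ K := (b.coeff (n * k)).2
  have hkey : an - u * bn = (am - u * bm) * (-(m' : F) * x ^ k) := by
    rw [← hlc', ← hc1, hcoeff]
  have hlam : am - u * bm ≠ 0 := by rw [← hlc']; exact hlc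
  have hm'K : (m' : F) ∈ K := natCast_mem K m'
  have hxkK : x ^ k ∉ K := pow_not_mem p K hx v
  have hdet : bn * (m' * am) - (-an) * (-(m' * bm)) ≠ 0 := by
    intro h0
    have h1 : bn * am = an * bm := by
      apply mul_left_cancel₀ hm'F; linear_combination h0
    apply hxkK
    by_cases hbm0 : bm = 0
    · have ham0 : am ≠ 0 := by
        intro h2; apply hlam; rw [h2, hbm0]; ring
      have hbn0 : bn = 0 := by
        rw [hbm0, mul_zero] at h1
        exact (mul_eq_zero.1 h1).resolve_right ham0
      have : x ^ k = -(an / (am * m')) := by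
        rw [eq_neg_iff_add_eq_zero]
        field_simp
        rw [hbm0, hbn0] at hkey
        linear_combination hkey
      rw [this]
      exact K.neg_mem (K.div_mem hanK (K.mul_mem hamK hm'K))
    · have : x ^ k = -(bn / (bm * m')) := by
        rw [eq_neg_iff_add_eq_zero]
        field_simp
        apply mul_left_cancel₀ hlam
        linear_combination bm * hkey + h1
      rw [this]
      exact K.neg_mem (K.div_mem hbnK (K.mul_mem hbmK hm'K))
  refine ⟨(mk2 bn (-an) (-(m' * bm)) (m' * am) hdet)⁻¹, i, v, ?_, ?_⟩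
  · exact GLK_inv (GLK_mk2 hdet hbnK (K.neg_mem hanK) (K.neg_mem (K.mul_mem hm'K hbmK))
      (K.mul_mem hm'K hamK))
  · rw [mob_inv, Equiv.Perm.eq_inv_iff_eq, mob_mk2_coe]
    have hden : -(m' * bm) * u + m' * am = m' * (am - u * bm) := by ring
    have hden0 : -(m' * bm) * u + m' * am ≠ 0 := by
      rw [hden]; exact mul_ne_zero hm'F hlam
    rw [if_neg hden0, coe_eq_coe, div_eq_iff hden0, hden]
    linear_combination -hkey

end Pool.Agent.MPa267
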