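import Pool.Agent.Lib.MP_a267a3_lc.AlgA

/-!
# MP_a267a3_lc: roots of unity
-/

set_option autoImplicit false

namespace Pool.Agent.MPa267

open OnePoint

variable {F : Type*} [Field F]

/-- the group of `m`-th roots of unity has `m` elements -/
private theorem algE_exists_unit_group [IsAlgClosed F] (m : ℕ) (hm : (m : F) ≠ 0) :
    ∃ M : Finset F, M.card = m ∧ ∀ u, u ∈ M ↔ u ^ m = 1 := by
  have hm0 : 0 < m := by
    rcases Nat.eq_zero_or_pos m with h | h
    · rw [h, Nat.cast_zero] at hm
      exact absurd rfl hm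
    · exact h
  have : NeZero (m : F) := ⟨hm⟩
  have hne : NeZero m := ⟨hm0.ne'⟩
  obtain ⟨ζ, hζ⟩ := HasEnoughRootsOfUnity.exists_primitiveRoot F m
  refine ⟨Polynomial.nthRootsFinset m (1 : F), hζ.card_nthRootsFinset, fun u => ?_⟩
  exact Polynomial.mem_nthRootsFinset hm0 1

/-- there are infinitely many roots of unity of order prime to the characteristic -/
theorem UU_infinite [IsAlgClosed F] : (UU F).Infinite := by
  rw [Set.infinite_coe_iff.symm]
  by_contra hcon
  rw [not_infinite_iff_finite] at hcon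
  have hfin : (UU F).Finite := Set.toFinite _
  obtain ⟨e, he, hcast⟩ : ∃ e : ℕ, hfin.toFinset.card < e ∧ (e : F) ≠ 0 := by
    by_cases h : ((hfin.toFinset.card + 1 : ℕ) : F) = 0
    · refine ⟨hfin.toFinset.card + 2, by omega, ?_⟩
      intro h2
      have : ((hfin.toFinset.card + 2 : ℕ) : F) = ((hfin.toFinset.card + 1 : ℕ) : F) + 1 := by
        push_cast; ring
      rw [this, h, zero_add] at h2
      exact one_ne_zero h2
    · exact ⟨_, by omega, h⟩
  obtain ⟨M, hM, hmem⟩ := algE_exists_unit_group e hcast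
  have hsub : M ⊆ hfin.toFinset := by
    intro u hu
    rw [Set.Finite.mem_toFinset]
    exact ⟨e, hcast, (hmem u).mp hu⟩
  have := Finset.card_le_card hsub
  omega

theorem UU_subset_acl : UU F ⊆ (acl (∅ : Set F) : Set F) := by
  rintro u ⟨e, he, hu⟩
  have he0 : 0 < e := by
    rcases Nat.eq_zero_or_pos e with h | h
    · rw [h, Nat.cast_zero] at he
      exact absurd rfl he
    · exact h
  show u ∈ acl (∅ : Set F)
  rw [mem_acl]
  apply IsIntegral.isAlgebraic
  apply IsIntegral.of_pow he0
  rw [hu]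
  exact isIntegral_one

/-- the group of `m`-th roots of unity has `m` elements -/
theorem exists_unit_group [IsAlgClosed F] (m : ℕ) (hm : (m : F) ≠ 0) :
    ∃ M : Finset F, M.card = m ∧ ∀ u, u ∈ M ↔ u ^ m = 1 :=
  algE_exists_unit_group m hm

end Pool.Agent.MPa267
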