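import Pool.Agent.Lib.MP_a267a3_lc.Defs

/-!
# MP_a267a3_lc: basic facts on the projective line
-/

set_option autoImplicit false

namespace Pool.Agent.MPa267

open OnePoint

lemma inv_apply_self' {X : Type*} (σ : Equiv.Perm X) (x : X) : σ⁻¹ (σ x) = x :=
  σ.symm_apply_apply x

lemma apply_inv_self' {X : Type*} (σ : Equiv.Perm X) (x : X) : σ (σ⁻¹ x) = x :=
  σ.apply_symm_apply x

section Line

variable {F : Type*} [Field F]

@[simp] lemma mulP_infty (a : F) : mulP a ∞ = ∞ := by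
  unfold mulP; split_ifs <;> rfl

lemma mulP_coe {a : F} (ha : a ≠ 0) (x : F) : mulP a (x : OnePoint F) = ((a * x : F) : OnePoint F) := by
  unfold mulP; rw [dif_neg ha]; rfl

@[simp] lemma addP_infty (b : F) : addP b ∞ = ∞ := rfl

@[simp] lemma addP_coe (b x : F) : addP b (x : OnePoint F) = ((b + x : F) : OnePoint F) := rfl

@[simp] lemma autP_infty (φ : F ≃+* F) : autP φ ∞ = ∞ := rfl

@[simp] lemma autP_coe (φ : F ≃+* F) (x : F) : autP φ (x : OnePoint F) = ((φ x : F) : OnePoint F) := rfl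

lemma mob_mul (g h : GL (Fin 2) F) : mob (g * h) = mob g * mob h := by
  ext x; simp [mob, mul_smul]

lemma mob_one : mob (1 : GL (Fin 2) F) = 1 := by
  ext x; simp [mob]

lemma mob_inv (g : GL (Fin 2) F) : mob g⁻¹ = (mob g)⁻¹ := by
  rw [eq_inv_iff_mul_eq_one, ← mob_mul, inv_mul_cancel, mob_one]

open Classical in
lemma mob_infty (g : GL (Fin 2) F) :
    mob g ∞ = if g 1 0 = 0 then ∞ else ((g 0 0 / g 1 0 : F) : OnePoint F) := by
  have := smul_infty_eq_ite g
  simpa [mob] using this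

open Classical in
lemma mob_coe (g : GL (Fin 2) F) (x : F) :
    mob g (x : OnePoint F) = if g 1 0 * x + g 1 1 = 0 then ∞ else
      (((g 0 0 * x + g 0 1) / (g 1 0 * x + g 1 1) : F) : OnePoint F) := by
  have := smul_some_eq_ite (g := g) (k := x)
  simpa [mob] using this

/-- a Moebius transformation given by its matrix -/
noncomputable def mk2 (a b c d : F) (h : a * d - b * c ≠ 0) : GL (Fin 2) F :=
  Matrix.GeneralLinearGroup.mkOfDetNeZero !![a, b; c, d]
    (by simpa [Matrix.det_fin_two] using h)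

open Classical in
lemma mob_mk2_infty (a b c d : F) (h : a * d - b * c ≠ 0) :
    mob (mk2 a b c d h) ∞ = if c = 0 then ∞ else ((a / c : F) : OnePoint F) := by
  rw [mob_infty]; rfl

open Classical in
lemma mob_mk2_coe (a b c d : F) (h : a * d - b * c ≠ 0) (x : F) :
    mob (mk2 a b c d h) (x : OnePoint F) = if c * x + d = 0 then ∞ else
      (((a * x + b) / (c * x + d) : F) : OnePoint F) := by
  rw [mob_coe]; rfl

lemma mulP_eq_mob {a : F} (ha : a ≠ 0) : mulP a = mob (mk2 a 0 0 1 (by simpa using ha)) := by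
  ext x
  induction x using OnePoint.rec with
  | infty => rw [mulP_infty, mob_mk2_infty]; simp
  | coe x => rw [mulP_coe ha, mob_mk2_coe]; simp

lemma mulP_zero : mulP (0 : F) = 1 := by
  unfold mulP; simp

lemma addP_eq_mob (b : F) : addP b = mob (mk2 1 b 0 1 (by simp)) := by
  ext x
  induction x using OnePoint.rec with
  | infty => rw [addP_infty, mob_mk2_infty]; simp
  | coe x => rw [addP_coe, mob_mk2_coe]; simp [add_comm]

lemma invP_eq_mob : (invP : Equiv.Perm (OnePoint F)) = mob (mk2 0 1 1 0 (by simp)) := rfl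

@[simp] lemma invP_infty : (invP : Equiv.Perm (OnePoint F)) ∞ = ((0 : F) : OnePoint F) := by
  rw [invP_eq_mob, mob_mk2_infty]; simp

@[simp] lemma invP_zero : (invP : Equiv.Perm (OnePoint F)) ((0 : F) : OnePoint F) = ∞ := by
  rw [invP_eq_mob, mob_mk2_coe]; simp

lemma invP_coe {x : F} (hx : x ≠ 0) :
    (invP : Equiv.Perm (OnePoint F)) (x : OnePoint F) = ((x⁻¹ : F) : OnePoint F) := by
  rw [invP_eq_mob, mob_mk2_coe]; simp [hx]

/-- automorphisms normalise the Moebius group -/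
lemma autP_mob (φ : F ≃+* F) (g : GL (Fin 2) F) :
    autP φ * mob g = mob (g.map (φ : F →+* F)) * autP φ := by
  classical
  ext x : 1
  have h : ∀ i j, (g.map (φ : F →+* F)) i j = φ (g i j) := fun i j => rfl
  rw [Equiv.Perm.mul_apply, Equiv.Perm.mul_apply]
  induction x using OnePoint.rec with
  | infty =>
    rw [autP_infty, mob_infty, mob_infty, h, h]
    by_cases h0 : g 1 0 = 0
    · simp [h0]
    · have h0' : φ (g 1 0) ≠ 0 := by simpa using h0
      rw [if_neg h0, if_neg h0', autP_coe, map_div₀]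
  | coe x =>
    rw [autP_coe, mob_coe, mob_coe, h, h, h, h]
    by_cases h0 : g 1 0 * x + g 1 1 = 0
    · have h0' : φ (g 1 0) * φ x + φ (g 1 1) = 0 := by rw [← map_mul, ← map_add, h0, map_zero]
      rw [if_pos h0, if_pos h0', autP_infty]
    · have h0' : φ (g 1 0) * φ x + φ (g 1 1) ≠ 0 := by
        rw [← map_mul, ← map_add]; exact fun h1 => h0 (φ.map_eq_zero_iff.1 h1)
      rw [if_neg h0, if_neg h0', autP_coe, map_div₀, map_add, map_add, map_mul, map_mul]

lemma autP_mul (φ ψ : F ≃+* F) : autP (ψ.trans φ) = autP φ * autP ψ := by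
  ext x
  induction x using OnePoint.rec with
  | infty => rfl
  | coe x => rfl

lemma autP_refl : autP (RingEquiv.refl F) = 1 := by
  ext x
  induction x using OnePoint.rec with
  | infty => rfl
  | coe x => rfl

lemma autP_symm (φ : F ≃+* F) : autP φ.symm = (autP φ)⁻¹ := by
  rw [eq_inv_iff_mul_eq_one, ← autP_mul, ← autP_refl]
  congr 1; ext x; simp

/-- `PΓL₂(F)` as a group of permutations of the projective line. -/
noncomputable def GG (F : Type*) [Field F] : Subgroup (Equiv.Perm (OnePoint F)) where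
  carrier := {f | ∃ (g : GL (Fin 2) F) (φ : F ≃+* F), f = mob g * autP φ}
  mul_mem' := by
    rintro _ _ ⟨g, φ, rfl⟩ ⟨h, ψ, rfl⟩
    refine ⟨g * h.map (φ : F →+* F), ψ.trans φ, ?_⟩
    rw [mob_mul, autP_mul, mul_assoc, ← mul_assoc (autP φ), autP_mob]
    simp only [mul_assoc]
  one_mem' := ⟨1, RingEquiv.refl F, by rw [mob_one, autP_refl, one_mul]⟩
  inv_mem' := by
    rintro _ ⟨g, φ, rfl⟩
    refine ⟨g⁻¹.map (φ.symm : F →+* F), φ.symm, ?_⟩
    rw [← autP_mob, autP_symm, mob_inv, mul_inv_rev]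

lemma mem_GG {f : Equiv.Perm (OnePoint F)} :
    f ∈ GG F ↔ ∃ (g : GL (Fin 2) F) (φ : F ≃+* F), f = mob g * autP φ := Iff.rfl

lemma mob_mem_GG (g : GL (Fin 2) F) : mob g ∈ GG F :=
  ⟨g, RingEquiv.refl F, by rw [autP_refl, mul_one]⟩

lemma autP_mem_GG (φ : F ≃+* F) : autP φ ∈ GG F := ⟨1, φ, by rw [mob_one, one_mul]⟩

lemma mulP_mem_GG (a : F) : mulP a ∈ GG F := by
  by_cases ha : a = 0
  · subst ha; rw [mulP_zero]; exact one_mem _
  · rw [mulP_eq_mob ha]; exact mob_mem_GG _

lemma addP_mem_GG (b : F) : addP b ∈ GG F := by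
  rw [addP_eq_mob]; exact mob_mem_GG _

lemma invP_mem_GG : (invP : Equiv.Perm (OnePoint F)) ∈ GG F := mob_mem_GG _

/-! ### `P¹(K)` -/

@[simp] lemma infty_mem_PP (K : Subfield F) : (∞ : OnePoint F) ∈ PP K := Or.inl rfl

@[simp] lemma coe_mem_PP (K : Subfield F) (x : F) : (x : OnePoint F) ∈ PP K ↔ x ∈ K := by
  constructor
  · rintro (h | ⟨a, ha, h⟩)
    · exact absurd h (coe_ne_infty x)
    · rw [coe_eq_coe.1 h]; exact ha
  · intro h; exact Or.inr ⟨x, h, rfl⟩

lemma PP_mono {K L : Subfield F} (h : K ≤ L) : PP K ⊆ PP L := by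
  rintro x (hx | ⟨a, ha, hx⟩)
  · exact Or.inl hx
  · exact Or.inr ⟨a, h ha, hx⟩

lemma mulP_mem_PP {K : Subfield F} {a : F} (ha : a ∈ K) (x : OnePoint F) :
    mulP a x ∈ PP K ↔ x ∈ PP K := by
  by_cases h0 : a = 0
  · subst h0; rw [mulP_zero]; rfl
  induction x using OnePoint.rec with
  | infty => simp
  | coe x =>
    rw [mulP_coe h0, coe_mem_PP, coe_mem_PP]
    constructor
    · intro h
      have := K.mul_mem (K.inv_mem ha) h
      rwa [← mul_assoc, inv_mul_cancel₀ h0, one_mul] at this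
    · intro h; exact K.mul_mem ha h

lemma GLK_mk2 {K : Subfield F} {a b c d : F} (h : a * d - b * c ≠ 0) (ha : a ∈ K) (hb : b ∈ K)
    (hc : c ∈ K) (hd : d ∈ K) : GLK K (mk2 a b c d h) := by
  intro i j
  fin_cases i <;> fin_cases j
  · exact ha
  · exact hb
  · exact hc
  · exact hd

lemma GLK_inv {K : Subfield F} {g : GL (Fin 2) F} (hg : GLK K g) : GLK K g⁻¹ := by
  intro i j
  have hdet : g.1.det ∈ K := by
    rw [Matrix.det_fin_two]
    exact K.sub_mem (K.mul_mem (hg _ _) (hg _ _)) (K.mul_mem (hg _ _) (hg _ _))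
  have h : (g⁻¹ : GL (Fin 2) F) i j = (g.1⁻¹ : Matrix (Fin 2) (Fin 2) F) i j := by
    simp
  rw [h, Matrix.inv_def, Ring.inverse_eq_inv', Matrix.smul_apply, Matrix.adjugate_fin_two,
    smul_eq_mul]
  apply K.mul_mem (K.inv_mem hdet)
  fin_cases i <;> fin_cases j
  · exact hg _ _
  · exact K.neg_mem (hg _ _)
  · exact K.neg_mem (hg _ _)
  · exact hg _ _

lemma GLK_mul {K : Subfield F} {g h : GL (Fin 2) F} (hg : GLK K g) (hh : GLK K h) :
    GLK K (g * h) := by
  intro i j
  simp only [Matrix.GeneralLinearGroup.coe_mul, Matrix.mul_apply, Fin.sum_univ_two]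
  exact K.add_mem (K.mul_mem (hg _ _) (hh _ _)) (K.mul_mem (hg _ _) (hh _ _))

/-- Moebius transformations over `K` preserve `P¹(K)` -/
lemma mob_mem_PP {K : Subfield F} {g : GL (Fin 2) F} (hg : GLK K g) (x : OnePoint F) :
    mob g x ∈ PP K ↔ x ∈ PP K := by
  classical
  have key : ∀ (g : GL (Fin 2) F), GLK K g → ∀ x, x ∈ PP K → mob g x ∈ PP K := by
    intro g hg x hx
    rcases hx with rfl | ⟨a, ha, rfl⟩
    · rw [mob_infty]
      split_ifs
      · exact infty_mem_PP K
      · exact (coe_mem_PP K _).2 (K.div_mem (hg _ _) (hg _ _))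
    · rw [mob_coe]
      split_ifs
      · exact infty_mem_PP K
      · exact (coe_mem_PP K _).2 (K.div_mem (K.add_mem (K.mul_mem (hg _ _) ha) (hg _ _))
          (K.add_mem (K.mul_mem (hg _ _) ha) (hg _ _)))
  refine ⟨fun h => ?_, key g hg x⟩
  have h1 := key g⁻¹ (GLK_inv hg) _ h
  rwa [mob_inv, inv_apply_self'] at h1

/-- `PGL₂(K)` is transitive on triples of distinct points of `P¹(K)` -/
theorem mob_three {K : Subfield F} {x y z : OnePoint F} (hxy : x ≠ y) (hxz : x ≠ z) (hyz : y ≠ z)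
    (hx : x ∈ PP K) (hy : y ∈ PP K) (hz : z ∈ PP K) :
    ∃ g : GL (Fin 2) F, GLK K g ∧ mob g ((0 : F) : OnePoint F) = x ∧
      mob g ((1 : F) : OnePoint F) = y ∧ mob g ∞ = z := by
  rcases hz with rfl | ⟨z, hz, rfl⟩
  · rcases hx with rfl | ⟨x, hx, rfl⟩
    · exact absurd rfl hxz
    rcases hy with rfl | ⟨y, hy, rfl⟩
    · exact absurd rfl hyz
    have h : y - x ≠ 0 := fun h => hxy (by rw [sub_eq_zero.1 h])
    refine ⟨mk2 (y - x) x 0 1 (by simpa using h), GLK_mk2 _ (K.sub_mem hy hx) hx K.zero_mem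
      K.one_mem, ?_, ?_, ?_⟩
    · rw [mob_mk2_coe]; simp
    · rw [mob_mk2_coe]; simp
    · rw [mob_mk2_infty]; simp
  · rcases hx with rfl | ⟨x, hx, rfl⟩
    · rcases hy with rfl | ⟨y, hy, rfl⟩
      · exact absurd rfl hxy
      have h : y - z ≠ 0 := fun h => hyz (by rw [sub_eq_zero.1 h])
      refine ⟨mk2 z (y - z) 1 0 (fun h' => h (by linear_combination -h')), GLK_mk2 _ hz (K.sub_mem hy hz) K.one_mem
        K.zero_mem, ?_, ?_, ?_⟩
      · rw [mob_mk2_coe]; simp
      · rw [mob_mk2_coe]; simp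
      · rw [mob_mk2_infty]; simp
    · have h1 : z - x ≠ 0 := fun h => hxz (by rw [sub_eq_zero.1 h])
      rcases hy with rfl | ⟨y, hy, rfl⟩
      · refine ⟨mk2 z (-x) 1 (-1) (fun h => h1 (by linear_combination -h)), GLK_mk2 _ hz (K.neg_mem hx) K.one_mem (K.neg_mem K.one_mem), ?_, ?_, ?_⟩
        · rw [mob_mk2_coe]; simp
        · rw [mob_mk2_coe]; simp
        · rw [mob_mk2_infty]; simp
      · have h2 : z - y ≠ 0 := fun h => hyz (by rw [sub_eq_zero.1 h])
        have h3 : y - x ≠ 0 := fun h => hxy (by rw [sub_eq_zero.1 h])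
        have hdet : z * (y - x) * (z - y) - x * (z - y) * (y - x) ≠ 0 := by
          have : z * (y - x) * (z - y) - x * (z - y) * (y - x) = (z - x) * (z - y) * (y - x) := by ring
          rw [this]; exact mul_ne_zero (mul_ne_zero h1 h2) h3
        refine ⟨mk2 (z * (y - x)) (x * (z - y)) (y - x) (z - y) hdet,
          GLK_mk2 _ (K.mul_mem hz (K.sub_mem hy hx)) (K.mul_mem hx (K.sub_mem hz hy))
            (K.sub_mem hy hx) (K.sub_mem hz hy), ?_, ?_, ?_⟩
        · rw [mob_mk2_coe]; simp [h2]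
        · rw [mob_mk2_coe]
          have h4 : (y - x) * 1 + (z - y) ≠ 0 := by
            have : (y - x) * 1 + (z - y) = z - x := by ring
            rw [this]; exact h1
          rw [if_neg h4, coe_eq_coe, div_eq_iff h4]
          ring
        · rw [mob_mk2_infty]; simp [h3]

/-- automorphisms fixing `K` pointwise commute with `PGL₂(K)` -/
lemma autP_mob_comm {K : Subfield F} {g : GL (Fin 2) F} (hg : GLK K g) {φ : F ≃+* F}
    (hφ : ∀ a ∈ K, φ a = a) : autP φ * mob g = mob g * autP φ := by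
  rw [autP_mob]
  congr 2
  apply Matrix.GeneralLinearGroup.ext
  intro i j
  exact hφ _ (hg i j)

end Line

end Pool.Agent.MPa267
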