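import Pool.Agent.Lib.MP_a267a3_lc.AlgA

/-!
# MP_a267a3_lc: PΓL₂(F) is closed and proper
-/

set_option autoImplicit false

namespace Pool.Agent.MPa267

open OnePoint

variable {F : Type*} [Field F]

/-- a Moebius map fixing `0, 1, ∞` is the identity -/
private lemma closedA_mob_eq_one {g : GL (Fin 2) F} (h0 : mob g ((0 : F) : OnePoint F) = (0 : F))
    (h1 : mob g ((1 : F) : OnePoint F) = (1 : F)) (hi : mob g ∞ = ∞) : mob g = 1 := by
  classical
  rw [mob_infty] at hi
  have h10 : g 1 0 = 0 := by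
    by_contra h
    rw [if_neg h] at hi
    exact coe_ne_infty _ hi
  rw [mob_coe, h10] at h0 h1
  simp only [zero_mul, zero_add, mul_zero, mul_one] at h0 h1
  have h11 : g 1 1 ≠ 0 := by
    intro h
    rw [if_pos h] at h0
    exact infty_ne_coe _ h0
  rw [if_neg h11, coe_eq_coe] at h0 h1
  have h01 : g 0 1 = 0 := by
    rcases div_eq_zero_iff.1 h0 with h | h
    · exact h
    · exact absurd h h11
  rw [div_eq_one_iff_eq h11, h01, add_zero] at h1
  ext x : 1
  rw [Equiv.Perm.one_apply]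
  induction x using OnePoint.rec with
  | infty => rw [mob_infty, if_pos h10]
  | coe x =>
    rw [mob_coe, h10, h01, h1]
    simp only [zero_mul, zero_add, add_zero]
    rw [if_neg h11, coe_eq_coe, mul_div_cancel_left₀ _ h11]

private lemma closedA_aut {τ : Equiv.Perm (OnePoint F)}
    (hτ : ∀ A : Finset (OnePoint F), ∃ h ∈ GG F, ∀ x ∈ A, h x = τ x)
    (h0 : τ ((0 : F) : OnePoint F) = (0 : F)) (h1 : τ ((1 : F) : OnePoint F) = (1 : F))
    (hi : τ ∞ = ∞) (A : Finset F) :
    ∃ φ : F ≃+* F, ∀ x ∈ A, τ (x : OnePoint F) = ((φ x : F) : OnePoint F) := by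
  classical
  obtain ⟨h, ⟨g, φ, rfl⟩, hh⟩ := hτ ((A.image (fun x : F => (x : OnePoint F))) ∪
    {((0 : F) : OnePoint F), ((1 : F) : OnePoint F), ∞})
  have e0 := hh ((0 : F) : OnePoint F) (by simp)
  have e1 := hh ((1 : F) : OnePoint F) (by simp)
  have ei := hh ∞ (by simp)
  rw [Equiv.Perm.mul_apply, autP_coe, map_zero, h0] at e0
  rw [Equiv.Perm.mul_apply, autP_coe, map_one, h1] at e1
  rw [Equiv.Perm.mul_apply, autP_infty, hi] at ei
  have hg := closedA_mob_eq_one e0 e1 ei
  refine ⟨φ, fun x hx => ?_⟩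
  have := hh (x : OnePoint F) (by
    rw [Finset.mem_union]
    exact Or.inl (Finset.mem_image_of_mem _ hx))
  rw [← this, hg, one_mul, autP_coe]

/-- `PΓL₂(F)` is closed -/
theorem GG_closed : IsClosedP (GG F) := by
  classical
  intro σ hσ
  have n01 : ((0 : F) : OnePoint F) ≠ ((1 : F) : OnePoint F) := fun h =>
    zero_ne_one (coe_eq_coe.1 h)
  have n0i : ((0 : F) : OnePoint F) ≠ ∞ := coe_ne_infty _
  have n1i : ((1 : F) : OnePoint F) ≠ ∞ := coe_ne_infty _
  have htop : ∀ x : OnePoint F, x ∈ PP (⊤ : Subfield F) := by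
    intro x
    induction x using OnePoint.rec with
    | infty => exact infty_mem_PP _
    | coe x => exact (coe_mem_PP _ _).2 trivial
  obtain ⟨g, -, g0, g1, gi⟩ := mob_three (K := (⊤ : Subfield F)) (σ.injective.ne n01)
    (σ.injective.ne n0i) (σ.injective.ne n1i) (htop _) (htop _) (htop _)
  set τ : Equiv.Perm (OnePoint F) := (mob g)⁻¹ * σ with hτdef
  have t0 : τ ((0 : F) : OnePoint F) = (0 : F) := by
    rw [hτdef, Equiv.Perm.mul_apply, ← g0, inv_apply_self']
  have t1 : τ ((1 : F) : OnePoint F) = (1 : F) := by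
    rw [hτdef, Equiv.Perm.mul_apply, ← g1, inv_apply_self']
  have ti : τ ∞ = ∞ := by
    rw [hτdef, Equiv.Perm.mul_apply, ← gi, inv_apply_self']
  have hτ : ∀ A : Finset (OnePoint F), ∃ h ∈ GG F, ∀ x ∈ A, h x = τ x := by
    intro A
    obtain ⟨h, hh, hA⟩ := hσ A
    refine ⟨(mob g)⁻¹ * h, (GG F).mul_mem ((GG F).inv_mem (mob_mem_GG g)) hh, fun x hx => ?_⟩
    rw [hτdef, Equiv.Perm.mul_apply, Equiv.Perm.mul_apply, hA x hx]
  have haut := fun A : Finset F => closedA_aut hτ t0 t1 ti A
  have hex : ∀ x : F, ∃ y : F, τ (x : OnePoint F) = (y : OnePoint F) := by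
    intro x
    obtain ⟨φ, hφ⟩ := haut {x}
    exact ⟨φ x, hφ x (by simp)⟩
  choose f hf using hex
  have hadd : ∀ x y, f (x + y) = f x + f y := by
    intro x y
    obtain ⟨φ, hφ⟩ := haut {x, y, x + y}
    have a1 := hφ x (by simp)
    have a2 := hφ y (by simp)
    have a3 := hφ (x + y) (by simp)
    rw [hf, coe_eq_coe] at a1 a2 a3
    rw [a1, a2, a3, map_add]
  have hmul : ∀ x y, f (x * y) = f x * f y := by
    intro x y
    obtain ⟨φ, hφ⟩ := haut {x, y, x * y}
    have a1 := hφ x (by simp)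
    have a2 := hφ y (by simp)
    have a3 := hφ (x * y) (by simp)
    rw [hf, coe_eq_coe] at a1 a2 a3
    rw [a1, a2, a3, map_mul]
  have hinj : Function.Injective f := by
    intro x y hxy
    have : τ (x : OnePoint F) = τ (y : OnePoint F) := by rw [hf, hf, hxy]
    exact coe_eq_coe.1 (τ.injective this)
  have hsurj : Function.Surjective f := by
    intro y
    have hy : τ (τ⁻¹ (y : OnePoint F)) = y := apply_inv_self' τ _
    generalize hz : τ⁻¹ (y : OnePoint F) = z at hy
    induction z using OnePoint.rec with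
    | infty => rw [ti] at hy; exact absurd hy (infty_ne_coe _)
    | coe z =>
      refine ⟨z, ?_⟩
      rw [hf, coe_eq_coe] at hy
      exact hy
  let φ : F ≃+* F :=
    { Equiv.ofBijective f ⟨hinj, hsurj⟩ with
      map_mul' := hmul
      map_add' := hadd }
  have hτφ : τ = autP φ := by
    ext x : 1
    induction x using OnePoint.rec with
    | infty => rw [ti, autP_infty]
    | coe x => rw [hf, autP_coe]; rfl
  refine ⟨g, φ, ?_⟩
  rw [← hτφ, hτdef, mul_inv_cancel_left]

/-- `PΓL₂(F)` is not the full symmetric group -/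
theorem GG_ne_top [IsAlgClosed F] (htr : ∃ t : F, t ∉ acl (∅ : Set F)) : GG F ≠ ⊤ := by
  classical
  obtain ⟨t, ht⟩ := htr
  intro htop
  -- an algebraic element different from `0, 1`
  obtain ⟨a, ha⟩ : ∃ a : F, a ^ 2 - a - 1 = 0 := by
    have hdeg : (Polynomial.X ^ 2 - Polynomial.X - 1 : Polynomial F).degree ≠ 0 := by
      have : (Polynomial.X ^ 2 - Polynomial.X - 1 : Polynomial F).degree = 2 := by
        compute_degree!
      rw [this]; decide
    obtain ⟨a, ha⟩ := IsAlgClosed.exists_root _ hdeg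
    exact ⟨a, by simpa using ha⟩
  have ha0 : a ≠ 0 := by
    rintro rfl
    simp at ha
  have ha1 : a ≠ 1 := by
    rintro rfl
    simp at ha
  have haacl : a ∈ acl (∅ : Set F) := by
    rw [mem_acl]
    refine ⟨Polynomial.X ^ 2 - Polynomial.X - 1, ?_, by simpa using ha⟩
    intro h
    have := congrArg (fun p => Polynomial.coeff p 0) h
    simp at this
  have ht0 : t ≠ 0 := by
    rintro rfl
    exact ht (acl (∅ : Set F)).zero_mem
  have ht1 : t ≠ 1 := by
    rintro rfl
    exact ht (acl (∅ : Set F)).one_mem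
  have hmem : Equiv.swap (t : OnePoint F) (a : OnePoint F) ∈ GG F := by rw [htop]; trivial
  obtain ⟨g, φ, hg⟩ := hmem
  have e0 : (mob g * autP φ) ((0 : F) : OnePoint F) = (0 : F) := by
    rw [← hg, Equiv.swap_apply_of_ne_of_ne]
    · exact fun h => ht0 (coe_eq_coe.1 h).symm
    · exact fun h => ha0 (coe_eq_coe.1 h).symm
  have e1 : (mob g * autP φ) ((1 : F) : OnePoint F) = (1 : F) := by
    rw [← hg, Equiv.swap_apply_of_ne_of_ne]
    · exact fun h => ht1 (coe_eq_coe.1 h).symm
    · exact fun h => ha1 (coe_eq_coe.1 h).symm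
  have ei : (mob g * autP φ) ∞ = ∞ := by
    rw [← hg, Equiv.swap_apply_of_ne_of_ne]
    · exact infty_ne_coe _
    · exact infty_ne_coe _
  rw [Equiv.Perm.mul_apply, autP_coe, map_zero] at e0
  rw [Equiv.Perm.mul_apply, autP_coe, map_one] at e1
  rw [Equiv.Perm.mul_apply, autP_infty] at ei
  have h1 := closedA_mob_eq_one e0 e1 ei
  rw [h1, one_mul] at hg
  have h2 : autP φ (a : OnePoint F) = (t : OnePoint F) := by
    rw [← hg, Equiv.swap_apply_right]
  rw [autP_coe, coe_eq_coe] at h2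
  have h3 : φ a ∈ acl (φ '' (∅ : Set F)) := (map_acl φ).2 haacl
  rw [Set.image_empty, h2] at h3
  exact ht h3

end Pool.Agent.MPa267
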