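import Pool.Agent.Lib.MP_a267a3_lc.AlgA

/-!
# MP_a267a3_lc: translation to Projectivization
-/

set_option autoImplicit false

namespace Pool.Agent.MPa267

open OnePoint

variable {F : Type*} [Field F]

open Classical in
/-- a permutation of `ℙ F (Fin 2 → F)` as a permutation of `OnePoint F` -/
noncomputable def toLine :
    Equiv.Perm (Projectivization F (Fin 2 → F)) ≃* Equiv.Perm (OnePoint F) :=
  (equivProjectivization F).symm.permCongrHom

open Classical in
private lemma closedB_key (φ : F ≃+* F) (f : (Fin 2 → F) →ₛₗ[φ.toRingHom] (Fin 2 → F))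
    (hf : Function.Injective f) (g : GL (Fin 2) F)
    (hg : ∀ i j, g i j = f (Pi.single j 1) i) (x : OnePoint F) :
    (equivProjectivization F).symm (Projectivization.map f hf (equivProjectivization F x)) =
      mob g (autP φ x) := by
  have hv : ∀ (v : Fin 2 → F) (i : Fin 2), f v i = φ (v 0) * g i 0 + φ (v 1) * g i 1 := by
    intro v i
    have e : v = v 0 • (Pi.single 0 1 : Fin 2 → F) + v 1 • (Pi.single 1 1 : Fin 2 → F) := by
      ext j; fin_cases j <;> simp
    conv_lhs => rw [e]
    rw [map_add, LinearMap.map_smulₛₗ, LinearMap.map_smulₛₗ, hg, hg]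
    simp
  induction x using OnePoint.rec with
  | infty =>
    rw [equivProjectivization_apply_infinity, Projectivization.map_mk,
      equivProjectivization_symm_apply_mk, autP_infty, mob_infty, hv, hv]
    simp [div_eq_inv_mul]
  | coe t =>
    rw [equivProjectivization_apply_coe, Projectivization.map_mk,
      equivProjectivization_symm_apply_mk, autP_coe, mob_coe, hv, hv]
    simp [div_eq_inv_mul, mul_comm]

/-- permutations induced by semilinear bijections correspond to `PΓL₂(F)` -/
theorem semilinear_iff (σ : Equiv.Perm (Projectivization F (Fin 2 → F))) :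
    (∃ (φ : F ≃+* F) (f : (Fin 2 → F) →ₛₗ[φ.toRingHom] (Fin 2 → F))
      (hf : Function.Injective f), ⇑σ = Projectivization.map f hf) ↔ toLine σ ∈ GG F := by
  classical
  have hto : ∀ x, toLine σ x = (equivProjectivization F).symm (σ (equivProjectivization F x)) := by
    intro x
    simp only [toLine, Equiv.permCongrHom, Equiv.permCongr]
    rfl
  constructor
  · rintro ⟨φ, f, hf, hσ⟩
    let M : Matrix (Fin 2) (Fin 2) F := Matrix.of fun i j => f (Pi.single j 1) i
    have hM : M.det ≠ 0 := by
      intro h0
      obtain ⟨v, hv0, hv⟩ := Matrix.exists_mulVec_eq_zero_iff.2 h0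
      apply hv0
      let w : Fin 2 → F := fun i => φ.symm (v i)
      have hw : f w = 0 := by
        have e : w = w 0 • (Pi.single 0 1 : Fin 2 → F) + w 1 • (Pi.single 1 1 : Fin 2 → F) := by
          ext j; fin_cases j <;> simp
        rw [e, map_add, LinearMap.map_smulₛₗ, LinearMap.map_smulₛₗ]
        ext i
        have h1 := congrFun hv i
        rw [Matrix.mulVec_fin_two] at h1
        have h2 : M i 0 * v 0 + M i 1 * v 1 = 0 := by
          fin_cases i
          · simpa using congrFun hv 0
          · simpa using congrFun hv 1
        have e0 : φ.toRingHom (w 0) = v 0 := by simp [w]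
        have e1 : φ.toRingHom (w 1) = v 1 := by simp [w]
        rw [e0, e1]
        simp only [Pi.add_apply, Pi.smul_apply, smul_eq_mul, Pi.zero_apply]
        rw [mul_comm (v 0), mul_comm (v 1)]
        exact h2
      have hw0 : w = 0 := hf (by rw [hw, map_zero])
      ext i
      have := congrFun hw0 i
      simpa [w] using this
    refine ⟨Matrix.GeneralLinearGroup.mkOfDetNeZero M hM, φ, ?_⟩
    ext x : 1
    rw [hto, hσ, closedB_key φ f hf (Matrix.GeneralLinearGroup.mkOfDetNeZero M hM)
      (fun i j => rfl) x]
    rfl
  · rintro ⟨g, φ, h⟩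
    let f : (Fin 2 → F) →ₛₗ[φ.toRingHom] (Fin 2 → F) :=
      { toFun := fun v => g.1.mulVec (fun i => φ (v i))
        map_add' := by
          intro v w
          rw [← Matrix.mulVec_add]
          congr 1
          ext i
          simp
        map_smul' := by
          intro c v
          rw [← Matrix.mulVec_smul]
          congr 1
          ext i
          simp }
    have hf : Function.Injective f := by
      rw [injective_iff_map_eq_zero]
      intro v hv
      have hv' : g.1.mulVec (fun i => φ (v i)) = 0 := hv
      have := Matrix.eq_zero_of_mulVec_eq_zero g.det_ne_zero hv'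
      ext i
      have := congrFun this i
      simpa using this
    refine ⟨φ, f, hf, ?_⟩
    funext p
    obtain ⟨x, rfl⟩ := (equivProjectivization F).surjective p
    have h1 := hto x
    rw [h] at h1
    have h2 := closedB_key φ f hf g (by
      intro i j
      show g i j = g.1.mulVec (fun i => φ ((Pi.single j 1 : Fin 2 → F) i)) i
      have : (fun i => φ ((Pi.single j 1 : Fin 2 → F) i)) = (Pi.single j 1 : Fin 2 → F) := by
        ext k
        by_cases hk : k = j
        · subst hk; simp
        · simp [hk]
      rw [this]
      simp) x
    apply (equivProjectivization F).symm.injective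
    rw [h2, ← h1]
    rfl

theorem acl_of_algebraicIndependent {x : Fin 2 → F}
    (hx : AlgebraicIndependent (⊥ : Subfield F) x) :
    x 0 ∉ acl (∅ : Set F) ∧ x 1 ∉ acl {x 0} := by
  constructor
  · rw [mem_acl, Subfield.closure_empty]
    exact hx.transcendental 0
  · rw [mem_acl]
    intro h
    have h1 : Transcendental (Algebra.adjoin (⊥ : Subfield F) (x '' {0})) (x 1) :=
      hx.transcendental_adjoin (by simp)
    rw [Set.image_singleton] at h1
    apply h1
    have hle : Subfield.closure {x 0} ≤
        (IntermediateField.adjoin (⊥ : Subfield F) {x 0}).toSubfield := by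
      rw [Subfield.closure_le]
      exact IntermediateField.subset_adjoin _ _
    have h2 : IsAlgebraic (IntermediateField.adjoin (⊥ : Subfield F) {x 0}) (x 1) := by
      obtain ⟨p, hp0, hp⟩ := h
      refine ⟨p.map (Subfield.inclusion hle), ?_, ?_⟩
      · exact (Polynomial.map_ne_zero_iff (Subfield.inclusion hle).injective).2 hp0
      · rw [Polynomial.aeval_def] at hp ⊢
        rw [← hp]
        exact Polynomial.eval₂_map _ _ _
    open scoped IntermediateField.algebraAdjoinAdjoin in
    exact (IsFractionRing.isAlgebraic_iff _ _ _).2 h2

end Pool.Agent.MPa267
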