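import Pool.Agent.Lib.MP_a267a3_lc.Setup

/-!
# MP_a267a3_lc: configurations in a block
-/

set_option autoImplicit false

namespace Pool.Agent.MPa267

open OnePoint

variable {F : Type*} [Field F]

/-! ### the setwise stabiliser -/

private def stabB {X : Type*} (B : Set X) : Subgroup (Equiv.Perm X) where
  carrier := {σ | ∀ x, σ x ∈ B ↔ x ∈ B}
  mul_mem' := by
    intro σ τ hσ hτ x
    rw [Equiv.Perm.mul_apply]
    exact (hσ _).trans (hτ x)
  one_mem' := fun x => Iff.rfl
  inv_mem' := by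
    intro σ hσ x
    have := hσ (σ⁻¹ x)
    rw [apply_inv_self'] at this
    exact this.symm

private lemma mem_stabB {X : Type*} {B : Set X} {σ : Equiv.Perm X} :
    σ ∈ stabB B ↔ ∀ x, σ x ∈ B ↔ x ∈ B := Iff.rfl

private lemma mem_stabB_of_image {X : Type*} {B : Set X} {σ : Equiv.Perm X} (h : σ '' B = B) :
    σ ∈ stabB B := by
  intro x
  constructor
  · intro hx
    rw [← h] at hx
    obtain ⟨y, hy, hyx⟩ := hx
    rwa [← σ.injective hyx]
  · intro hx
    rw [← h]
    exact ⟨x, hx, rfl⟩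

private lemma image_ClB {H : Subgroup (Equiv.Perm (OnePoint F))} {σ : Equiv.Perm (OnePoint F)}
    (hσ : σ ∈ H) (A : Set (OnePoint F)) : Cl H (σ '' A) = σ '' Cl H A := (image_cl hσ A).symm

private lemma mem_stabB_cl {H : Subgroup (Equiv.Perm (OnePoint F))} {σ : Equiv.Perm (OnePoint F)}
    (hσ : σ ∈ H) {A : Set (OnePoint F)} (h : σ '' A = A) : σ ∈ stabB (Cl H A) := by
  apply mem_stabB_of_image
  rw [image_cl hσ, h]

/-! ### the sets `T_t` -/

private lemma TT_mem_E {E : Set (OnePoint F)} {m : ℕ} {t : F} {x : OnePoint F} (hx : x ∈ E) :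
    x ∈ TT E m t := Or.inl hx

private lemma TT_mem_u {E : Set (OnePoint F)} {m : ℕ} {t u : F} (hu : u ^ m = 1) :
    (u : OnePoint F) ∈ TT E m t := Or.inr ⟨u, hu, Or.inl rfl⟩

private lemma TT_mem_tu {E : Set (OnePoint F)} {m : ℕ} {t u : F} (hu : u ^ m = 1) :
    ((t * u : F) : OnePoint F) ∈ TT E m t := Or.inr ⟨u, hu, Or.inr rfl⟩

private lemma TT_mem_one {E : Set (OnePoint F)} {m : ℕ} {t : F} :
    ((1 : F) : OnePoint F) ∈ TT E m t := TT_mem_u (one_pow m)

private lemma TT_mem_self {E : Set (OnePoint F)} {m : ℕ} {t : F} :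
    (t : OnePoint F) ∈ TT E m t := by
  have := TT_mem_tu (E := E) (m := m) (t := t) (one_pow m)
  rwa [mul_one] at this

private lemma autP_TT {E : Set (OnePoint F)} (hE : E = ∅ ∨ E = EE F) (m : ℕ) (t : F)
    (φ : F ≃+* F) : autP φ '' TT E m t = TT E m (φ t) := by
  have hsub : ∀ (ψ : F ≃+* F) (r : F), ∀ x ∈ TT E m r, autP ψ x ∈ TT E m (ψ r) := by
    intro ψ r x hx
    rcases hx with hx | ⟨u, hu, hx | hx⟩
    · left
      rcases hE with rfl | rfl
      · exact hx.elim
      · rcases hx with rfl | rfl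
        · left; simp
        · right; rfl
    · subst hx
      rw [autP_coe]
      exact TT_mem_u (by rw [← map_pow, hu, map_one])
    · subst hx
      rw [autP_coe, map_mul]
      exact TT_mem_tu (by rw [← map_pow, hu, map_one])
  apply Set.Subset.antisymm
  · rintro _ ⟨x, hx, rfl⟩
    exact hsub φ t x hx
  · intro x hx
    refine ⟨autP φ.symm x, ?_, ?_⟩
    · have := hsub φ.symm _ x hx
      rwa [RingEquiv.symm_apply_apply] at this
    · rw [autP_symm, apply_inv_self']

private lemma mulP_TT {E : Set (OnePoint F)} (hE : E = ∅ ∨ E = EE F) {m : ℕ} (hm : m ≠ 0) (t : F)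
    {w : F} (hw : w ^ m = 1) : mulP w '' TT E m t = TT E m t := by
  have hw0 : ∀ w : F, w ^ m = 1 → w ≠ 0 := by
    intro w hw h
    rw [h, zero_pow hm] at hw
    exact zero_ne_one hw
  have hsub : ∀ (w : F), w ^ m = 1 → ∀ x ∈ TT E m t, mulP w x ∈ TT E m t := by
    intro w hw x hx
    rcases hx with hx | ⟨u, hu, hx | hx⟩
    · left
      rcases hE with rfl | rfl
      · exact hx.elim
      · rcases hx with rfl | rfl
        · left; rw [mulP_coe (hw0 w hw)]; simp
        · right; simp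
    · subst hx
      rw [mulP_coe (hw0 w hw)]
      exact TT_mem_u (by rw [mul_pow, hw, hu, one_mul])
    · subst hx
      rw [mulP_coe (hw0 w hw), mul_left_comm]
      exact TT_mem_tu (by rw [mul_pow, hw, hu, one_mul])
  apply Set.Subset.antisymm
  · rintro _ ⟨x, hx, rfl⟩
    exact hsub w hw x hx
  · intro x hx
    refine ⟨mulP w⁻¹ x, hsub _ (by rw [inv_pow, hw, inv_one]) x hx, ?_⟩
    have h0 := hw0 w hw
    induction x using OnePoint.rec with
    | infty => simp
    | coe x => rw [mulP_coe (inv_ne_zero h0), mulP_coe h0, mul_inv_cancel_left₀ h0]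

private lemma inv_TT {E : Set (OnePoint F)} (hE : E = ∅ ∨ E = EE F) {m : ℕ} (hm : m ≠ 0) {t : F}
    (ht : t ≠ 0) : (mulP t * invP : Equiv.Perm (OnePoint F)) '' TT E m t = TT E m t := by
  have hw0 : ∀ w : F, w ^ m = 1 → w ≠ 0 := by
    intro w hw h
    rw [h, zero_pow hm] at hw
    exact zero_ne_one hw
  have hsub : ∀ x ∈ TT E m t, (mulP t * invP : Equiv.Perm (OnePoint F)) x ∈ TT E m t := by
    intro x hx
    rw [Equiv.Perm.mul_apply]
    rcases hx with hx | ⟨u, hu, hx | hx⟩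
    · left
      rcases hE with rfl | rfl
      · exact hx.elim
      · rcases hx with rfl | rfl
        · right; simp
        · left; rw [invP_infty, mulP_coe ht]; simp
    · subst hx
      rw [invP_coe (hw0 u hu), mulP_coe ht]
      exact TT_mem_tu (by rw [inv_pow, hu, inv_one])
    · subst hx
      have h0 := hw0 u hu
      rw [invP_coe (mul_ne_zero ht h0), mulP_coe ht, mul_inv, mul_inv_cancel_left₀ ht]
      exact TT_mem_u (by rw [inv_pow, hu, inv_one])
  have hinv : ∀ x : OnePoint F, (mulP t * invP : Equiv.Perm (OnePoint F))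
      ((mulP t * invP : Equiv.Perm (OnePoint F)) x) = x := by
    intro x
    rw [Equiv.Perm.mul_apply, Equiv.Perm.mul_apply]
    induction x using OnePoint.rec with
    | infty => rw [invP_infty, mulP_coe ht, mul_zero, invP_zero, mulP_infty]
    | coe x =>
      by_cases hx : x = 0
      · subst hx
        rw [invP_zero, mulP_infty, invP_infty, mulP_coe ht, mul_zero]
      · rw [invP_coe hx, mulP_coe ht, invP_coe (mul_ne_zero ht (inv_ne_zero hx)), mulP_coe ht,
          mul_inv, inv_inv, mul_inv_cancel_left₀ ht]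
  apply Set.Subset.antisymm
  · rintro _ ⟨x, hx, rfl⟩
    exact hsub x hx
  · intro x hx
    exact ⟨_, hsub x hx, hinv x⟩

private lemma mulP_mul' {a b : F} (ha : a ≠ 0) (hb : b ≠ 0) :
    (mulP (a * b) : Equiv.Perm (OnePoint F)) = mulP a * mulP b := by
  ext x
  rw [Equiv.Perm.mul_apply]
  induction x using OnePoint.rec with
  | infty => simp
  | coe x => rw [mulP_coe (mul_ne_zero ha hb), mulP_coe hb, mulP_coe ha, mul_assoc]

private lemma mulP_mem_stabB {B : Set (OnePoint F)} {a b : F} (ha : a ≠ 0) (hb : b ≠ 0)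
    (h : mulP (a * b) ∈ stabB B) (h' : mulP b ∈ stabB B) : mulP a ∈ stabB B := by
  rw [mulP_mul' ha hb] at h
  have := (stabB B).mul_mem h ((stabB B).inv_mem h')
  rwa [mul_inv_cancel_right] at this

private lemma TT_ncard {E : Set (OnePoint F)} (hE : E = ∅ ∨ E = EE F) {m : ℕ} (hm : m ≠ 0)
    (M : Finset F) (hM : ∀ u, u ∈ M ↔ u ^ m = 1) {t : F} (ht : t ≠ 0) (htm : t ^ m ≠ 1) :
    (TT E m t).Finite ∧ (TT E m t).ncard = E.ncard + (M.card + M.card) := by
  classical
  have hw0 : ∀ w : F, w ^ m = 1 → w ≠ 0 := by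
    intro w hw h
    rw [h, zero_pow hm] at hw
    exact zero_ne_one hw
  set A1 : Set (OnePoint F) := (fun x : F => (x : OnePoint F)) '' (M : Set F) with hA1
  set A2 : Set (OnePoint F) := (fun x : F => ((t * x : F) : OnePoint F)) '' (M : Set F) with hA2
  have hEf : E.Finite := by
    rcases hE with rfl | rfl
    · exact Set.finite_empty
    · exact (Set.finite_singleton _).insert _
  have h1f : A1.Finite := M.finite_toSet.image _
  have h2f : A2.Finite := M.finite_toSet.image _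
  have h1c : A1.ncard = M.card := by
    rw [hA1, Set.ncard_image_of_injective, Set.ncard_coe_finset]
    intro x y h
    exact coe_eq_coe.1 h
  have h2c : A2.ncard = M.card := by
    rw [hA2, Set.ncard_image_of_injective, Set.ncard_coe_finset]
    intro x y h
    exact mul_left_cancel₀ ht (coe_eq_coe.1 h)
  have heq : TT E m t = E ∪ (A1 ∪ A2) := by
    ext x
    constructor
    · rintro (hx | ⟨u, hu, hx | hx⟩)
      · exact Or.inl hx
      · exact Or.inr (Or.inl ⟨u, (hM u).2 hu, hx.symm⟩)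
      · exact Or.inr (Or.inr ⟨u, (hM u).2 hu, hx.symm⟩)
    · rintro (hx | ⟨u, hu, hx⟩ | ⟨u, hu, hx⟩)
      · exact Or.inl hx
      · exact Or.inr ⟨u, (hM u).1 hu, Or.inl hx.symm⟩
      · exact Or.inr ⟨u, (hM u).1 hu, Or.inr hx.symm⟩
  have hd12 : Disjoint A1 A2 := by
    rw [Set.disjoint_left]
    rintro _ ⟨u, hu, rfl⟩ ⟨w, hw, hwu⟩
    have h1 : t * w = u := coe_eq_coe.1 hwu
    apply htm
    have h2 : (t * w) ^ m = u ^ m := by rw [h1]
    rw [mul_pow, (hM w).1 hw, (hM u).1 hu, mul_one] at h2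
    exact h2
  have hdE : Disjoint E (A1 ∪ A2) := by
    rcases hE with rfl | rfl
    · exact Set.empty_disjoint _
    · rw [Set.disjoint_left]
      rintro x hx (⟨u, hu, rfl⟩ | ⟨u, hu, rfl⟩)
      · rcases hx with hx | hx
        · exact hw0 u ((hM u).1 hu) (coe_eq_coe.1 hx)
        · exact coe_ne_infty _ hx
      · rcases hx with hx | hx
        · exact mul_ne_zero ht (hw0 u ((hM u).1 hu)) (coe_eq_coe.1 hx)
        · exact coe_ne_infty _ hx
  refine ⟨heq ▸ hEf.union (h1f.union h2f), ?_⟩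
  rw [heq, Set.ncard_union_eq hdE hEf (h1f.union h2f), Set.ncard_union_eq hd12 h1f h2f, h1c, h2c]

private lemma not_mem_acl_pow {v : F} (hv : v ∉ acl (∅ : Set F)) {i : ℕ} (hi : 0 < i) :
    v ^ i ∉ acl (∅ : Set F) := by
  intro h
  apply hv
  rw [mem_acl] at h ⊢
  exact h.of_pow hi

/-- a block is generated by any subset with at least `n` elements -/
private lemma Cl_eq_of_subset {H : Subgroup (Equiv.Perm (OnePoint F))} {n : ℕ}
    (s : Setup H n) {A : Finset (OnePoint F)} (hA : A.card = n) {T : Set (OnePoint F)}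
    (hT : n ≤ T.ncard) (hTA : T ⊆ Cl H (A : Set (OnePoint F))) :
    Cl H T = Cl H (A : Set (OnePoint F)) := by
  classical
  have hn := s.four
  have hfin : T.Finite := Set.finite_of_ncard_pos (by omega)
  obtain ⟨B, hB⟩ := hfin.exists_finset_coe
  have hBn : n ≤ B.card := by
    rw [← hB, Set.ncard_coe_finset] at hT
    exact hT
  obtain ⟨C, hCB, hC⟩ := Finset.exists_subset_card_eq hBn
  have hCT : (C : Set (OnePoint F)) ⊆ T := by
    rw [← hB]; exact_mod_cast hCB
  have h1 : Cl H (C : Set (OnePoint F)) = Cl H (A : Set (OnePoint F)) :=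
    s.abs.block_eq A C hA hC (hCT.trans hTA)
  apply Set.Subset.antisymm
  · exact cl_le hTA
  · rw [← h1]
    exact cl_mono hCT

/-- (section 5, even `n` and case A) -/
theorem config_block [IsAlgClosed F] {H : Subgroup (Equiv.Perm (OnePoint F))} {n : ℕ}
    (s : Setup H n) {t₀ : F} (ht₀ : t₀ ∉ acl (∅ : Set F))
    (E : Set (OnePoint F)) (hE : E = ∅ ∨ E = EE F) (m : ℕ) (hm : (m : F) ≠ 0)
    (hcard : n ≤ (TT E m t₀).ncard)
    (hbl : ∃ A : Finset (OnePoint F), A.card = n ∧ TT E m t₀ ⊆ Cl H A)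
    (hbig : ∃ x ∈ Cl H (TT E m t₀), x ∉ TT E m t₀ ∧ x ∉ EE F) : False := by
  classical
  obtain ⟨A, hA, hTA⟩ := hbl
  obtain ⟨M, hMc, hM⟩ := exists_unit_group m hm
  have hm0 : m ≠ 0 := by rintro rfl; simp at hm
  have hk : IsAlgClosed (acl (∅ : Set F)) := isAlgClosed_acl _
  have hktop : acl (∅ : Set F) ≠ ⊤ := acl_ne_top_of_not_mem ht₀
  have hrk : ∀ (e : ℕ), (e : F) ≠ 0 → ∀ u : F, u ^ e = 1 → u ∈ acl (∅ : Set F) :=
    fun e he u hu => UU_subset_acl ⟨e, he, hu⟩
  -- transcendental elements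
  have hne0 : ∀ v : F, v ∉ acl (∅ : Set F) → v ≠ 0 := by
    rintro v hv rfl
    exact hv (acl (∅ : Set F)).zero_mem
  have hnem : ∀ v : F, v ∉ acl (∅ : Set F) → v ^ m ≠ 1 := fun v hv h => hv (hrk m hm v h)
  -- `T_s` inside `P¹(k)`
  have hTk : ∀ c : F, c ∈ acl (∅ : Set F) → Cl H (TT E m c) ⊆ PP (acl (∅ : Set F)) := by
    intro c hc
    apply Cl_subset_PP H s.hG _ hktop
    rintro x (hx | ⟨u, hu, hx | hx⟩)
    · rcases hE with rfl | rfl
      · exact hx.elim
      · rcases hx with rfl | rfl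
        · rw [coe_mem_PP]; exact (acl (∅ : Set F)).zero_mem
        · exact infty_mem_PP _
    · subst hx; rw [coe_mem_PP]; exact hrk m hm u hu
    · subst hx; rw [coe_mem_PP]; exact (acl (∅ : Set F)).mul_mem hc (hrk m hm u hu)
  -- cardinality
  have hcardT : ∀ r : F, r ≠ 0 → r ^ m ≠ 1 → n ≤ (TT E m r).ncard := by
    intro r hr hr1
    rw [(TT_ncard hE hm0 M hM hr hr1).2, ← (TT_ncard hE hm0 M hM (hne0 _ ht₀) (hnem _ ht₀)).2]
    exact hcard
  -- every transcendental `v`: `Cl (T_v)` is a block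
  have hblock : ∀ v : F, v ∉ acl (∅ : Set F) → ∃ A : Finset (OnePoint F), A.card = n ∧
      Cl H (TT E m v) = Cl H (A : Set (OnePoint F)) := by
    intro v hv
    obtain ⟨φ, hφ, hφt⟩ := exists_aut_of_not_mem (acl (∅ : Set F)) ht₀ hv
    refine ⟨A.map (autP φ).toEmbedding, by rw [Finset.card_map, hA], ?_⟩
    rw [← hφt, ← autP_TT hE, image_ClB (s.hG (autP_mem_GG φ)), Cl_eq_of_subset s hA hcard hTA]
    rw [show ((A.map (autP φ).toEmbedding : Finset (OnePoint F)) : Set (OnePoint F)) =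
      autP φ '' (A : Set (OnePoint F)) by simp, image_ClB (s.hG (autP_mem_GG φ))]
  -- if `coe r ∈ Cl T_v`, then `Cl T_r = Cl T_v`
  have hstep : ∀ v : F, v ∉ acl (∅ : Set F) → ∀ r : F, r ≠ 0 → r ^ m ≠ 1 →
      (r : OnePoint F) ∈ Cl H (TT E m v) → Cl H (TT E m r) = Cl H (TT E m v) := by
    intro v hv r hr hr1 hrv
    obtain ⟨A', hA', hA'v⟩ := hblock v hv
    rw [hA'v]
    apply Cl_eq_of_subset s hA' (hcardT r hr hr1)
    rw [← hA'v]
    rintro x (hx | ⟨u, hu, hx | hx⟩)
    · exact subset_cl _ (TT_mem_E hx)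
    · subst hx; exact subset_cl _ (TT_mem_u hu)
    · subst hx
      have h1 : mulP u ∈ stabB (Cl H (TT E m v)) :=
        mem_stabB_cl (s.hG (mulP_mem_GG u)) (mulP_TT hE hm0 v hu)
      have h2 := (h1 (r : OnePoint F)).2 hrv
      have hu0 : u ≠ 0 := by
        rintro rfl
        rw [zero_pow hm0] at hu
        exact zero_ne_one hu
      rwa [mulP_coe hu0, mul_comm] at h2
  -- the element `c`
  have hc : ∃ c : F, c ∉ acl (∅ : Set F) ∧ mulP c ∈ stabB (Cl H (TT E m c)) := by
    obtain ⟨x, hx, hxT, hxE⟩ := hbig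
    have hx' : ∃ r : F, x = (r : OnePoint F) := by
      induction x using OnePoint.rec with
      | infty => exact absurd (Or.inr rfl) hxE
      | coe x => exact ⟨x, rfl⟩
    obtain ⟨r, rfl⟩ := hx'
    have hr0 : r ≠ 0 := by
      rintro rfl
      exact hxE (Or.inl rfl)
    have hr1 : r ^ m ≠ 1 := fun h => hxT (TT_mem_u h)
    have ht0 := hne0 _ ht₀
    have hrt : (r / t₀) ^ m ≠ 1 := by
      intro h
      apply hxT
      have := TT_mem_tu (E := E) (t := t₀) h
      rwa [mul_div_cancel₀ _ ht0] at this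
    have hrt0 : r / t₀ ≠ 0 := div_ne_zero hr0 ht0
    have h1 : Cl H (TT E m r) = Cl H (TT E m t₀) := hstep t₀ ht₀ r hr0 hr1 hx
    have h2 : (mulP r * invP : Equiv.Perm (OnePoint F)) ∈ stabB (Cl H (TT E m t₀)) := by
      rw [← h1]
      exact mem_stabB_cl (H.mul_mem (s.hG (mulP_mem_GG r)) (s.hG invP_mem_GG))
        (inv_TT hE hm0 hr0)
    have h3 : (mulP t₀ * invP : Equiv.Perm (OnePoint F)) ∈ stabB (Cl H (TT E m t₀)) :=
      mem_stabB_cl (H.mul_mem (s.hG (mulP_mem_GG t₀)) (s.hG invP_mem_GG))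
        (inv_TT hE hm0 ht0)
    have h4 : mulP (r / t₀) ∈ stabB (Cl H (TT E m t₀)) := by
      have := (stabB (Cl H (TT E m t₀))).mul_mem h2 ((stabB (Cl H (TT E m t₀))).inv_mem h3)
      have h5 : (mulP r * invP : Equiv.Perm (OnePoint F)) * (mulP t₀ * invP)⁻¹ =
          mulP (r / t₀) := by
        rw [mul_inv_rev, mul_assoc, mul_inv_cancel_left, mul_inv_eq_iff_eq_mul,
          ← mulP_mul' hrt0 ht0, div_mul_cancel₀ _ ht0]
      rwa [h5] at this
    have h5 : ((r / t₀ : F) : OnePoint F) ∈ Cl H (TT E m t₀) := by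
      have := (h4 ((1 : F) : OnePoint F)).2 (subset_cl _ TT_mem_one)
      rwa [mulP_coe hrt0, mul_one] at this
    have h6 := hstep t₀ ht₀ (r / t₀) hrt0 hrt h5
    refine ⟨r / t₀, ?_, by rw [h6]; exact h4⟩
    intro hc
    have h7 : (t₀ : OnePoint F) ∈ Cl H (TT E m t₀) := subset_cl _ TT_mem_self
    rw [← h6] at h7
    have h8 := hTk _ hc h7
    rw [coe_mem_PP] at h8
    exact ht₀ h8
  obtain ⟨c, hck, hcs⟩ := hc
  -- `(**)`
  have hstab : ∀ v : F, v ∉ acl (∅ : Set F) → mulP v ∈ stabB (Cl H (TT E m v)) := by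
    intro v hv
    obtain ⟨φ, hφ, hφt⟩ := exists_aut_of_not_mem (acl (∅ : Set F)) hck hv
    have h1 : mulP v = autP φ * mulP c * (autP φ)⁻¹ := by
      rw [eq_mul_inv_iff_mul_eq]
      ext x
      rw [Equiv.Perm.mul_apply, Equiv.Perm.mul_apply]
      induction x using OnePoint.rec with
      | infty => simp
      | coe x =>
        rw [autP_coe, mulP_coe (hne0 v hv), mulP_coe (hne0 c hck), autP_coe, map_mul, hφt]
    have h2 : Cl H (TT E m v) = autP φ '' Cl H (TT E m c) := by
      rw [← hφt, ← autP_TT hE, image_ClB (s.hG (autP_mem_GG φ))]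
    have h3 : ∀ y, y ∈ Cl H (TT E m v) ↔ (autP φ)⁻¹ y ∈ Cl H (TT E m c) := by
      intro y
      rw [h2]
      constructor
      · rintro ⟨z, hz, rfl⟩
        rwa [inv_apply_self']
      · intro hy
        exact ⟨_, hy, apply_inv_self' _ _⟩
    intro x
    rw [h3, h3, h1, Equiv.Perm.mul_apply, Equiv.Perm.mul_apply, inv_apply_self']
    exact hcs _
  -- powers
  have hpow : ∀ v : F, v ∉ acl (∅ : Set F) → ∀ i : ℕ, 0 < i →
      Cl H (TT E m (v ^ i)) = Cl H (TT E m v) := by
    intro v hv i hi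
    have h1 : ∀ j : ℕ, ((v ^ j : F) : OnePoint F) ∈ Cl H (TT E m v) := by
      intro j
      induction j with
      | zero => rw [pow_zero]; exact subset_cl _ TT_mem_one
      | succ j ih =>
        have := (hstab v hv _).2 ih
        rwa [mulP_coe (hne0 v hv), ← pow_succ'] at this
    have h2 := not_mem_acl_pow hv hi
    exact hstep v hv (v ^ i) (hne0 _ h2) (hnem _ h2) (h1 i)
  -- roots of unity
  have hroot : ∀ u ∈ UU F, (u : OnePoint F) ∈ Cl H (TT E m t₀) := by
    rintro u ⟨e, he, hu⟩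
    have he0 : 0 < e := by
      rcases Nat.eq_zero_or_pos e with rfl | h
      · simp at he
      · exact h
    have huk : u ∈ acl (∅ : Set F) := hrk e he u hu
    have hu0 : u ≠ 0 := by
      rintro rfl
      rw [zero_pow he0.ne'] at hu
      exact zero_ne_one hu
    have hut : u * t₀ ∉ acl (∅ : Set F) := by
      intro h
      have := (acl (∅ : Set F)).mul_mem ((acl (∅ : Set F)).inv_mem huk) h
      rw [inv_mul_cancel_left₀ hu0] at this
      exact ht₀ this
    have h1 : Cl H (TT E m (u * t₀)) = Cl H (TT E m t₀) := by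
      rw [← hpow _ hut e he0, mul_pow, hu, one_mul, hpow _ ht₀ e he0]
    have h2 := hstab _ hut
    rw [h1] at h2
    have h3 := mulP_mem_stabB hu0 (hne0 _ ht₀) h2 (hstab _ ht₀)
    have := (h3 ((1 : F) : OnePoint F)).2 (subset_cl _ TT_mem_one)
    rwa [mulP_coe hu0, mul_one] at this
  obtain ⟨u, huU, huM⟩ := (UU_infinite (F := F)).exists_notMem_finset M
  have hum : u ^ m ≠ 1 := fun h => huM ((hM u).2 h)
  have hu0 : u ≠ 0 := by
    rintro rfl
    obtain ⟨e, he, hu⟩ := huU
    have he0 : e ≠ 0 := by rintro rfl; simp at he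
    rw [zero_pow he0] at hu
    exact zero_ne_one hu
  have h1 := hstep t₀ ht₀ u hu0 hum (hroot u huU)
  have h2 : (t₀ : OnePoint F) ∈ Cl H (TT E m t₀) := subset_cl _ TT_mem_self
  rw [← h1] at h2
  have h3 := hTk u (UU_subset_acl huU) h2
  rw [coe_mem_PP] at h3
  exact ht₀ h3

end Pool.Agent.MPa267
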