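import Pool.Agent.Lib.MP_a267a3_lc.Setup

/-!
# MP_a267a3_lc: configurations of rank n+1
-/

set_option autoImplicit false

namespace Pool.Agent.MPa267

open OnePoint

variable {F : Type*} [Field F]

private lemma setupC_root_mem [IsAlgClosed F] {m : ℕ} (hm : (m : F) ≠ 0) {u : F}
    (hu : u ^ m = 1) : u ∈ acl (∅ : Set F) := UU_subset_acl ⟨m, hm, hu⟩

private lemma setupC_image_TT [IsAlgClosed F] {E : Set (OnePoint F)} (hE : E = ∅ ∨ E = EE F)
    {m : ℕ} (hm : (m : F) ≠ 0) (φ : F ≃+* F) (hφ : ∀ a ∈ acl (∅ : Set F), φ a = a) (t : F) :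
    autP φ '' TT E m t = TT E m (φ t) := by
  have hEE : ∀ x ∈ E, autP φ x = x := by
    intro x hx
    rcases hE with rfl | rfl
    · exact absurd hx (Set.notMem_empty x)
    · rcases hx with rfl | rfl
      · rw [autP_coe, map_zero]
      · rfl
  ext x
  constructor
  · rintro ⟨y, hy | ⟨u, hu, hy | hy⟩, rfl⟩
    · left; rwa [hEE y hy]
    · right
      refine ⟨u, hu, Or.inl ?_⟩
      rw [hy, autP_coe, hφ u (setupC_root_mem hm hu)]
    · right
      refine ⟨u, hu, Or.inr ?_⟩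
      rw [hy, autP_coe, map_mul, hφ u (setupC_root_mem hm hu)]
  · rintro (hx | ⟨u, hu, rfl | rfl⟩)
    · exact ⟨x, Or.inl hx, hEE x hx⟩
    · exact ⟨_, Or.inr ⟨u, hu, Or.inl rfl⟩, by rw [autP_coe, hφ u (setupC_root_mem hm hu)]⟩
    · exact ⟨_, Or.inr ⟨u, hu, Or.inr rfl⟩, by
        rw [autP_coe, map_mul, hφ u (setupC_root_mem hm hu)]⟩

private lemma setupC_one_mem (E : Set (OnePoint F)) (m : ℕ) (t : F) :
    ((1 : F) : OnePoint F) ∈ TT E m t := Or.inr ⟨1, one_pow m, Or.inl rfl⟩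

private lemma setupC_t_mem (E : Set (OnePoint F)) (m : ℕ) (t : F) :
    (t : OnePoint F) ∈ TT E m t := Or.inr ⟨1, one_pow m, Or.inr (by rw [mul_one])⟩

private lemma setupC_mulP_TT {E : Set (OnePoint F)} (hE : E = ∅ ∨ E = EE F)
    {m : ℕ} (hm : (m : F) ≠ 0) {w : F} (hw : w ^ m = 1) (t : F) :
    mulP w '' TT E m t ⊆ TT E m t := by
  have hw0 : w ≠ 0 := by
    rintro rfl
    have hm' : m ≠ 0 := by rintro rfl; exact hm Nat.cast_zero
    rw [zero_pow hm'] at hw
    exact zero_ne_one hw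
  rintro _ ⟨y, hy | ⟨u, hu, hy | hy⟩, rfl⟩
  · left
    rcases hE with rfl | rfl
    · exact absurd hy (Set.notMem_empty y)
    · rcases hy with rfl | rfl
      · rw [mulP_coe hw0, mul_zero]; exact Or.inl rfl
      · rw [mulP_infty]; exact Or.inr rfl
  · right
    exact ⟨w * u, by rw [mul_pow, hw, hu, one_mul], Or.inl (by rw [hy, mulP_coe hw0])⟩
  · right
    refine ⟨w * u, by rw [mul_pow, hw, hu, one_mul], Or.inr ?_⟩
    rw [hy, mulP_coe hw0, mul_left_comm]

private lemma setupC_inv_TT {E : Set (OnePoint F)} (hE : E = ∅ ∨ E = EE F)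
    {m : ℕ} (hm : (m : F) ≠ 0) {t : F} (ht : t ≠ 0) :
    (mulP t * invP : Equiv.Perm (OnePoint F)) '' TT E m t ⊆ TT E m t := by
  have hm' : m ≠ 0 := by rintro rfl; exact hm Nat.cast_zero
  have hu0 : ∀ u : F, u ^ m = 1 → u ≠ 0 := by
    rintro u hu rfl
    rw [zero_pow hm'] at hu
    exact zero_ne_one hu
  rintro _ ⟨y, hy | ⟨u, hu, hy | hy⟩, rfl⟩
  · left
    rcases hE with rfl | rfl
    · exact absurd hy (Set.notMem_empty y)
    · rcases hy with rfl | rfl
      · rw [Equiv.Perm.mul_apply, invP_zero, mulP_infty]; exact Or.inr rfl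
      · rw [Equiv.Perm.mul_apply, invP_infty, mulP_coe ht, mul_zero]; exact Or.inl rfl
  · right
    refine ⟨u⁻¹, by rw [inv_pow, hu, inv_one], Or.inr ?_⟩
    rw [hy, Equiv.Perm.mul_apply, invP_coe (hu0 u hu), mulP_coe ht]
  · right
    refine ⟨u⁻¹, by rw [inv_pow, hu, inv_one], Or.inl ?_⟩
    rw [hy, Equiv.Perm.mul_apply, invP_coe (mul_ne_zero ht (hu0 u hu)), mulP_coe ht, mul_inv,
      mul_inv_cancel_left₀ ht]

private lemma setupC_inv_inv {s t : F} (hs : s ≠ 0) (ht : t ≠ 0) (x : OnePoint F) :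
    mulP (s / t) x = (mulP s * invP : Equiv.Perm (OnePoint F))
      ((mulP t * invP : Equiv.Perm (OnePoint F)) x) := by
  have hst : s / t ≠ 0 := div_ne_zero hs ht
  simp only [Equiv.Perm.mul_apply]
  induction x using OnePoint.rec with
  | infty => rw [mulP_infty, invP_infty, mulP_coe ht, mul_zero, invP_zero, mulP_infty]
  | coe x =>
    by_cases hx : x = 0
    · subst hx
      rw [invP_zero, mulP_infty, invP_infty, mulP_coe hs, mulP_coe hst, mul_zero, mul_zero]
    · rw [invP_coe hx, mulP_coe ht, invP_coe (mul_ne_zero ht (inv_ne_zero hx)), mulP_coe hs,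
        mulP_coe hst]
      congr 1
      field_simp

private lemma setupC_stable {H : Subgroup (Equiv.Perm (OnePoint F))} {h : Equiv.Perm (OnePoint F)}
    (hh : h ∈ H) {A : Set (OnePoint F)} (hA : h '' A ⊆ A) {x : OnePoint F} (hx : x ∈ Cl H A) :
    h x ∈ Cl H A := by
  have h1 : h x ∈ h '' Cl H A := ⟨x, hx, rfl⟩
  rw [image_cl hh] at h1
  exact cl_mono hA h1

private lemma setupC_finite {α : Type*} {s : Set α} {N : ℕ}
    (h : ∀ A : Finset α, (A : Set α) ⊆ s → A.card < N) : s.Finite ∧ s.ncard < N := by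
  have hfin : s.Finite := by
    by_contra hinf
    obtain ⟨A, hA, hA'⟩ := Set.Infinite.exists_subset_card_eq hinf N
    exact absurd (h A hA) (by rw [hA']; exact lt_irrefl _)
  refine ⟨hfin, ?_⟩
  rw [Set.ncard_eq_toFinset_card s hfin]
  exact h _ (by rw [Set.Finite.coe_toFinset])

/-- (section 5, case B) -/
theorem config_flat [IsAlgClosed F] {H : Subgroup (Equiv.Perm (OnePoint F))} {n : ℕ}
    (s : Setup H n) {t₀ u₀ : F} (ht₀ : t₀ ∉ acl (∅ : Set F)) (hu₀ : u₀ ∉ acl {t₀})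
    (E : Set (OnePoint F)) (hE : E = ∅ ∨ E = EE F) (m : ℕ) (hm : (m : F) ≠ 0)
    (hcard : (TT E m t₀).ncard = n + 1)
    (hnb : ¬ ∃ A : Finset (OnePoint F), A.card = n ∧ TT E m t₀ ⊆ Cl H A)
    (hbig : ∀ A B : Finset (OnePoint F), A.card = n → (B : Set (OnePoint F)) = Cl H A →
      2 * n - 2 < B.card) :
    (∀ A : Finset (OnePoint F), A.card = n → (Cl H (A : Set (OnePoint F))).Infinite) ∧
    ∃ S : Finset (OnePoint F), (∀ x ∈ S, ∃ u ∈ UU F, x = (u : OnePoint F)) ∧
      ∀ v : F, v ∉ acl (∅ : Set F) → ∀ u ∈ UU F,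
        ((u * v : F) : OnePoint F) ∈ Cl H (insert (v : OnePoint F) (S : Set (OnePoint F))) := by
  classical
  have hk : IsAlgClosed (acl (∅ : Set F)) := isAlgClosed_acl _
  have hG := s.hG
  have hkne : acl (∅ : Set F) ≠ ⊤ := acl_ne_top_of_not_mem ht₀
  have hn4 := s.four
  have h0k : ∀ t : F, t ∉ acl (∅ : Set F) → t ≠ 0 := by
    rintro t ht rfl
    exact ht (zero_mem _)
  -- the sets `T_t`
  have haut : ∀ t t' : F, t ∉ acl (∅ : Set F) → t' ∉ acl (∅ : Set F) →
      ∃ φ : F ≃+* F, (∀ a ∈ acl (∅ : Set F), φ a = a) ∧ φ t = t' := fun t t' ht ht' =>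
    exists_aut_of_not_mem _ ht ht'
  have hZ : ∀ t : F, t ∉ acl (∅ : Set F) →
      ∃ Z : Finset (OnePoint F), (Z : Set (OnePoint F)) = TT E m t ∧ Z.card = n + 1 := by
    intro t ht
    obtain ⟨φ, hφ, hφt⟩ := haut t₀ t ht₀ ht
    have hfin : (TT E m t₀).Finite := Set.finite_of_ncard_ne_zero (by rw [hcard]; omega)
    refine ⟨hfin.toFinset.map (autP φ).toEmbedding, ?_, ?_⟩
    · rw [Finset.coe_map, Set.Finite.coe_toFinset]
      change autP φ '' TT E m t₀ = _
      rw [setupC_image_TT hE hm φ hφ, hφt]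
    · rw [Finset.card_map, ← Set.ncard_eq_toFinset_card _ hfin, hcard]
  have hnb' : ∀ t : F, t ∉ acl (∅ : Set F) →
      ¬ ∃ A : Finset (OnePoint F), A.card = n ∧ TT E m t ⊆ Cl H A := by
    rintro t ht ⟨A, hA, hAt⟩
    obtain ⟨φ, hφ, hφt⟩ := haut t t₀ ht ht₀
    refine hnb ⟨A.map (autP φ).toEmbedding, by rw [Finset.card_map, hA], ?_⟩
    rw [Finset.coe_map, ← hφt, ← setupC_image_TT hE hm φ hφ]
    change _ ⊆ cl H (SS F) (autP φ '' (A : Set (OnePoint F)))
    rw [← image_cl (hG (autP_mem_GG φ))]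
    exact Set.image_mono hAt
  have hCTT : ∀ t : F, TT E m t ⊆ Cl H (TT E m t) := fun t => subset_cl _
  -- (F5)
  have hF5 : ∀ t : F, t ∉ acl (∅ : Set F) → ∀ r : F, r ∉ acl (∅ : Set F) →
      (r : OnePoint F) ∈ Cl H (TT E m t) → Cl H (TT E m r) = Cl H (TT E m t) := by
    intro t ht r hr hrt
    obtain ⟨Z, hZt, hZc⟩ := hZ t ht
    obtain ⟨Z', hZ't, hZ'c⟩ := hZ r hr
    have hsub : TT E m r ⊆ Cl H (TT E m t) := by
      rintro x (hx | ⟨u, hu, rfl | rfl⟩)
      · exact hCTT t (Or.inl hx)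
      · exact hCTT t (Or.inr ⟨u, hu, Or.inl rfl⟩)
      · have h1 := setupC_stable (hG (mulP_mem_GG u)) (setupC_mulP_TT hE hm hu t) hrt
        have hu0 : u ≠ 0 := by
          rintro rfl
          have hm' : m ≠ 0 := by rintro rfl; exact hm Nat.cast_zero
          rw [zero_pow hm'] at hu
          exact zero_ne_one hu
        rw [mulP_coe hu0, mul_comm] at h1
        exact h1
    have hy : (r : OnePoint F) ∈ Z' := by
      rw [← Finset.mem_coe, hZ't]; exact setupC_t_mem E m r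
    have hins : insert (r : OnePoint F) ((Z'.erase (r : OnePoint F) : Finset (OnePoint F)) :
        Set (OnePoint F)) = TT E m r := by
      rw [← hZ't, ← Finset.coe_insert, Finset.insert_erase hy]
    have hSc : (Z'.erase (r : OnePoint F)).card = n := by
      rw [Finset.card_erase_of_mem hy, hZ'c]; rfl
    have hynot : (r : OnePoint F) ∉ Cl H ((Z'.erase (r : OnePoint F) : Finset (OnePoint F)) :
        Set (OnePoint F)) := by
      intro h1
      refine hnb' r hr ⟨_, hSc, ?_⟩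
      rw [← hins]
      exact Set.insert_subset h1 (subset_cl _)
    have h2 := s.abs.flat_eq Z (Z'.erase (r : OnePoint F)) hZc hSc hynot (by
      rw [hins, hZt]; exact hsub)
    rw [hins, hZt] at h2
    exact h2
  -- (F7)
  have hF7 : ∃ r : F, (r : OnePoint F) ∈ Cl H (TT E m t₀) ∧ r ∉ acl (∅ : Set F) ∧
      r / t₀ ∉ acl (∅ : Set F) := by
    by_contra hcon
    push Not at hcon
    obtain ⟨Z, hZt, hZc⟩ := hZ t₀ ht₀
    have h1Z : ((1 : F) : OnePoint F) ∈ Z := by
      rw [← Finset.mem_coe, hZt]; exact setupC_one_mem E m t₀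
    have htZ : (t₀ : OnePoint F) ∈ Z := by
      rw [← Finset.mem_coe, hZt]; exact setupC_t_mem E m t₀
    obtain ⟨w, hwZ, hw⟩ : ∃ w ∈ Z, w ∉ ({((1 : F) : OnePoint F), (t₀ : OnePoint F)} :
        Finset (OnePoint F)) := by
      apply Finset.exists_mem_notMem_of_card_lt_card
      have := Finset.card_le_two (a := ((1 : F) : OnePoint F)) (b := (t₀ : OnePoint F))
      omega
    simp only [Finset.mem_insert, Finset.mem_singleton, not_or] at hw
    have hSc : (Z.erase w).card = n := by rw [Finset.card_erase_of_mem hwZ, hZc]; rfl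
    have h1S : ((1 : F) : OnePoint F) ∈ Cl H ((Z.erase w : Finset (OnePoint F)) :
        Set (OnePoint F)) := subset_cl _ (Finset.mem_coe.2 (Finset.mem_erase.2 ⟨Ne.symm hw.1, h1Z⟩))
    have htS : (t₀ : OnePoint F) ∈ Cl H ((Z.erase w : Finset (OnePoint F)) :
        Set (OnePoint F)) := subset_cl _ (Finset.mem_coe.2 (Finset.mem_erase.2 ⟨Ne.symm hw.2, htZ⟩))
    have hSC : Cl H ((Z.erase w : Finset (OnePoint F)) : Set (OnePoint F)) ⊆
        Cl H (TT E m t₀) := by
      apply cl_mono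
      rw [← hZt]
      exact Finset.coe_subset.2 (Finset.erase_subset _ _)
    have hPk : PP (acl (∅ : Set F)) ∈ JJ H (SS F) := PP_mem_JJ H hG _ hkne
    have hPk' : mulP t₀ '' PP (acl (∅ : Set F)) ∈ JJ H (SS F) :=
      image_mem_JJ hPk (hG (mulP_mem_GG t₀))
    have htk : (t₀ : OnePoint F) ∉ PP (acl (∅ : Set F)) := by rwa [coe_mem_PP]
    have h1k : ((1 : F) : OnePoint F) ∉ mulP t₀ '' PP (acl (∅ : Set F)) := by
      rintro ⟨y, hy, hy1⟩
      induction y using OnePoint.rec with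
      | infty => rw [mulP_infty] at hy1; exact infty_ne_coe _ hy1
      | coe y =>
        rw [mulP_coe (h0k t₀ ht₀), coe_eq_coe] at hy1
        rw [coe_mem_PP] at hy
        apply ht₀
        rw [eq_inv_of_mul_eq_one_left hy1]
        exact inv_mem hy
    have hbd : ∀ Q ∈ JJ H (SS F), ∀ q ∈ Cl H ((Z.erase w : Finset (OnePoint F)) :
        Set (OnePoint F)), q ∉ Q → ∀ A : Finset (OnePoint F), (A : Set (OnePoint F)) ⊆
        Cl H ((Z.erase w : Finset (OnePoint F)) : Set (OnePoint F)) ∩ Q → A.card < n := by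
      intro Q hQ q hq hqQ A hA
      by_contra hlt
      obtain ⟨A', hA', hA'c⟩ := Finset.exists_subset_card_eq (not_lt.1 hlt)
      have hA'2 : (A' : Set (OnePoint F)) ⊆ A := Finset.coe_subset.2 hA'
      have h3 := s.abs.block_eq (Z.erase w) A' hSc hA'c (fun x hx => (hA (hA'2 hx)).1)
      have h4 : Cl H (A' : Set (OnePoint F)) ⊆ Q :=
        cl_subset_of_mem_JJ hQ (fun x hx => (hA (hA'2 hx)).2)
      exact hqQ (h4 (by rw [Cl, h3]; exact hq))
    obtain ⟨hf1, hc1⟩ := setupC_finite (hbd _ hPk _ htS htk)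
    obtain ⟨hf2, hc2⟩ := setupC_finite (hbd _ hPk' _ h1S h1k)
    have hcov : Cl H ((Z.erase w : Finset (OnePoint F)) : Set (OnePoint F)) =
        (Cl H ((Z.erase w : Finset (OnePoint F)) : Set (OnePoint F)) ∩ PP (acl (∅ : Set F))) ∪
        (Cl H ((Z.erase w : Finset (OnePoint F)) : Set (OnePoint F)) ∩
          mulP t₀ '' PP (acl (∅ : Set F))) := by
      apply Set.Subset.antisymm
      · intro x hx
        by_cases hxk : x ∈ PP (acl (∅ : Set F))
        · exact Or.inl ⟨hx, hxk⟩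
        · right
          refine ⟨hx, ?_⟩
          induction x using OnePoint.rec with
          | infty => exact absurd (infty_mem_PP _) hxk
          | coe x =>
            rw [coe_mem_PP] at hxk
            refine ⟨((x / t₀ : F) : OnePoint F), (coe_mem_PP _ _).2 (hcon x (hSC hx) hxk), ?_⟩
            rw [mulP_coe (h0k t₀ ht₀), mul_div_cancel₀ _ (h0k t₀ ht₀)]
      · exact Set.union_subset Set.inter_subset_left Set.inter_subset_left
    have hfin : (Cl H ((Z.erase w : Finset (OnePoint F)) : Set (OnePoint F))).Finite := by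
      rw [hcov]; exact hf1.union hf2
    have h5 := hbig (Z.erase w) hfin.toFinset hSc (by rw [Set.Finite.coe_toFinset])
    rw [← Set.ncard_eq_toFinset_card _ hfin, hcov] at h5
    have h6 := Set.ncard_union_le
      (Cl H ((Z.erase w : Finset (OnePoint F)) : Set (OnePoint F)) ∩ PP (acl (∅ : Set F)))
      (Cl H ((Z.erase w : Finset (OnePoint F)) : Set (OnePoint F)) ∩
          mulP t₀ '' PP (acl (∅ : Set F)))
    omega
  -- (F8)
  obtain ⟨c, hc, hcC⟩ : ∃ c : F, c ∉ acl (∅ : Set F) ∧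
      ∀ x ∈ Cl H (TT E m c), mulP c x ∈ Cl H (TT E m c) := by
    obtain ⟨r, hr, hrk, hrt⟩ := hF7
    have hr0 := h0k r hrk
    have ht0 := h0k t₀ ht₀
    have hCr := hF5 t₀ ht₀ r hrk hr
    have hst : ∀ x ∈ Cl H (TT E m t₀), mulP (r / t₀) x ∈ Cl H (TT E m t₀) := by
      intro x hx
      rw [setupC_inv_inv hr0 ht0]
      have h1 := setupC_stable (hG (mul_mem (mulP_mem_GG t₀) invP_mem_GG))
        (setupC_inv_TT hE hm ht0) hx
      rw [← hCr] at h1 ⊢
      exact setupC_stable (hG (mul_mem (mulP_mem_GG r) invP_mem_GG))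
        (setupC_inv_TT hE hm hr0) h1
    have h2 := hst _ (hCTT t₀ (setupC_one_mem E m t₀))
    rw [mulP_coe (div_ne_zero hr0 ht0), mul_one] at h2
    have h3 := hF5 t₀ ht₀ _ hrt h2
    refine ⟨r / t₀, hrt, ?_⟩
    rw [h3]
    exact hst
  -- (F9)
  have hF9 : ∀ v : F, v ∉ acl (∅ : Set F) → ∀ x ∈ Cl H (TT E m v),
      mulP v x ∈ Cl H (TT E m v) := by
    intro v hv x hx
    obtain ⟨φ, hφ, hφc⟩ := haut c v hc hv
    have hT := setupC_image_TT hE hm φ hφ c
    rw [hφc] at hT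
    rw [← hT, Cl, ← image_cl (hG (autP_mem_GG φ))] at hx ⊢
    obtain ⟨y, hy, rfl⟩ := hx
    refine ⟨mulP c y, hcC y hy, ?_⟩
    induction y using OnePoint.rec with
    | infty => rw [mulP_infty, autP_infty, mulP_infty]
    | coe y => rw [mulP_coe (h0k c hc), autP_coe, autP_coe, mulP_coe (h0k v hv), map_mul, hφc]
  -- (F10)
  have hpow : ∀ v : F, v ∉ acl (∅ : Set F) → ∀ i : ℕ,
      ((v ^ i : F) : OnePoint F) ∈ Cl H (TT E m v) := by
    intro v hv i
    induction i with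
    | zero => rw [pow_zero]; exact hCTT v (setupC_one_mem E m v)
    | succ i ih =>
      have h1 := hF9 v hv _ ih
      rwa [mulP_coe (h0k v hv), ← pow_succ'] at h1
  have hpowk : ∀ v : F, v ∉ acl (∅ : Set F) → ∀ i : ℕ, i ≠ 0 → v ^ i ∉ acl (∅ : Set F) := by
    intro v hv i hi hvi
    apply hv
    rw [mem_acl] at hvi ⊢
    exact hvi.of_pow (Nat.pos_of_ne_zero hi)
  have hCpow : ∀ v : F, v ∉ acl (∅ : Set F) → ∀ i : ℕ, i ≠ 0 →
      Cl H (TT E m (v ^ i)) = Cl H (TT E m v) := fun v hv i hi =>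
    hF5 v hv _ (hpowk v hv i hi) (hpow v hv i)
  -- (F11)
  have hUk : ∀ u ∈ UU F, u ∈ acl (∅ : Set F) := fun u hu => UU_subset_acl hu
  have hU0 : ∀ u ∈ UU F, u ≠ 0 := by
    rintro u ⟨e, he, hu⟩ rfl
    have he' : e ≠ 0 := by rintro rfl; exact he Nat.cast_zero
    rw [zero_pow he'] at hu
    exact zero_ne_one hu
  have huvk : ∀ v : F, v ∉ acl (∅ : Set F) → ∀ u ∈ UU F, u * v ∉ acl (∅ : Set F) := by
    intro v hv u hu h1
    apply hv
    have h2 := mul_mem (inv_mem (hUk u hu)) h1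
    rwa [inv_mul_cancel_left₀ (hU0 u hu)] at h2
  have hCuv : ∀ v : F, v ∉ acl (∅ : Set F) → ∀ u ∈ UU F,
      Cl H (TT E m (u * v)) = Cl H (TT E m v) := by
    intro v hv u hu
    obtain ⟨e, he, hue⟩ := id hu
    have he' : e ≠ 0 := by rintro rfl; exact he Nat.cast_zero
    rw [← hCpow v hv e he', ← hCpow (u * v) (huvk v hv u hu) e he', mul_pow, hue, one_mul]
  have huv : ∀ v : F, v ∉ acl (∅ : Set F) → ∀ u ∈ UU F,
      ((u * v : F) : OnePoint F) ∈ Cl H (TT E m v) := by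
    intro v hv u hu
    rw [← hCuv v hv u hu]
    exact hCTT _ (setupC_t_mem E m _)
  have hu : ∀ v : F, v ∉ acl (∅ : Set F) → ∀ u ∈ UU F,
      (u : OnePoint F) ∈ Cl H (TT E m v) := by
    intro v hv u hu
    have hv0 := h0k v hv
    have h1 := setupC_stable (hG (mul_mem (mulP_mem_GG v) invP_mem_GG))
        (setupC_inv_TT hE hm hv0) (hpow v hv 2)
    rw [Equiv.Perm.mul_apply, invP_coe (pow_ne_zero 2 hv0), mulP_coe hv0,
      show v * (v ^ 2)⁻¹ = v⁻¹ by field_simp] at h1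
    rw [← hCuv v hv u hu] at h1 ⊢
    have h2 := hF9 _ (huvk v hv u hu) _ h1
    rwa [mulP_coe (mul_ne_zero (hU0 u hu) hv0), mul_inv_cancel_right₀ hv0] at h2
  -- (F12)
  obtain ⟨S', hS', hS'c⟩ := Set.Infinite.exists_subset_card_eq (UU_infinite (F := F)) n
  let S : Finset (OnePoint F) := S'.map ⟨fun x : F => (x : OnePoint F), coe_injective⟩
  have hSc : S.card = n := by rw [Finset.card_map, hS'c]
  have hSU : ∀ x ∈ S, ∃ u ∈ UU F, x = (u : OnePoint F) := by
    intro x hx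
    obtain ⟨u, hu, rfl⟩ := Finset.mem_map.1 hx
    exact ⟨u, hS' hu, rfl⟩
  have hSk : (S : Set (OnePoint F)) ⊆ PP (acl (∅ : Set F)) := by
    intro x hx
    obtain ⟨u, hu, rfl⟩ := hSU x hx
    exact (coe_mem_PP _ _).2 (hUk u hu)
  have hvS : ∀ v : F, v ∉ acl (∅ : Set F) → (v : OnePoint F) ∉ Cl H (S : Set (OnePoint F)) := by
    intro v hv h1
    have h2 := Cl_subset_PP H hG (acl (∅ : Set F)) hkne hSk h1
    exact hv ((coe_mem_PP _ _).1 h2)
  have hSC : ∀ v : F, v ∉ acl (∅ : Set F) → (S : Set (OnePoint F)) ⊆ Cl H (TT E m v) := by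
    intro v hv x hx
    obtain ⟨u, hu', rfl⟩ := hSU x hx
    exact hu v hv u hu'
  refine ⟨?_, S, hSU, ?_⟩
  · intro A hA
    obtain ⟨h, hh, hS⟩ := s.abs.block_transitive S A hSc hA
    change (cl H (SS F) (A : Set (OnePoint F))).Infinite
    rw [← hS]
    refine Set.Infinite.image h.injective.injOn ?_
    refine Set.Infinite.mono ?_ ((UU_infinite (F := F)).image
      (f := fun x : F => (x : OnePoint F)) coe_injective.injOn)
    rintro _ ⟨u, hu', rfl⟩
    by_contra hcon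
    obtain ⟨Z, hZt, hZc⟩ := hZ t₀ ht₀
    have h2 := s.abs.flat_eq Z S hZc hSc hcon (by
      rw [hZt]
      exact Set.insert_subset (hu t₀ ht₀ u hu') (hSC t₀ ht₀))
    rw [hZt] at h2
    have h3 : (t₀ : OnePoint F) ∈ Cl H (TT E m t₀) := hCTT _ (setupC_t_mem E m _)
    rw [Cl, ← h2] at h3
    have h4 := Cl_subset_PP H hG (acl (∅ : Set F)) hkne
      (Set.insert_subset ((coe_mem_PP _ _).2 (hUk u hu')) hSk) h3
    exact ht₀ ((coe_mem_PP _ _).1 h4)
  · intro v hv u hu'
    obtain ⟨Z, hZt, hZc⟩ := hZ v hv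
    have h2 := s.abs.flat_eq Z S hZc hSc (hvS v hv) (by
      rw [hZt]
      exact Set.insert_subset (hCTT _ (setupC_t_mem E m _)) (hSC v hv))
    rw [hZt] at h2
    rw [Cl, h2]
    exact huv v hv u hu'

end Pool.Agent.MPa267
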