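import Pool.Agent.Lib.MP_a267a3_lc.SetupA
import Pool.Agent.Lib.MP_a267a3_lc.SetupB
import Pool.Agent.Lib.MP_a267a3_lc.SetupC

/-!
# MP_a267a3_lc: section 5
-/

set_option autoImplicit false

namespace Pool.Agent.MPa267

open OnePoint

variable {F : Type*} [Field F]

private lemma config_EE_finset : ∃ E : Finset (OnePoint F), (E : Set (OnePoint F)) = EE F ∧
    E.card ≤ 2 := by
  classical
  refine ⟨{((0 : F) : OnePoint F), ∞}, ?_, Finset.card_le_two⟩
  simp [EE]

private lemma config_odd [IsAlgClosed F] {H : Subgroup (Equiv.Perm (OnePoint F))} {n : ℕ}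
    (s : Setup H n) (hodd : Odd n) {t₀ u₀ : F} (ht₀ : t₀ ∉ acl (∅ : Set F))
    (hu₀ : u₀ ∉ acl {t₀}) (E : Set (OnePoint F)) (hE : E = ∅ ∨ E = EE F) (m : ℕ)
    (hm : (m : F) ≠ 0) (T : Finset (OnePoint F)) (hT : (T : Set (OnePoint F)) = TT E m t₀)
    (hc : T.card = n + 1) :
    (∀ A : Finset (OnePoint F), A.card = n → (Cl H (A : Set (OnePoint F))).Infinite) ∧
    ∃ S : Finset (OnePoint F), (∀ x ∈ S, ∃ u ∈ UU F, x = (u : OnePoint F)) ∧
      ∀ v : F, v ∉ acl (∅ : Set F) → ∀ u ∈ UU F,
        ((u * v : F) : OnePoint F) ∈ Cl H (insert (v : OnePoint F) (S : Set (OnePoint F))) := by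
  classical
  have hn4 := s.four
  have hn5 : 5 ≤ n := by
    obtain ⟨q, hq⟩ := hodd
    omega
  have hfb : ∀ A B : Finset (OnePoint F), A.card = n → (B : Set (OnePoint F)) = Cl H A →
      2 * n - 2 < B.card := fun A B hA hB => finite_block s hodd A B hA hB
  have hncard : (TT E m t₀).ncard = n + 1 := by
    rw [← hT, Set.ncard_coe_finset, hc]
  by_cases hbl : ∃ A : Finset (OnePoint F), A.card = n ∧ TT E m t₀ ⊆ Cl H A
  · exfalso
    refine config_block s ht₀ E hE m hm (by omega) hbl ?_
    obtain ⟨A, hA, hTA⟩ := hbl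
    by_contra hcon
    push Not at hcon
    obtain ⟨E', hE', hE'c⟩ := config_EE_finset (F := F)
    -- the closure of `T` is the block
    obtain ⟨T', hT'T, hT'c⟩ := Finset.exists_subset_card_eq (s := T) (n := n) (by omega)
    have hT'TT : (T' : Set (OnePoint F)) ⊆ TT E m t₀ := by
      rw [← hT]; exact_mod_cast hT'T
    have h1 : Cl H (T' : Set (OnePoint F)) = Cl H (A : Set (OnePoint F)) :=
      s.abs.block_eq A T' hA hT'c (hT'TT.trans hTA)
    have h2 : Cl H (A : Set (OnePoint F)) ⊆ Cl H (TT E m t₀) := by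
      rw [← h1]; exact cl_mono hT'TT
    have h3 : Cl H (A : Set (OnePoint F)) ⊆ ((T ∪ E' : Finset (OnePoint F)) : Set (OnePoint F)) := by
      intro x hx
      rw [Finset.coe_union, hT, hE']
      by_cases hxT : x ∈ TT E m t₀
      · exact Or.inl hxT
      · exact Or.inr (hcon x (h2 hx) hxT)
    have hfin : (Cl H (A : Set (OnePoint F))).Finite := (Finset.finite_toSet _).subset h3
    have h4 := hfb A hfin.toFinset hA (by simp)
    have h5 : hfin.toFinset ⊆ T ∪ E' := by
      intro x hx
      have := h3 (hfin.mem_toFinset.1 hx)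
      exact_mod_cast this
    have h6 := Finset.card_le_card h5
    have h7 := Finset.card_union_le T E'
    omega
  · exact config_flat s ht₀ hu₀ E hE m hm hncard hbl hfb

/-- `T_t` is stable under `x ↦ t / x` -/
private lemma config_image {m : ℕ} {t : F} (ht : t ≠ 0) (hm : m ≠ 0) :
    ((mulP t * invP : Equiv.Perm (OnePoint F)) : OnePoint F → OnePoint F) '' (TT ∅ m t) ⊆
      TT ∅ m t := by
  rintro _ ⟨x, hx, rfl⟩
  simp only [TT, Set.empty_union, Set.mem_ofPred_eq] at hx ⊢
  obtain ⟨u, hu, hx⟩ := hx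
  have hu0 : u ≠ 0 := by
    rintro rfl
    rw [zero_pow hm] at hu
    exact zero_ne_one hu
  refine ⟨u⁻¹, by rw [inv_pow, hu, inv_one], ?_⟩
  rcases hx with rfl | rfl
  · right
    rw [Equiv.Perm.mul_apply, invP_coe hu0, mulP_coe ht]
  · left
    rw [Equiv.Perm.mul_apply, invP_coe (mul_ne_zero ht hu0), mulP_coe ht, mul_inv,
      mul_inv_cancel_left₀ ht]

private lemma config_even [IsAlgClosed F] {H : Subgroup (Equiv.Perm (OnePoint F))} {n : ℕ}
    (s : Setup H n) (heven : Even n) {t₀ : F} (ht₀ : t₀ ∉ acl (∅ : Set F)) : False := by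
  classical
  have hn4 := s.four
  obtain ⟨q, hq⟩ := heven
  have hq2 : 2 ≤ q := by omega
  by_cases hm : ((q - 1 : ℕ) : F) = 0
  · -- `E = ∅`, `m = q`
    have hq1 : (q : F) = 1 := by
      have : ((q - 1 : ℕ) : F) = (q : F) - 1 := by
        rw [Nat.cast_sub (by omega)]; simp
      rw [this] at hm
      exact sub_eq_zero.1 hm
    have hqF : (q : F) ≠ 0 := by rw [hq1]; exact one_ne_zero
    obtain ⟨⟨T, hT, hTc⟩, -⟩ := TT_card (F := F) hqF ht₀
    have hTn : T.card = n := by omega
    refine config_block s ht₀ ∅ (Or.inl rfl) q hqF ?_ ⟨T, hTn, ?_⟩ ?_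
    · rw [← hT, Set.ncard_coe_finset]; omega
    · rw [← hT]; exact subset_cl _
    · by_contra hcon
      push Not at hcon
      rw [← hT] at hcon
      obtain ⟨E', hE', hE'c⟩ := config_EE_finset (F := F)
      have hsub : Cl H (T : Set (OnePoint F)) ⊆ ((T ∪ E' : Finset (OnePoint F)) : Set _) := by
        intro x hx
        rw [Finset.coe_union, hE']
        by_cases hxT : x ∈ (T : Set (OnePoint F))
        · exact Or.inl hxT
        · exact Or.inr (hcon x hx hxT)
      have ht0 : t₀ ≠ 0 := fun h => ht₀ (by rw [h]; exact (acl ∅).zero_mem)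
      have hσH : mulP t₀ * invP ∈ H := H.mul_mem (s.hG (mulP_mem_GG _)) (s.hG invP_mem_GG)
      have hstab : ∀ x ∈ Cl H (T : Set (OnePoint F)),
          (mulP t₀ * invP : Equiv.Perm (OnePoint F)) x ∈ Cl H (T : Set (OnePoint F)) := by
        intro x hx
        have h1 : (mulP t₀ * invP : Equiv.Perm (OnePoint F)) x ∈
            (mulP t₀ * invP : Equiv.Perm (OnePoint F)) '' Cl H (T : Set (OnePoint F)) :=
          ⟨x, hx, rfl⟩
        rw [image_cl hσH] at h1
        refine cl_mono ?_ h1
        rw [hT]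
        exact config_image ht0 (by omega)
      have h0 : (mulP t₀ * invP : Equiv.Perm (OnePoint F)) ((0 : F) : OnePoint F) = ∞ := by
        rw [Equiv.Perm.mul_apply, invP_zero, mulP_infty]
      have hi : (mulP t₀ * invP : Equiv.Perm (OnePoint F)) ∞ = ((0 : F) : OnePoint F) := by
        rw [Equiv.Perm.mul_apply, invP_infty, mulP_coe ht0, mul_zero]
      -- both `0` and `∞` are in the block
      obtain ⟨x, hx, hxT⟩ : ∃ x ∈ Cl H (T : Set (OnePoint F)), x ∉ (T : Set (OnePoint F)) := by
        by_contra h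
        push Not at h
        exact s.abs.cl_ne_of_card_eq T hTn (Set.Subset.antisymm h (subset_cl _))
      have hxE : x = ((0 : F) : OnePoint F) ∨ x = ∞ := by
        have := hcon x hx hxT
        simpa [EE] using this
      have hboth : ((0 : F) : OnePoint F) ∈ Cl H (T : Set (OnePoint F)) ∧
          ∞ ∈ Cl H (T : Set (OnePoint F)) := by
        rcases hxE with rfl | rfl
        · exact ⟨hx, by rw [← h0]; exact hstab _ hx⟩
        · exact ⟨by rw [← hi]; exact hstab _ hx, hx⟩
      have hnotT : ∀ y ∈ EE F, y ∉ T := by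
        intro y hy hyT
        have hyT' : y ∈ TT (∅ : Set (OnePoint F)) q t₀ := by rw [← hT]; exact_mod_cast hyT
        simp only [TT, Set.empty_union, Set.mem_ofPred_eq] at hyT'
        obtain ⟨u, hu, hyu⟩ := hyT'
        have hu0 : u ≠ 0 := by
          rintro rfl
          rw [zero_pow (by omega)] at hu
          exact zero_ne_one hu
        have hy' : y = ((0 : F) : OnePoint F) ∨ y = ∞ := by simpa [EE] using hy
        rcases hyu with h | h <;> rcases hy' with h' | h'
        · rw [h'] at h; exact hu0 (coe_eq_coe.1 h).symm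
        · rw [h'] at h; exact coe_ne_infty u h.symm
        · rw [h'] at h; exact mul_ne_zero ht0 hu0 (coe_eq_coe.1 h).symm
        · rw [h'] at h; exact coe_ne_infty _ h.symm
      have hne : ((0 : F) : OnePoint F) ≠ ∞ := coe_ne_infty _
      set B : Finset (OnePoint F) := T ∪ {((0 : F) : OnePoint F), ∞} with hB
      have hBcl : (B : Set (OnePoint F)) = Cl H (T : Set (OnePoint F)) := by
        apply Set.Subset.antisymm
        · intro y hy
          have hy' : y ∈ B := hy
          rw [hB, Finset.mem_union, Finset.mem_insert, Finset.mem_singleton] at hy'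
          rcases hy' with h | rfl | rfl
          · exact subset_cl _ h
          · exact hboth.1
          · exact hboth.2
        · intro y hy
          have hy' : y ∈ B := by
            rw [hB, Finset.mem_union, Finset.mem_insert, Finset.mem_singleton]
            by_cases hyT : y ∈ (T : Set (OnePoint F))
            · exact Or.inl hyT
            · have := hcon y hy hyT
              right
              simpa [EE] using this
          exact hy'
      have hBc : B.card = n + 2 := by
        rw [hB, Finset.card_union_of_disjoint, Finset.card_pair hne, hTn]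
        rw [Finset.disjoint_left]
        intro y hy hy'
        refine hnotT y ?_ hy
        rw [Finset.mem_insert, Finset.mem_singleton] at hy'
        simpa [EE] using hy'
      -- divisibility
      have hn1 : ((n - 1 : ℕ) : F) ≠ 0 := by
        have h1 : ((n - 1 : ℕ) : F) = 1 := by
          have h2 : n - 1 = 2 * (q - 1) + 1 := by omega
          rw [h2]; push_cast; rw [hm]; ring
        rw [h1]; exact one_ne_zero
      obtain ⟨B', hB'c, hB'E, -, hB'd⟩ := dvd_block s {∞} (by simp [EE]) (n - 1) hn1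
        (by rw [Finset.card_singleton]; omega) T hTn B hBcl
      have hB'inf : (∞ : OnePoint F) ∈ B' := by
        have := hB'E (by simp : (∞ : OnePoint F) ∈ (({∞} : Finset (OnePoint F)) : Set _))
        exact_mod_cast this
      have hd := hB'd _ rfl
      have hj1 : ((B' : Set (OnePoint F)) ∩ EE F).ncard ≤ 2 := by
        rw [← hE']
        calc ((B' : Set (OnePoint F)) ∩ (E' : Set (OnePoint F))).ncard
            ≤ (E' : Set (OnePoint F)).ncard :=
              Set.ncard_le_ncard Set.inter_subset_right (Finset.finite_toSet _)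
          _ = E'.card := Set.ncard_coe_finset _
          _ ≤ 2 := hE'c
      have hj2 : 1 ≤ ((B' : Set (OnePoint F)) ∩ EE F).ncard := by
        exact (Set.ncard_pos ((Finset.finite_toSet _).subset Set.inter_subset_left)).2
          ⟨∞, hB'inf, by simp [EE]⟩
      rw [hB'c, hBc] at hd
      set j := ((B' : Set (OnePoint F)) ∩ EE F).ncard with hj
      obtain ⟨c, hc⟩ := hd
      have hc1 : 1 < c ∨ c ≤ 1 := lt_or_ge _ _
      rcases hc1 with hc1 | hc1
      · have : (n - 1) * 2 ≤ (n - 1) * c := Nat.mul_le_mul_left _ hc1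
        omega
      · have : (n - 1) * c ≤ (n - 1) * 1 := Nat.mul_le_mul_left _ hc1
        omega
  · -- `E = {0, ∞}`, `m = q - 1`
    obtain ⟨-, T, hT, hTc⟩ := TT_card (F := F) hm ht₀
    have hTn : T.card = n := by omega
    refine config_block s ht₀ (EE F) (Or.inr rfl) (q - 1) hm ?_ ⟨T, hTn, ?_⟩ ?_
    · rw [← hT, Set.ncard_coe_finset]; omega
    · rw [← hT]; exact subset_cl _
    · by_contra hcon
      push Not at hcon
      rw [← hT] at hcon
      apply s.abs.cl_ne_of_card_eq T hTn
      apply Set.Subset.antisymm _ (subset_cl _)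
      intro x hx
      by_contra hxT
      apply hxT
      rw [hT]
      exact Or.inl (hcon x hx hxT)

/-- (section 5) -/
theorem config [IsAlgClosed F] {H : Subgroup (Equiv.Perm (OnePoint F))} {n : ℕ}
    (s : Setup H n) {t₀ u₀ : F} (ht₀ : t₀ ∉ acl (∅ : Set F)) (hu₀ : u₀ ∉ acl {t₀}) :
    (∀ A : Finset (OnePoint F), A.card = n → (Cl H (A : Set (OnePoint F))).Infinite) ∧
    ∃ S : Finset (OnePoint F), (∀ x ∈ S, ∃ u ∈ UU F, x = (u : OnePoint F)) ∧
      ∀ v : F, v ∉ acl (∅ : Set F) → ∀ u ∈ UU F,
        ((u * v : F) : OnePoint F) ∈ Cl H (insert (v : OnePoint F) (S : Set (OnePoint F))) := by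
  rcases Nat.even_or_odd n with heven | hodd
  · exact (config_even s heven ht₀).elim
  · obtain ⟨q, hq⟩ := id hodd
    by_cases hm : (q : F) = 0
    · have hm' : ((q + 1 : ℕ) : F) ≠ 0 := by
        push_cast; rw [hm, zero_add]; exact one_ne_zero
      obtain ⟨⟨T, hT, hTc⟩, -⟩ := TT_card (F := F) hm' ht₀
      exact config_odd s hodd ht₀ hu₀ ∅ (Or.inl rfl) (q + 1) hm' T hT (by omega)
    · obtain ⟨-, T, hT, hTc⟩ := TT_card (F := F) hm ht₀
      exact config_odd s hodd ht₀ hu₀ (EE F) (Or.inr rfl) q hm T hT (by omega)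

end Pool.Agent.MPa267
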