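import Mathlib

/-!
# MP_a267a3_lc: definitions

`X = OnePoint F` is the projective line over the field `F`.
-/

set_option autoImplicit false

namespace Pool.Agent.MPa267

open OnePoint

/-! ## Permutation groups -/

section Perm

variable {X : Type*}

/-- `H` is closed in `Sym(X)` (pointwise convergence topology). -/
def IsClosedP (H : Subgroup (Equiv.Perm X)) : Prop :=
  ∀ σ : Equiv.Perm X, (∀ A : Finset X, ∃ h ∈ H, ∀ x ∈ A, h x = σ x) → σ ∈ H

/-- `H` is `n`-transitive (on ordered tuples of at most `n` distinct points). -/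
def MT (H : Subgroup (Equiv.Perm X)) (n : ℕ) : Prop :=
  ∀ (A : Finset X) (f : X → X), A.card ≤ n → Set.InjOn f (A : Set X) →
    ∃ h ∈ H, ∀ a ∈ A, h a = f a

/-- `S` is a Jordan complement: the pointwise stabiliser of `S` in `H` is transitive on
the complement of `S`. -/
def Jor (H : Subgroup (Equiv.Perm X)) (S : Set X) : Prop :=
  ∀ x, x ∉ S → ∀ y, y ∉ S → ∃ h ∈ H, (∀ s ∈ S, h s = s) ∧ h x = y

/-- `S` is small: contained in an `H`-translate of a member of `𝒮`. -/
def Small (H : Subgroup (Equiv.Perm X)) (𝒮 : Set (Set X)) (S : Set X) : Prop :=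
  ∃ h ∈ H, ∃ P ∈ 𝒮, ∀ s ∈ S, h s ∈ P

/-- small Jordan complements -/
def JJ (H : Subgroup (Equiv.Perm X)) (𝒮 : Set (Set X)) : Set (Set X) :=
  {S | Small H 𝒮 S ∧ Jor H S}

/-- the closure: intersection of all small Jordan complements containing `A`
(everything if there is none) -/
def cl (H : Subgroup (Equiv.Perm X)) (𝒮 : Set (Set X)) (A : Set X) : Set X :=
  {x | ∀ S ∈ JJ H 𝒮, A ⊆ S → x ∈ S}

end Perm

/-! ## The projective line -/

section Line

variable {F : Type*} [Field F]

/-- `P¹(K)` inside `P¹(F)`. -/
def PP (K : Subfield F) : Set (OnePoint F) := {x | x = ∞ ∨ ∃ a ∈ K, x = ((a : F) : OnePoint F)}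

open Classical in
/-- multiplication by `a` (identity if `a = 0`) -/
noncomputable def mulP (a : F) : Equiv.Perm (OnePoint F) :=
  if h : a = 0 then 1 else Equiv.optionCongr (Equiv.mulLeft₀ a h)

/-- translation `x ↦ b + x` -/
def addP (b : F) : Equiv.Perm (OnePoint F) := Equiv.optionCongr (Equiv.addLeft b)

/-- the permutation of the projective line induced by a field automorphism -/
def autP (φ : F ≃+* F) : Equiv.Perm (OnePoint F) := Equiv.optionCongr φ.toEquiv

open Classical in
/-- Moebius transformations -/
noncomputable def mob (g : GL (Fin 2) F) : Equiv.Perm (OnePoint F) := MulAction.toPerm g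

/-- the inversion `x ↦ 1/x` -/
noncomputable def invP : Equiv.Perm (OnePoint F) :=
  mob (Matrix.GeneralLinearGroup.mkOfDetNeZero !![(0 : F), 1; 1, 0]
    (by simp [Matrix.det_fin_two]))

/-- the entries of `g` lie in `K` -/
def GLK (K : Subfield F) (g : GL (Fin 2) F) : Prop := ∀ i j, g i j ∈ K

/-- relative algebraic closure of the subfield generated by `s` -/
noncomputable def acl (s : Set F) : Subfield F :=
  (algebraicClosure (Subfield.closure s) F).toSubfield

/-- roots of unity of order prime to the characteristic -/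
def UU (F : Type*) [Field F] : Set F := {u | ∃ e : ℕ, (e : F) ≠ 0 ∧ u ^ e = 1}

end Line

end Pool.Agent.MPa267
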