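import Pool.Agent.Lib.MP_a267a3_lc.Setup
import Pool.Agent.Lib.MP_a267a3_lc.AlgD

/-!
# MP_a267a3_lc: the commuting permutation f
-/

set_option autoImplicit false

namespace Pool.Agent.MPa267

open OnePoint

variable {F : Type*} [Field F]

private lemma endB_exists_second [IsAlgClosed F] {H : Subgroup (Equiv.Perm (OnePoint F))} {n : ℕ}
    (s : Setup H n) (hinf : ∀ A : Finset (OnePoint F), A.card = n →
      (Cl H (A : Set (OnePoint F))).Infinite) {C1 C2 : Set (OnePoint F)}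
    (hC1 : C1 ∈ JJ H (SS F)) (hC2 : C2 ∈ JJ H (SS F)) (x₀ : F) :
    ∃ x : OnePoint F, x ∉ C1 ∧ x ∉ C2 ∧ x ≠ (x₀ : OnePoint F) := by
  classical
  by_contra hcon
  push Not at hcon
  have hFinf : Infinite F := IsAlgClosed.instInfinite (K := F)
  obtain ⟨a, ha⟩ := Infinite.exists_notMem_finset ({0, 1} : Finset F)
  simp only [Finset.mem_insert, Finset.mem_singleton, not_or] at ha
  obtain ⟨ha0, ha1⟩ := ha
  have hmem : addP x₀ * mulP a * (addP x₀)⁻¹ ∈ H :=
    H.mul_mem (H.mul_mem (s.hG (addP_mem_GG _)) (s.hG (mulP_mem_GG _)))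
      (H.inv_mem (s.hG (addP_mem_GG _)))
  have hinv : ∀ z : F, (addP x₀)⁻¹ ((x₀ + z : F) : OnePoint F) = (z : OnePoint F) := by
    intro z
    rw [Equiv.Perm.inv_eq_iff_eq, addP_coe]
  have hval : ∀ z : F, (addP x₀ * mulP a * (addP x₀)⁻¹ : Equiv.Perm (OnePoint F))
      ((x₀ + z : F) : OnePoint F) = ((x₀ + a * z : F) : OnePoint F) := by
    intro z
    rw [Equiv.Perm.mul_apply, Equiv.Perm.mul_apply, hinv, mulP_coe ha0, addP_coe]
  have h1 : addP x₀ * mulP a * (addP x₀)⁻¹ = (1 : Equiv.Perm (OnePoint F)) := by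
    refine s.abs.strong_support hinf hC1 hC2 hmem ?_
    intro x hx1 hx2
    have hx := hcon x hx1 hx2
    subst hx
    have := hval 0
    simpa using this
  have h2 := hval 1
  rw [h1] at h2
  simp only [Equiv.Perm.coe_one, id_eq, mul_one] at h2
  have h3 : x₀ + 1 = x₀ + a := coe_eq_coe.1 h2
  exact ha1 (add_left_cancel h3).symm

/-- the commuting permutation `f` is Moebius up to Frobenius (section 8) -/
theorem eq_of_commuting [IsAlgClosed F] (p : ℕ) [ExpChar F p]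
    {H : Subgroup (Equiv.Perm (OnePoint F))} {n : ℕ}
    (s : Setup H n) (hinf : ∀ A : Finset (OnePoint F), A.card = n →
      (Cl H (A : Set (OnePoint F))).Infinite)
    (K : Subfield F) [IsAlgClosed K] (hK : K ≠ ⊤) {C2 : Set (OnePoint F)} (hC2 : C2 ∈ JJ H (SS F))
    {f : Equiv.Perm (OnePoint F)} (hf : f ∈ H) (hfinf : f ∞ = ∞)
    (hfC : ∀ x, f x ∈ C2 ↔ x ∈ C2)
    (hcomm : ∀ φ : F ≃+* F, (∀ a ∈ K, φ a = a) → ∀ x, x ∉ C2 → autP φ x ∉ C2 →
      f (autP φ x) = autP φ (f x) ∧ f⁻¹ (autP φ x) = autP φ (f⁻¹ x)) :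
    ∃ (g : GL (Fin 2) F) (i j : ℕ), ∀ x : F, ∀ w : F, f (x : OnePoint F) = (w : OnePoint F) →
      ((w ^ p ^ i : F) : OnePoint F) = mob g ((x ^ p ^ j : F) : OnePoint F) := by
  have hC1 : PP K ∈ JJ H (SS F) := PP_mem_JJ H s.hG K hK
  obtain ⟨x, hx1, hx2⟩ := s.abs.exists_not_mem_two hC1 hC2
  obtain ⟨x₀, rfl⟩ : ∃ x₀ : F, x = (x₀ : OnePoint F) := by
    induction x using OnePoint.rec with
    | infty => exact absurd (infty_mem_PP K) hx1
    | coe x => exact ⟨x, rfl⟩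
  have hx0K : x₀ ∉ K := fun h => hx1 ((coe_mem_PP K x₀).2 h)
  have hyinf : f (x₀ : OnePoint F) ≠ ∞ := by
    intro h
    rw [← hfinf] at h
    exact coe_ne_infty x₀ (f.injective h)
  obtain ⟨y₀, hy₀⟩ : ∃ y₀ : F, f (x₀ : OnePoint F) = (y₀ : OnePoint F) := by
    induction hq : f (x₀ : OnePoint F) using OnePoint.rec with
    | infty => exact absurd hq hyinf
    | coe y => exact ⟨y, rfl⟩
  have hy2 : (y₀ : OnePoint F) ∉ C2 := by
    rw [← hy₀]
    exact fun h => hx2 ((hfC _).1 h)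
  have hφP : ∀ φ : F ≃+* F, (∀ a ∈ K, φ a = a) → ∀ y ∈ PP K, autP φ y = y := by
    intro φ hφ y hy
    rcases hy with rfl | ⟨a, ha, rfl⟩
    · rfl
    · rw [autP_coe, hφ a ha]
  have hy0K : y₀ ∉ K := by
    intro hyK
    obtain ⟨x', hx'1, hx'2, hne⟩ := endB_exists_second s hinf hC1 hC2 x₀
    obtain ⟨x₂, rfl⟩ : ∃ x₂ : F, x' = (x₂ : OnePoint F) := by
      induction x' using OnePoint.rec with
      | infty => exact absurd (infty_mem_PP K) hx'1
      | coe x => exact ⟨x, rfl⟩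
    have hx2K : x₂ ∉ K := fun h => hx'1 ((coe_mem_PP K x₂).2 h)
    obtain ⟨φ, hφ, hφx⟩ := exists_aut_of_not_mem K hx0K hx2K
    have h1 := (hcomm φ hφ (x₀ : OnePoint F) hx2 (by rw [autP_coe, hφx]; exact hx'2)).1
    rw [autP_coe, hφx, hy₀, autP_coe, hφ y₀ hyK, ← hy₀] at h1
    exact hne (f.injective h1)
  have hstab : ∀ φ : F ≃+* F, (∀ a ∈ K, φ a = a) → (φ x₀ = x₀ ↔ φ y₀ = y₀) := by
    intro φ hφ
    constructor
    · intro h
      have h1 := (hcomm φ hφ (x₀ : OnePoint F) hx2 (by rw [autP_coe, h]; exact hx2)).1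
      rw [autP_coe, h, hy₀, autP_coe] at h1
      exact (coe_eq_coe.1 h1).symm
    · intro h
      have h1 := (hcomm φ hφ (y₀ : OnePoint F) hy2 (by rw [autP_coe, h]; exact hy2)).2
      have h2 : f⁻¹ (y₀ : OnePoint F) = (x₀ : OnePoint F) := by
        rw [Equiv.Perm.inv_eq_iff_eq, hy₀]
      rw [autP_coe, h, h2, autP_coe] at h1
      exact (coe_eq_coe.1 h1).symm
  obtain ⟨g, i, j, hgK, hg⟩ := moebius_of_same_stabiliser p K hx0K hy0K hstab
  refine ⟨g, i, j, ?_⟩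
  -- Frobenius powers
  have hfrob : ∀ (m : ℕ) (z : F), iterateFrobeniusEquiv F p m z = z ^ p ^ m := fun m z =>
    iterateFrobeniusEquiv_def F p m z
  have hfcomm : ∀ (m : ℕ) (φ : F ≃+* F), autP φ * autP (iterateFrobeniusEquiv F p m) =
      autP (iterateFrobeniusEquiv F p m) * autP φ := by
    intro m φ
    ext z : 1
    induction z using OnePoint.rec with
    | infty => rfl
    | coe z =>
      rw [Equiv.Perm.mul_apply, Equiv.Perm.mul_apply, autP_coe, autP_coe, autP_coe, autP_coe,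
        hfrob, hfrob, map_pow]
  set Φi : Equiv.Perm (OnePoint F) := autP (iterateFrobeniusEquiv F p i) with hΦi
  set Φj : Equiv.Perm (OnePoint F) := autP (iterateFrobeniusEquiv F p j) with hΦj
  have hθH : Φi⁻¹ * mob g * Φj ∈ H :=
    H.mul_mem (H.mul_mem (H.inv_mem (s.hG (autP_mem_GG _))) (s.hG (mob_mem_GG _)))
      (s.hG (autP_mem_GG _))
  have hθx : (Φi⁻¹ * mob g * Φj : Equiv.Perm (OnePoint F)) (x₀ : OnePoint F) =
      (y₀ : OnePoint F) := by
    rw [Equiv.Perm.mul_apply, Equiv.Perm.mul_apply, Equiv.Perm.inv_eq_iff_eq, hΦi, hΦj,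
      autP_coe, autP_coe, hfrob, hfrob]
    exact hg.symm
  have hθcomm : ∀ φ : F ≃+* F, (∀ a ∈ K, φ a = a) → autP φ * (Φi⁻¹ * mob g * Φj) =
      (Φi⁻¹ * mob g * Φj) * autP φ := by
    intro φ hφ
    have h1 : Commute (autP φ) Φi := hfcomm i φ
    have h2 : Commute (autP φ) Φj := hfcomm j φ
    have h3 : Commute (autP φ) (mob g) := autP_mob_comm hgK hφ
    exact ((h1.inv_right.mul_right h3).mul_right h2).eq
  have hone : (Φi⁻¹ * mob g * Φj)⁻¹ * f = 1 := by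
    refine s.abs.strong_support hinf hC1 hC2 (H.mul_mem (H.inv_mem hθH) hf) ?_
    intro x hx1' hx2'
    obtain ⟨x₂, rfl⟩ : ∃ x₂ : F, x = (x₂ : OnePoint F) := by
      induction x using OnePoint.rec with
      | infty => exact absurd (infty_mem_PP K) hx1'
      | coe x => exact ⟨x, rfl⟩
    have hx2K : x₂ ∉ K := fun h => hx1' ((coe_mem_PP K x₂).2 h)
    obtain ⟨φ, hφ, hφx⟩ := exists_aut_of_not_mem K hx0K hx2K
    have h1 := (hcomm φ hφ (x₀ : OnePoint F) hx2 (by rw [autP_coe, hφx]; exact hx2')).1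
    rw [Equiv.Perm.mul_apply, Equiv.Perm.inv_eq_iff_eq]
    rw [hy₀, ← hθx, ← Equiv.Perm.mul_apply (autP φ), hθcomm φ hφ, Equiv.Perm.mul_apply,
      autP_coe, hφx] at h1
    exact h1
  have hfθ : f = Φi⁻¹ * mob g * Φj := by
    rw [inv_mul_eq_one] at hone
    exact hone.symm
  intro x' w' hw
  rw [hfθ, Equiv.Perm.mul_apply, Equiv.Perm.mul_apply, Equiv.Perm.inv_eq_iff_eq, hΦi, hΦj,
      autP_coe, autP_coe, hfrob, hfrob] at hw
  exact hw.symm

end Pool.Agent.MPa267
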