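import Pool.Agent.Lib.MP_a267a3_lc.AlgA

/-!
# MP_a267a3_lc: powers of f
-/

set_option autoImplicit false

namespace Pool.Agent.MPa267

open OnePoint

variable {F : Type*} [Field F]

private lemma iterate_rel (φ : F → F) (b : F) (P Q : ℕ)
    (h : ∀ x : F, φ x ^ P = b ^ P * x ^ Q) :
    ∀ m : ℕ, ∃ B : F, ∀ x : F, (φ^[m] x) ^ (P ^ m) = B * x ^ (Q ^ m) := by
  intro m
  induction m with
  | zero => exact ⟨1, fun x => by simp⟩
  | succ m ih =>
    obtain ⟨B, hB⟩ := ih
    refine ⟨b ^ (P ^ (m + 1)) * B ^ Q, fun x => ?_⟩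
    rw [Function.iterate_succ_apply']
    have e1 : (φ (φ^[m] x)) ^ P ^ (m + 1) = ((φ (φ^[m] x)) ^ P) ^ P ^ m := by
      rw [← pow_mul, ← pow_succ']
    have e2 : (b ^ P * (φ^[m] x) ^ Q) ^ P ^ m =
        b ^ (P ^ (m + 1)) * ((φ^[m] x) ^ P ^ m) ^ Q := by
      rw [mul_pow, ← pow_mul, ← pow_mul, ← pow_mul, ← pow_succ', mul_comm Q]
    rw [e1, h, e2, hB, mul_pow, ← pow_mul, ← pow_succ, mul_assoc]

/-- a power of `f` cannot be trivial -/
theorem pow_eq_one_contra [IsAlgClosed F] (p : ℕ) [ExpChar F p] {f : Equiv.Perm (OnePoint F)}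
    (hfinf : f ∞ = ∞) (hf0 : f ((0 : F) : OnePoint F) = ((0 : F) : OnePoint F)) {b : F}
    (hf1 : f ((1 : F) : OnePoint F) = (b : OnePoint F)) {e : ℕ} (hfe : f ^ e = 1) (he : e ≠ 0)
    (g : GL (Fin 2) F) (i j : ℕ)
    (hg : ∀ x : F, ∀ w : F, f (x : OnePoint F) = (w : OnePoint F) →
      ((w ^ p ^ i : F) : OnePoint F) = mob g ((x ^ p ^ j : F) : OnePoint F)) :
    b ^ e = 1 := by
  classical
  have hp : 0 < p := expChar_pos F p
  -- `f` on the finite part
  have hfin : ∀ x : F, ∃ w : F, f (x : OnePoint F) = (w : OnePoint F) := by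
    intro x
    have h1 : f (x : OnePoint F) ≠ ∞ := by
      intro h
      rw [← hfinf] at h
      exact coe_ne_infty x (f.injective h)
    obtain ⟨w, hw⟩ := ne_infty_iff_exists.1 h1
    exact ⟨w, hw.symm⟩
  choose φ hφ using hfin
  set P := p ^ i with hP
  set Q := p ^ j with hQ
  have hPpos : 0 < P := pow_pos hp _
  have hQpos : 0 < Q := pow_pos hp _
  have hφ0 : φ 0 = 0 := by
    have := (hφ 0).symm.trans hf0
    exact coe_eq_coe.1 this
  have hφ1 : φ 1 = b := by
    have := (hφ 1).symm.trans hf1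
    exact coe_eq_coe.1 this
  -- the matrix
  have hrel : ∀ x : F, ((φ x ^ P : F) : OnePoint F) = mob g ((x ^ Q : F) : OnePoint F) :=
    fun x => hg x (φ x) (hφ x)
  have h01 : g 0 1 = 0 := by
    have h := hrel 0
    rw [hφ0, zero_pow hPpos.ne', zero_pow hQpos.ne', mob_coe] at h
    split_ifs at h with h1
    · exact absurd h (coe_ne_infty _)
    rw [coe_eq_coe] at h
    simp only [mul_zero, zero_add] at h h1
    rcases div_eq_zero_iff.1 h.symm with h2 | h2
    · exact h2
    · exact absurd h2 h1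
  have h10 : g 1 0 = 0 := by
    by_contra h10
    -- choose `x` with `x ^ Q = - g11 / g10`
    obtain ⟨x, hx⟩ := IsAlgClosed.exists_pow_nat_eq (-(g 1 1) / g 1 0) hQpos
    have h := hrel x
    rw [hx, mob_coe, if_pos (by field_simp; ring)] at h
    exact coe_ne_infty _ h
  have hdet : g 0 0 * g 1 1 ≠ 0 := by
    have := g.det_ne_zero
    rw [Matrix.det_fin_two, h01, h10] at this
    simpa using this
  have h00 : g 0 0 ≠ 0 := left_ne_zero_of_mul hdet
  have h11 : g 1 1 ≠ 0 := right_ne_zero_of_mul hdet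
  have hrel' : ∀ x : F, φ x ^ P = b ^ P * x ^ Q := by
    have h1 : ∀ x : F, φ x ^ P = g 0 0 / g 1 1 * x ^ Q := by
      intro x
      have h := hrel x
      rw [mob_coe, h10, h01, if_neg (by simpa using h11), coe_eq_coe] at h
      rw [h]; simp only [zero_mul, zero_add, add_zero]; ring
    intro x
    have h2 := h1 1
    rw [hφ1, one_pow, mul_one] at h2
    rw [h1 x, h2]
  have hb0 : b ≠ 0 := by
    intro h
    have h1 := hφ 1
    rw [hφ1, h, ← hf0] at h1
    have h2 := f.injective h1
    exact one_ne_zero (coe_eq_coe.1 h2)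
  -- iterate
  have hiter := iterate_rel φ b P Q hrel'
  have hfpow : ∀ m : ℕ, ∀ x : F, (f ^ m) (x : OnePoint F) = ((φ^[m] x : F) : OnePoint F) := by
    intro m
    induction m with
    | zero => intro x; simp
    | succ m ih =>
      intro x
      rw [pow_succ', Equiv.Perm.mul_apply, ih, hφ, Function.iterate_succ_apply']
  have hid : ∀ x : F, φ^[e] x = x := by
    intro x
    have := hfpow e x
    rw [hfe] at this
    exact (coe_eq_coe.1 this).symm
  obtain ⟨B, hB⟩ := hiter e
  have hB1 : B = 1 := by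
    have := hB 1
    rw [hid] at this; simpa using this.symm
  have hpoly : ∀ x : F, x ^ (P ^ e) = x ^ (Q ^ e) := by
    intro x
    have := hB x
    rw [hid, hB1, one_mul] at this; exact this
  have hPQe : P ^ e = Q ^ e := by
    by_contra hne
    have h1 : (Polynomial.X ^ (P ^ e) : Polynomial F) = Polynomial.X ^ (Q ^ e) := by
      apply Polynomial.funext
      intro x; simpa using hpoly x
    have h2 := congrArg Polynomial.natDegree h1
    simp only [Polynomial.natDegree_X_pow] at h2
    exact hne h2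
  have hPQ : P = Q := Nat.pow_left_injective he hPQe
  have hlin : ∀ x : F, φ x = b * x := by
    intro x
    have h1 := hrel' x
    rw [← hPQ, ← mul_pow] at h1
    rw [hP] at h1
    have := iterateFrobenius_inj F p i
    apply this
    simpa [iterateFrobenius_def] using h1
  have hpow : ∀ m : ℕ, φ^[m] 1 = b ^ m := by
    intro m
    induction m with
    | zero => simp
    | succ m ih => rw [Function.iterate_succ_apply', ih, hlin, pow_succ']
  rw [← hpow, hid]

/-- there is an algebraic `b` which is not an `e`-th root of unity -/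
theorem exists_b [IsAlgClosed F] (e : ℕ) (he : e ≠ 0) :
    ∃ b ∈ acl (∅ : Set F), b ≠ 0 ∧ b ≠ 1 ∧ b ^ e ≠ 1 := by
  classical
  have hk : IsAlgClosed (acl (∅ : Set F)) := isAlgClosed_acl _
  have hinf : Infinite (acl (∅ : Set F)) := IsAlgClosed.instInfinite
  have h1 : (Polynomial.X * (Polynomial.X ^ e - 1) : Polynomial (acl (∅ : Set F))) ≠ 0 := by
    apply mul_ne_zero Polynomial.X_ne_zero
    exact Polynomial.X_pow_sub_C_ne_zero (Nat.pos_of_ne_zero he) 1
  obtain ⟨b, hb⟩ : ∃ b : acl (∅ : Set F),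
      (Polynomial.X * (Polynomial.X ^ e - 1) : Polynomial (acl (∅ : Set F))).eval b ≠ 0 := by
    by_contra hcon
    push Not at hcon
    exact h1 (Polynomial.funext (by simpa using hcon))
  simp only [Polynomial.eval_mul, Polynomial.eval_X, Polynomial.eval_sub, Polynomial.eval_pow,
    Polynomial.eval_one, ne_eq, mul_eq_zero, not_or] at hb
  have h2 : ((b : F)) ^ e ≠ 1 := by
    intro h
    apply hb.2
    have : b ^ e = 1 := Subtype.ext (by simpa using h)
    rw [this, sub_self]
  refine ⟨b, b.2, fun h => hb.1 (Subtype.ext h), fun h => h2 (by rw [h, one_pow]), h2⟩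

end Pool.Agent.MPa267
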