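import Pool.Agent.Lib.MP_a267a3_lc.AlgA

/-!
# MP_a267a3_lc: the triangle in PGL₂(k)
-/

set_option autoImplicit false

namespace Pool.Agent.MPa267

open OnePoint

variable {F : Type*} [Field F]

/-- proportional matrices induce the same Moebius transformation -/
private lemma mob_eq_of_smul {g h : GL (Fin 2) F} {c : F} (hc : c ≠ 0)
    (hgh : ∀ i j, g i j = c * h i j) : mob g = mob h := by
  classical
  ext x : 1
  induction x using OnePoint.rec with
  | infty =>
    rw [mob_infty, mob_infty, hgh, hgh]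
    by_cases h0 : h 1 0 = 0
    · simp [h0]
    · rw [if_neg h0, if_neg (mul_ne_zero hc h0), mul_div_mul_left _ _ hc]
  | coe x =>
    rw [mob_coe, mob_coe, hgh, hgh, hgh, hgh]
    have e1 : c * h 1 0 * x + c * h 1 1 = c * (h 1 0 * x + h 1 1) := by ring
    have e2 : c * h 0 0 * x + c * h 0 1 = c * (h 0 0 * x + h 0 1) := by ring
    rw [e1, e2]
    by_cases h0 : h 1 0 * x + h 1 1 = 0
    · simp [h0]
    · rw [if_neg h0, if_neg (mul_ne_zero hc h0), mul_div_mul_left _ _ hc]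

private lemma mk2_00 (a b c d : F) (h : a * d - b * c ≠ 0) : mk2 a b c d h 0 0 = a := rfl
private lemma mk2_01 (a b c d : F) (h : a * d - b * c ≠ 0) : mk2 a b c d h 0 1 = b := rfl
private lemma mk2_10 (a b c d : F) (h : a * d - b * c ≠ 0) : mk2 a b c d h 1 0 = c := rfl
private lemma mk2_11 (a b c d : F) (h : a * d - b * c ≠ 0) : mk2 a b c d h 1 1 = d := rfl

private lemma gl_mul_apply (g h : GL (Fin 2) F) (i j : Fin 2) :
    (g * h) i j = g i 0 * h 0 j + g i 1 * h 1 j := by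
  simp [Matrix.mul_apply, Fin.sum_univ_two]

private lemma conj_det {a b c d κ : F} (h : a * d - b * c ≠ 0) (hκ : κ ≠ 0) :
    (a * d * κ - b * c) * (a * d - b * c * κ) - (a * b * (1 - κ)) * (c * d * (κ - 1)) ≠ 0 := by
  have : (a * d * κ - b * c) * (a * d - b * c * κ) - (a * b * (1 - κ)) * (c * d * (κ - 1)) =
      κ * (a * d - b * c) ^ 2 := by ring
  rw [this]
  exact mul_ne_zero hκ (pow_ne_zero 2 h)

/-- the conjugate of `mulP κ` by an explicit Moebius map -/
private lemma conj_apply {a b c d κ : F} (h : a * d - b * c ≠ 0) (hκ : κ ≠ 0) (x : OnePoint F) :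
    mob (mk2 a b c d h) (mulP κ ((mob (mk2 a b c d h))⁻¹ x)) =
      mob (mk2 (a * d * κ - b * c) (a * b * (1 - κ)) (c * d * (κ - 1)) (a * d - b * c * κ)
        (conj_det h hκ)) x := by
  obtain ⟨y, rfl⟩ : ∃ y, x = mob (mk2 a b c d h) y :=
    ⟨(mob (mk2 a b c d h))⁻¹ x, (apply_inv_self' _ _).symm⟩
  rw [inv_apply_self', mulP_eq_mob hκ, ← Equiv.Perm.mul_apply, ← Equiv.Perm.mul_apply,
    ← mob_mul, ← mob_mul]
  congr 1
  symm
  apply mob_eq_of_smul h
  intro i j
  fin_cases i <;> fin_cases j <;>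
    simp only [Fin.zero_eta, Fin.mk_one, gl_mul_apply, mk2_00, mk2_01, mk2_10, mk2_11] <;> ring

private lemma quad_zero {K : Subfield F} [IsAlgClosed K] {z : F} (hz : z ∉ K) {p q r : F}
    (hp : p ∈ K) (hq : q ∈ K) (hr : r ∈ K) (h : p * z ^ 2 + q * z + r = 0) :
    p = 0 ∧ q = 0 ∧ r = 0 := by
  have hp0 : p = 0 := by
    by_contra hp0
    set P : Polynomial K := Polynomial.C ⟨p, hp⟩ * Polynomial.X ^ 2 +
      Polynomial.C ⟨q, hq⟩ * Polynomial.X + Polynomial.C ⟨r, hr⟩ with hP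
    have hpK : (⟨p, hp⟩ : K) ≠ 0 := by
      intro h0; exact hp0 (congrArg Subtype.val h0)
    have hdeg : P.degree ≠ 0 := by
      rw [hP, Polynomial.degree_quadratic hpK]; decide
    obtain ⟨w, hw⟩ := IsAlgClosed.exists_root P hdeg
    have hw' : p * (w : F) ^ 2 + q * (w : F) + r = 0 := by
      rw [Polynomial.IsRoot.def, hP] at hw
      simp only [Polynomial.eval_add, Polynomial.eval_mul, Polynomial.eval_C,
        Polynomial.eval_pow, Polynomial.eval_X] at hw
      have := congrArg Subtype.val hw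
      simpa using this
    have hfac : (z - w) * (p * (z + w) + q) = 0 := by linear_combination h - hw'
    rcases mul_eq_zero.1 hfac with h1 | h1
    · exact hz (by rw [sub_eq_zero.1 h1]; exact w.2)
    · apply hz
      have : z = -(w : F) - q / p := by
        field_simp
        linear_combination h1
      rw [this]
      exact K.sub_mem (K.neg_mem w.2) (K.div_mem hq hp)
  have hq0 : q = 0 := by
    by_contra hq0
    apply hz
    rw [hp0] at h
    have : z = -(r / q) := by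
      field_simp
      linear_combination h
    rw [this]
    exact K.neg_mem (K.div_mem hr hq)
  refine ⟨hp0, hq0, ?_⟩
  rw [hp0, hq0] at h
  linear_combination h

/-- a Moebius map over `K` fixing a point outside `P¹(K)` has a scalar matrix -/
private lemma scalar_of_fix {K : Subfield F} [IsAlgClosed K] {z : F} (hz : z ∉ K)
    {M : GL (Fin 2) F} (hM : GLK K M) (h : mob M (z : OnePoint F) = (z : OnePoint F)) :
    M 1 0 = 0 ∧ M 0 1 = 0 ∧ M 0 0 = M 1 1 := by
  classical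
  rw [mob_coe] at h
  by_cases h0 : M 1 0 * z + M 1 1 = 0
  · rw [if_pos h0] at h
    exact absurd h.symm (coe_ne_infty z)
  · rw [if_neg h0, coe_eq_coe, div_eq_iff h0] at h
    have := quad_zero hz (hM 1 0) (K.sub_mem (hM 1 1) (hM 0 0)) (K.neg_mem (hM 0 1))
      (by linear_combination -h)
    exact ⟨this.1, neg_eq_zero.1 this.2.2, (sub_eq_zero.1 this.2.1).symm⟩

private lemma triangle_aux {K : Subfield F} [IsAlgClosed K] {a b c d a' b' c' d' κ κ₂ κ₃ z : F}
    (h : a * d - b * c ≠ 0) (h' : a' * d' - b' * c' ≠ 0)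
    (ha : a ∈ K) (hb : b ∈ K) (hc : c ∈ K) (hd : d ∈ K)
    (ha' : a' ∈ K) (hb' : b' ∈ K) (hc' : c' ∈ K) (hd' : d' ∈ K)
    (hκ : κ ∈ K) (hκ₂ : κ₂ ∈ K) (hκ₃ : κ₃ ∈ K) (hκ0 : κ ≠ 0) (hκ₂0 : κ₂ ≠ 0) (hκ₃0 : κ₃ ≠ 0)
    (hz : z ∉ K)
    (heq : mob (mk2 a b c d h) (mulP κ₂ ((mob (mk2 a b c d h))⁻¹ (mob (mk2 a' b' c' d' h')
      (mulP κ₃ ((mob (mk2 a' b' c' d' h'))⁻¹ (mulP κ (z : OnePoint F))))))) =
        (z : OnePoint F)) :
    (c * d * (κ₂ - 1)) * (a' * d' * κ₃ - b' * c') + (a * d - b * c * κ₂) * (c' * d' * (κ₃ - 1)) = 0 ∧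
    (a * d * κ₂ - b * c) * (a' * b' * (1 - κ₃)) + (a * b * (1 - κ₂)) * (a' * d' - b' * c' * κ₃) = 0 ∧
    κ * ((a * d * κ₂ - b * c) * (a' * d' * κ₃ - b' * c') + (a * b * (1 - κ₂)) * (c' * d' * (κ₃ - 1))) =
      (c * d * (κ₂ - 1)) * (a' * b' * (1 - κ₃)) + (a * d - b * c * κ₂) * (a' * d' - b' * c' * κ₃) := by
  rw [conj_apply h' hκ₃0, conj_apply h hκ₂0, mulP_eq_mob hκ0, ← Equiv.Perm.mul_apply,
    ← Equiv.Perm.mul_apply, ← mob_mul, ← mob_mul] at heq
  have hM := scalar_of_fix hz ?_ heq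
  · obtain ⟨h1, h2, h3⟩ := hM
    simp only [gl_mul_apply, mk2_00, mk2_01, mk2_10, mk2_11] at h1 h2 h3
    refine ⟨?_, ?_, ?_⟩
    · apply mul_left_cancel₀ hκ0
      linear_combination h1
    · linear_combination h2
    · linear_combination h3
  · apply GLK_mul
    · apply GLK_mul
      · exact GLK_mk2 _ (K.sub_mem (K.mul_mem (K.mul_mem ha hd) hκ₂) (K.mul_mem hb hc))
          (K.mul_mem (K.mul_mem ha hb) (K.sub_mem K.one_mem hκ₂))
          (K.mul_mem (K.mul_mem hc hd) (K.sub_mem hκ₂ K.one_mem))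
          (K.sub_mem (K.mul_mem ha hd) (K.mul_mem (K.mul_mem hb hc) hκ₂))
      · exact GLK_mk2 _ (K.sub_mem (K.mul_mem (K.mul_mem ha' hd') hκ₃) (K.mul_mem hb' hc'))
          (K.mul_mem (K.mul_mem ha' hb') (K.sub_mem K.one_mem hκ₃))
          (K.mul_mem (K.mul_mem hc' hd') (K.sub_mem hκ₃ K.one_mem))
          (K.sub_mem (K.mul_mem ha' hd') (K.mul_mem (K.mul_mem hb' hc') hκ₃))
    · exact GLK_mk2 _ hκ K.zero_mem K.zero_mem K.one_mem

private lemma triangle_id {a b c d a' b' c' d' κ κ₂ κ₃ e : F}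
    (h : a * d - b * c ≠ 0) (h' : a' * d' - b' * c' ≠ 0)
    (hκ0 : κ ≠ 0) (hκ₂0 : κ₂ ≠ 0) (hκ₃0 : κ₃ ≠ 0) (he : e ≠ 0)
    (h10 : (c * d * (κ₂ - 1)) * (a' * d' * κ₃ - b' * c') +
      (a * d - b * c * κ₂) * (c' * d' * (κ₃ - 1)) = 0)
    (h01 : (a * d * κ₂ - b * c) * (a' * b' * (1 - κ₃)) +
      (a * b * (1 - κ₂)) * (a' * d' - b' * c' * κ₃) = 0)
    (h00 : κ * ((a * d * κ₂ - b * c) * (a' * d' * κ₃ - b' * c') +
      (a * b * (1 - κ₂)) * (c' * d' * (κ₃ - 1))) = e)
    (h11 : (c * d * (κ₂ - 1)) * (a' * b' * (1 - κ₃)) +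
      (a * d - b * c * κ₂) * (a' * d' - b' * c' * κ₃) = e) (x : OnePoint F) :
    mob (mk2 a b c d h) (mulP κ₂ ((mob (mk2 a b c d h))⁻¹ (mob (mk2 a' b' c' d' h')
      (mulP κ₃ ((mob (mk2 a' b' c' d' h'))⁻¹ (mulP κ x)))))) = x := by
  rw [conj_apply h' hκ₃0, conj_apply h hκ₂0, mulP_eq_mob hκ0, ← Equiv.Perm.mul_apply,
    ← Equiv.Perm.mul_apply, ← mob_mul, ← mob_mul]
  have : mob (mk2 (a * d * κ₂ - b * c) (a * b * (1 - κ₂)) (c * d * (κ₂ - 1))
      (a * d - b * c * κ₂) (conj_det h hκ₂0) * mk2 (a' * d' * κ₃ - b' * c') (a' * b' * (1 - κ₃))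
      (c' * d' * (κ₃ - 1)) (a' * d' - b' * c' * κ₃) (conj_det h' hκ₃0) *
      mk2 κ 0 0 1 (by simpa using hκ0)) = mob (1 : GL (Fin 2) F) := by
    apply mob_eq_of_smul he
    intro i j
    fin_cases i <;> fin_cases j
    · simp only [Fin.zero_eta, Fin.mk_one, gl_mul_apply, mk2_00, mk2_01, mk2_10, mk2_11]
      rw [show (1 : GL (Fin 2) F) 0 0 = 1 from rfl]
      linear_combination h00
    · simp only [Fin.zero_eta, Fin.mk_one, gl_mul_apply, mk2_00, mk2_01, mk2_10, mk2_11]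
      rw [show (1 : GL (Fin 2) F) 0 1 = 0 from rfl]
      linear_combination h01
    · simp only [Fin.zero_eta, Fin.mk_one, gl_mul_apply, mk2_00, mk2_01, mk2_10, mk2_11]
      rw [show (1 : GL (Fin 2) F) 1 0 = 0 from rfl]
      linear_combination κ * h10
    · simp only [Fin.zero_eta, Fin.mk_one, gl_mul_apply, mk2_00, mk2_01, mk2_10, mk2_11]
      rw [show (1 : GL (Fin 2) F) 1 1 = 1 from rfl]
      linear_combination h11
  rw [this, mob_one]; rfl

/-- the triangle in `PGL₂(k)` -/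
theorem triangle [IsAlgClosed F] :
    ∃ (ζ ζ₂ ζ₃ : F) (γ₂ γ₃ : GL (Fin 2) F), ζ ∈ UU F ∧ ζ₂ ∈ UU F ∧ ζ₃ ∈ UU F ∧
      ζ ≠ 1 ∧ ζ₂ ≠ 1 ∧ ζ₃ ≠ 1 ∧
      GLK (acl (∅ : Set F)) γ₂ ∧ GLK (acl (∅ : Set F)) γ₃ ∧
      (∀ x : OnePoint F, mob γ₂ (mulP ζ₂ ((mob γ₂)⁻¹ (mob γ₃ (mulP ζ₃ ((mob γ₃)⁻¹
        (mulP ζ x)))))) = x) ∧
      ∀ κ κ₂ κ₃ z : F, κ ∈ acl (∅ : Set F) → κ₂ ∈ acl (∅ : Set F) → κ₃ ∈ acl (∅ : Set F) →
        z ∉ acl (∅ : Set F) → κ ≠ 0 → κ₂ ≠ 0 → κ₃ ≠ 0 → κ ≠ 1 →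
        mob γ₂ (mulP κ₂ ((mob γ₂)⁻¹ (mob γ₃ (mulP κ₃ ((mob γ₃)⁻¹
          (mulP κ (z : OnePoint F))))))) = (z : OnePoint F) → κ = ζ := by
  have : IsAlgClosed (acl (∅ : Set F)) := isAlgClosed_acl ∅
  set K : Subfield F := acl (∅ : Set F) with hK
  by_cases h2 : (2 : F) = 0
  · -- characteristic two
    obtain ⟨w, hw⟩ := IsAlgClosed.exists_root
      (Polynomial.C (1 : K) * Polynomial.X ^ 2 + Polynomial.C (1 : K) * Polynomial.X +
        Polynomial.C (1 : K)) (by rw [Polynomial.degree_quadratic one_ne_zero]; decide)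
    obtain ⟨s, hs⟩ := IsAlgClosed.exists_root
      (Polynomial.C (1 : K) * Polynomial.X ^ 2 + Polynomial.C w * Polynomial.X +
        Polynomial.C w) (by rw [Polynomial.degree_quadratic one_ne_zero]; decide)
    set ω : F := (w : F) with hω
    set σ : F := (s : F) with hσ
    have hωK : ω ∈ K := w.2
    have hσK : σ ∈ K := s.2
    have hw1 : ω ^ 2 + ω + 1 = 0 := by
      rw [Polynomial.IsRoot.def] at hw
      simp only [Polynomial.eval_add, Polynomial.eval_mul, Polynomial.eval_C,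
        Polynomial.eval_pow, Polynomial.eval_X, one_mul] at hw
      have := congrArg Subtype.val hw
      simpa using this
    have hs1 : σ ^ 2 + ω * σ + ω = 0 := by
      rw [Polynomial.IsRoot.def] at hs
      simp only [Polynomial.eval_add, Polynomial.eval_mul, Polynomial.eval_C,
        Polynomial.eval_pow, Polynomial.eval_X, one_mul] at hs
      have := congrArg Subtype.val hs
      simpa using this
    have hω0 : ω ≠ 0 := by
      intro h0; rw [h0] at hw1; simp at hw1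
    have hω1 : ω ≠ 1 := by
      intro h0; rw [h0] at hw1
      have : (1 : F) = 0 := by linear_combination hw1 - h2
      exact one_ne_zero this
    have hω3 : ω ^ 3 = 1 := by linear_combination (ω - 1) * hw1
    have hσ0 : σ ≠ 0 := by
      intro h0; rw [h0] at hs1; apply hω0; linear_combination hs1
    have hτ0 : σ + ω ≠ 0 := by
      intro h0; apply hω0; linear_combination hs1 - σ * h0
    have hστ : σ * (σ + ω) = ω := by linear_combination hs1 - ω * h2
    have hd1 : ω ^ 2 * 1 - ω * 1 ≠ 0 := by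
      intro h0
      have : (1 : F) = 0 := by linear_combination hw1 - h0 - ω * h2
      exact one_ne_zero this
    have hd2 : (σ + ω) * 1 - σ * 1 ≠ 0 := by
      intro h0; apply hω0; linear_combination h0
    have hζ3ne : σ + 1 ≠ 1 := by
      intro h0; apply hσ0; linear_combination h0
    have h3F : (3 : F) ≠ 0 := by
      intro h0
      have : (1 : F) = 0 := by linear_combination h0 - h2
      exact one_ne_zero this
    have h5F : (5 : F) ≠ 0 := by
      intro h0
      have : (1 : F) = 0 := by linear_combination h0 - 2 * h2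
      exact one_ne_zero this
    -- `r = σ + 1` satisfies `r² + ω r + 1 = 0`
    have hr2 : (σ + 1) ^ 2 + ω * (σ + 1) + 1 = 0 := by
      linear_combination hs1 + (σ + 1) * h2
    have hr5 : (σ + 1) ^ 5 = 1 := by
      linear_combination ((σ + 1) ^ 3 - ω * (σ + 1) ^ 2 + (ω ^ 2 - 1) * (σ + 1) +
        (2 * ω - ω ^ 3)) * hr2 + ((ω ^ 2 - ω - 3) * (σ + 1) + (ω - 1)) * hw1 +
        ((2 * ω + 2) * (σ + 1) - ω) * h2
    have hr0 : σ + 1 ≠ 0 := by
      intro h0; rw [h0] at hr5; norm_num at hr5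
    have hω1' : ω - 1 ≠ 0 := sub_ne_zero.2 hω1
    refine ⟨ω, ω, σ + 1, mk2 (ω ^ 2) ω 1 1 hd1, mk2 (σ + ω) σ 1 1 hd2,
      ⟨3, by exact_mod_cast h3F, hω3⟩, ⟨3, by exact_mod_cast h3F, hω3⟩,
      ⟨5, by exact_mod_cast h5F, hr5⟩, hω1, hω1, hζ3ne, ?_, ?_, ?_, ?_⟩
    · exact GLK_mk2 _ (K.pow_mem hωK 2) hωK K.one_mem K.one_mem
    · exact GLK_mk2 _ (K.add_mem hσK hωK) hσK K.one_mem K.one_mem
    · intro x
      apply triangle_id (e := (ω - 1) * σ * ω) hd1 hd2 hω0 hω0 hr0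
        (mul_ne_zero (mul_ne_zero hω1' hσ0) hω0)
      · linear_combination (ω - 1) * hs1
      · linear_combination (-(ω ^ 3 - ω) * σ - ω ^ 3 * (1 - ω)) * hs1 +
          ω * σ * (2 - ω) * hω3 + (ω * σ * (1 - ω) + ω ^ 4 * (1 - ω)) * h2
      · linear_combination ω * (ω ^ 3 - ω) * hs1 + ω * (1 - ω) * σ * hω3 +
          ω * (1 - ω) * σ * h2
      · linear_combination (-(ω - 1) * σ) * hs1
    · intro κ κ₂ κ₃ z hκ hκ₂ hκ₃ hz hκ0 hκ₂0 hκ₃0 hκ1 heq
      obtain ⟨e1, e2, e3⟩ := triangle_aux hd1 hd2 (K.pow_mem hωK 2) hωK K.one_mem K.one_mem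
        (K.add_mem hσK hωK) hσK K.one_mem K.one_mem hκ hκ₂ hκ₃ hκ0 hκ₂0 hκ₃0 hz heq
      have hdg' : (ω - 1) * ((ω ^ 2 - ω * κ₂) * (κ₃ - 1)) = 0 := by
        linear_combination e2 + e1 + (ω ^ 2 * κ₂ - ω) * (κ₃ - 1) * hs1 +
          (κ₂ - 1) * (σ + ω - σ * κ₃) * hω3 - (κ₂ - 1) * ω * (κ₃ - 1) * hw1 -
          ((κ₂ - 1) * σ * (κ₃ - 1) + (ω ^ 2 - ω * κ₂) * (κ₃ - 1)) * h2
      have hdg := (mul_eq_zero.1 hdg').resolve_left hω1'
      rcases mul_eq_zero.1 hdg with hd | hg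
      · -- `d = 0`
        have hk2 : κ₂ = ω := by
          apply mul_left_cancel₀ hω0
          linear_combination -hd
        subst hk2
        have he : (σ + ω) * κ₃ - σ = 0 := by
          have : (ω - 1) * ((σ + ω) * κ₃ - σ) = 0 := by linear_combination e1
          exact (mul_eq_zero.1 this).resolve_left hω1'
        have hk3 : κ₃ - 1 ≠ 0 := by
          intro h0
          apply hω0
          linear_combination he - (σ + ω) * h0
        have : (ω - 1) * ((κ₃ - 1) * (κ - ω)) = 0 := by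
          linear_combination -e3 + κ * (ω ^ 3 - ω) * he + (ω - 1) * (κ₃ - 1) * hs1 -
            (ω - 1) * (κ₃ - 1) * κ * hω3 - ω * (ω - 1) * (κ₃ - 1) * h2
        have := (mul_eq_zero.1 ((mul_eq_zero.1 this).resolve_left hω1')).resolve_left hk3
        exact sub_eq_zero.1 this
      · -- `g = 0`
        exfalso
        apply hκ1
        have hk3 : κ₃ = 1 := sub_eq_zero.1 hg
        subst hk3
        have hk2 : κ₂ = 1 := by
          apply mul_left_cancel₀ hω0
          linear_combination e1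
        subst hk2
        have : (ω - 1) * (ω * ω) * (κ - 1) = 0 := by linear_combination e3
        exact sub_eq_zero.1 ((mul_eq_zero.1 this).resolve_left
          (mul_ne_zero hω1' (mul_ne_zero hω0 hω0)))
  · -- characteristic different from two
    obtain ⟨i, hi⟩ := IsAlgClosed.exists_pow_nat_eq (-1 : K) (n := 2) (by norm_num)
    set ι : F := (i : F) with hι
    have hιK : ι ∈ K := i.2
    have hι2 : ι ^ 2 = -1 := by
      have := congrArg Subtype.val hi
      simpa using this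
    have hι0 : ι ≠ 0 := by
      intro h0; rw [h0] at hι2; norm_num at hι2
    have hne1 : (-1 : F) ≠ 1 := by
      intro h0; apply h2; linear_combination -h0
    have hd1 : (1 : F) * 1 - 1 * (-1) ≠ 0 := by
      intro h0; apply h2; linear_combination h0
    have hd2 : ι * 1 - ι * (-1) ≠ 0 := by
      intro h0
      have : (2 : F) * ι = 0 := by linear_combination h0
      exact (mul_ne_zero h2 hι0) this
    have hU : (-1 : F) ∈ UU F := ⟨2, by exact_mod_cast h2, by norm_num⟩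
    have hm1 : (-1 : F) ≠ 0 := by simp
    refine ⟨-1, -1, -1, mk2 1 1 (-1) 1 hd1, mk2 ι ι (-1) 1 hd2, hU, hU, hU, hne1, hne1, hne1,
      ?_, ?_, ?_, ?_⟩
    · exact GLK_mk2 _ K.one_mem K.one_mem (K.neg_mem K.one_mem) K.one_mem
    · exact GLK_mk2 _ hιK hιK (K.neg_mem K.one_mem) K.one_mem
    · intro x
      have h4 : (-4 : F) ≠ 0 := by
        intro h0
        have : (2 : F) * 2 = 0 := by linear_combination -h0
        exact (mul_ne_zero h2 h2) this
      apply triangle_id (e := -4) hd1 hd2 hm1 hm1 hm1 h4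
      · ring
      · ring
      · ring
      · linear_combination 4 * hι2
    · intro κ κ₂ κ₃ z hκ hκ₂ hκ₃ hz hκ0 hκ₂0 hκ₃0 hκ1 heq
      obtain ⟨e1, e2, e3⟩ := triangle_aux hd1 hd2 K.one_mem K.one_mem (K.neg_mem K.one_mem)
        K.one_mem hιK hιK (K.neg_mem K.one_mem) K.one_mem hκ hκ₂ hκ₃ hκ0 hκ₂0 hκ₃0 hz heq
      have hA : (κ₂ + 1) * (κ₃ - 1) = 0 := by
        have : (2 : F) * ((κ₂ + 1) * (κ₃ - 1)) = 0 := by
          linear_combination e2 - e1 + (κ₂ + 1) * (κ₃ - 1) * hι2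
        exact (mul_eq_zero.1 this).resolve_left h2
      have hB : (κ₂ - 1) * (κ₃ + 1) = 0 := by
        have : (2 * ι) * ((κ₂ - 1) * (κ₃ + 1)) = 0 := by
          linear_combination -e2 - e1 - (κ₂ + 1) * (κ₃ - 1) * hι2
        exact (mul_eq_zero.1 this).resolve_left (mul_ne_zero h2 hι0)
      rcases mul_eq_zero.1 hB with hk | hk
      · exfalso
        apply hκ1
        have hk2 : κ₂ = 1 := sub_eq_zero.1 hk
        subst hk2
        have hk3 : κ₃ = 1 := by
          have : (2 : F) * (κ₃ - 1) = 0 := by linear_combination hA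
          exact sub_eq_zero.1 ((mul_eq_zero.1 this).resolve_left h2)
        subst hk3
        have : (2 * 2 * ι) * (κ - 1) = 0 := by linear_combination e3
        exact sub_eq_zero.1 ((mul_eq_zero.1 this).resolve_left
          (mul_ne_zero (mul_ne_zero h2 h2) hι0))
      · have hk3 : κ₃ = -1 := by linear_combination hk
        subst hk3
        have hk2 : κ₂ = -1 := by
          have : (2 : F) * (κ₂ + 1) = 0 := by linear_combination -hA
          linear_combination (mul_eq_zero.1 this).resolve_left h2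
        subst hk2
        have : (2 * 2 : F) * (κ + 1) = 0 := by linear_combination e3 + 4 * hι2
        linear_combination (mul_eq_zero.1 this).resolve_left (mul_ne_zero h2 h2)

end Pool.Agent.MPa267
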