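import Pool.Agent.Lib.MP_a267a3_lc.Kappa
import Pool.Agent.Lib.MP_a267a3_lc.Triangle

/-!
# MP_a267a3_lc: generic commuting
-/

set_option autoImplicit false

namespace Pool.Agent.MPa267

open OnePoint

variable {F : Type*} [Field F]

/-- points outside `P¹(K)` are finite -/
lemma exists_coe_of_not_mem_PP {K : Subfield F} {x : OnePoint F} (hx : x ∉ PP K) :
    ∃ a : F, a ∉ K ∧ x = (a : OnePoint F) := by
  induction x using OnePoint.rec with
  | infty => exact absurd (infty_mem_PP K) hx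
  | coe a => exact ⟨a, fun h => hx ((coe_mem_PP K a).2 h), rfl⟩

/-- `κ`-lemma for a conjugate of a torus -/
theorem kappa_conj [IsAlgClosed F] {H : Subgroup (Equiv.Perm (OnePoint F))} {n : ℕ}
    (s : Setup H n) {S : Finset (OnePoint F)} (hS : Star H S) (γ : GL (Fin 2) F)
    (hγ : GLK (acl (∅ : Set F)) γ) {A : Set (OnePoint F)} {c : F} (hc : c ∉ acl (∅ : Set F))
    (hA : ∀ x, x = ∞ ∨ x = ((0 : F) : OnePoint F) ∨ x ∈ S → mob γ x ∈ A)
    {h : Equiv.Perm (OnePoint F)} (hh : h ∈ H)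
    (hfix : ∀ x ∈ Cl H (insert (c : OnePoint F) A), h x = x)
    {y : OnePoint F} (hy : y ∉ PP (acl {c})) (hy' : h y ∉ PP (acl {c})) {u : F} (hu : u ∈ UU F)
    (hu1 : u ≠ 1) :
    ∃ κ ∈ acl (∅ : Set F), κ ≠ 0 ∧ κ ≠ 1 ∧
      h (mob γ (mulP u ((mob γ)⁻¹ y))) = mob γ (mulP κ ((mob γ)⁻¹ (h y))) := by
  classical
  have hem : ∀ t : F, acl (∅ : Set F) ≤ acl {t} := fun t => acl_mono (Set.empty_subset _)
  have hself : ∀ t : F, t ∈ acl ({t} : Set F) := fun t => subset_acl _ rfl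
  have hexch : ∀ a b : F, a ∈ acl ({b} : Set F) → a ∉ acl (∅ : Set F) → b ∈ acl ({a} : Set F) := by
    intro a b hab ha
    have := acl_exchange (s := (∅ : Set F)) (x := b) (y := a) (by simpa using hab) ha
    simpa using this
  have hγc : GLK (acl ({c} : Set F)) γ := fun i j => hem c (hγ i j)
  have hinvPP : ∀ (K : Subfield F), GLK K γ → ∀ x, (mob γ)⁻¹ x ∈ PP K ↔ x ∈ PP K := by
    intro K hK x
    have := mob_mem_PP hK ((mob γ)⁻¹ x)
    rw [apply_inv_self'] at this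
    exact this.symm
  -- the point `c' = γ⁻¹ c`
  have hcP : (c : OnePoint F) ∉ PP (acl (∅ : Set F)) := by rw [coe_mem_PP]; exact hc
  have hc'P : (mob γ)⁻¹ (c : OnePoint F) ∉ PP (acl (∅ : Set F)) := by
    rw [hinvPP _ hγ]; exact hcP
  obtain ⟨c', hc', hcc'⟩ := exists_coe_of_not_mem_PP hc'P
  have hγc' : mob γ (c' : OnePoint F) = (c : OnePoint F) := by
    rw [← hcc', apply_inv_self']
  -- `acl {c'} = acl {c}`
  have hc'c : c' ∈ acl ({c} : Set F) := by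
    have h1 : (mob γ)⁻¹ (c : OnePoint F) ∈ PP (acl ({c} : Set F)) := by
      rw [hinvPP _ hγc, coe_mem_PP]; exact hself c
    rwa [hcc', coe_mem_PP] at h1
  have hcc'' : c ∈ acl ({c'} : Set F) := hexch _ _ hc'c hc'
  have hacl : acl ({c'} : Set F) = acl ({c} : Set F) :=
    le_antisymm (acl_le (by simpa using hc'c)) (acl_le (by simpa using hcc''))
  have hGγ : mob γ ∈ H := s.hG (mob_mem_GG γ)
  set h' : Equiv.Perm (OnePoint F) := (mob γ)⁻¹ * h * mob γ with hh'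
  have hh'H : h' ∈ H := H.mul_mem (H.mul_mem (H.inv_mem hGγ) hh) hGγ
  have happ : ∀ x, h' x = (mob γ)⁻¹ (h (mob γ x)) := fun x => rfl
  have hfixA : ∀ x, mob γ x ∈ A → h' x = x := by
    intro x hx
    rw [happ, hfix _ (subset_cl _ (Set.mem_insert_of_mem _ hx)), inv_apply_self']
  obtain ⟨y₀, hy₀, hyy⟩ := exists_coe_of_not_mem_PP
    (show (mob γ)⁻¹ y ∉ PP (acl ({c} : Set F)) by rw [hinvPP _ hγc]; exact hy)
  obtain ⟨z₀, hz₀, hzz⟩ := exists_coe_of_not_mem_PP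
    (show (mob γ)⁻¹ (h y) ∉ PP (acl ({c} : Set F)) by rw [hinvPP _ hγc]; exact hy')
  have hy0' : mob γ (y₀ : OnePoint F) = y := by rw [← hyy, apply_inv_self']
  have hu0 : u ≠ 0 := by
    rintro rfl
    obtain ⟨e, he, hue⟩ := hu
    have he0 : e ≠ 0 := by rintro rfl; simp at he
    rw [zero_pow he0] at hue
    exact zero_ne_one hue
  have hc'0 : c' ≠ 0 := by rintro rfl; exact hc' (Subfield.zero_mem _)
  obtain ⟨κ, hκ, hκ0, hκ1, hκe⟩ := kappa s hS (h := h') hh'H hc'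
    (hfixA _ (hA _ (Or.inl rfl))) (hfixA _ (hA _ (Or.inr (Or.inl rfl))))
    (fun x hx => hfixA _ (hA _ (Or.inr (Or.inr hx))))
    (by
      intro x hx
      -- `c' x ∈ Cl (c' + S)`, so `γ (c' x) ∈ Cl (c + γ S)`
      obtain ⟨w, hw, rfl⟩ := hS.1 x hx
      have h1 := hS.2 c' hc' w hw
      have h2 := mem_Cl_image hGγ h1
      rw [hγc'] at h2
      rw [mulP_coe hc'0, mul_comm c' w, happ]
      have h3 : mob γ ((w * c' : F) : OnePoint F) ∈ Cl H (insert (c : OnePoint F) A) := by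
        refine cl_mono ?_ h2
        apply Set.insert_subset_insert
        rintro _ ⟨a, ha, rfl⟩
        exact hA a (Or.inr (Or.inr ha))
      rw [hfix _ h3, inv_apply_self'])
    (y := y₀) (z := z₀) (by rw [hacl]; exact hy₀) (by rw [hacl]; exact hz₀)
    (by rw [happ, hy0', hzz]) hu
  refine ⟨κ, hκ, hκ0, hκ1 hu1, ?_⟩
  have h1 : mob γ (h' ((u * y₀ : F) : OnePoint F)) = mob γ ((κ * z₀ : F) : OnePoint F) := by
    rw [hκe]
  rw [happ, apply_inv_self', ← mulP_coe hu0, ← mulP_coe hκ0, ← hyy, ← hzz] at h1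
  exact h1

/-- (GC) -/
theorem generic_commuting [IsAlgClosed F] {H : Subgroup (Equiv.Perm (OnePoint F))} {n : ℕ}
    (s : Setup H n) {S : Finset (OnePoint F)} (hS : Star H S) :
    ∃ (ζ : F) (A : Finset (OnePoint F)), ζ ∈ UU F ∧ ζ ≠ 1 ∧
      (A : Set (OnePoint F)) ⊆ PP (acl (∅ : Set F)) ∧
      ∀ c : F, c ∉ acl (∅ : Set F) → ∀ h ∈ H,
        (∀ x ∈ Cl H (insert (c : OnePoint F) (A : Set (OnePoint F))), h x = x) →
        ∀ y : OnePoint F, y ∉ PP (acl {c}) → h y ∉ PP (acl {c}) →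
          h (mulP ζ y) = mulP ζ (h y) ∧ h (mulP ζ⁻¹ y) = mulP ζ⁻¹ (h y) := by
  classical
  obtain ⟨ζ, ζ₂, ζ₃, γ₂, γ₃, hζ, hζ₂, hζ₃, hζ1, hζ21, hζ31, hγ₂, hγ₃, htri, hrig⟩ :=
    triangle (F := F)
  have hem : ∀ t : F, acl (∅ : Set F) ≤ acl {t} := fun t => acl_mono (Set.empty_subset _)
  have hU0 : ∀ u : F, u ∈ UU F → u ≠ 0 := by
    rintro u ⟨e, he, hue⟩ rfl
    have he0 : e ≠ 0 := by rintro rfl; simp at he
    rw [zero_pow he0] at hue
    exact zero_ne_one hue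
  have hSk : ∀ x ∈ S, x ∈ PP (acl (∅ : Set F)) := by
    intro x hx
    obtain ⟨w, hw, rfl⟩ := hS.1 x hx
    rw [coe_mem_PP]; exact UU_subset_acl hw
  set B : Finset (OnePoint F) := insert ∞ (insert ((0 : F) : OnePoint F) S) with hB
  have hBk : ∀ x ∈ B, x ∈ PP (acl (∅ : Set F)) := by
    intro x hx
    rcases Finset.mem_insert.1 hx with rfl | hx
    · exact infty_mem_PP _
    rcases Finset.mem_insert.1 hx with rfl | hx
    · rw [coe_mem_PP]; exact Subfield.zero_mem _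
    · exact hSk x hx
  have hBmem : ∀ x, x = ∞ ∨ x = ((0 : F) : OnePoint F) ∨ x ∈ S → x ∈ B := by
    rintro x (rfl | rfl | hx)
    · exact Finset.mem_insert_self _ _
    · exact Finset.mem_insert_of_mem (Finset.mem_insert_self _ _)
    · exact Finset.mem_insert_of_mem (Finset.mem_insert_of_mem hx)
  set A : Finset (OnePoint F) := B ∪ B.image (mob γ₂) ∪ B.image (mob γ₃) with hA
  refine ⟨ζ, A, hζ, hζ1, ?_, ?_⟩
  · intro x hx
    rcases Finset.mem_union.1 (Finset.mem_coe.1 hx) with hx | hx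
    · rcases Finset.mem_union.1 hx with hx | hx
      · exact hBk x hx
      · obtain ⟨y, hy, rfl⟩ := Finset.mem_image.1 hx
        exact (mob_mem_PP hγ₂ y).2 (hBk y hy)
    · obtain ⟨y, hy, rfl⟩ := Finset.mem_image.1 hx
      exact (mob_mem_PP hγ₃ y).2 (hBk y hy)
  intro c hc h hh hfix
  have hone : GLK (acl (∅ : Set F)) (1 : GL (Fin 2) F) := by
    intro i j
    rw [Units.val_one, Matrix.one_apply]
    split_ifs
    · exact Subfield.one_mem _
    · exact Subfield.zero_mem _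
  have hζk : ζ ∈ acl (∅ : Set F) := UU_subset_acl hζ
  -- the three kappa lemmas
  have k1 : ∀ u ∈ UU F, u ≠ 1 → ∀ y : OnePoint F, y ∉ PP (acl {c}) → h y ∉ PP (acl {c}) →
      ∃ κ ∈ acl (∅ : Set F), κ ≠ 0 ∧ κ ≠ 1 ∧ h (mulP u y) = mulP κ (h y) := by
    intro u hu hu1 y hy hy'
    obtain ⟨κ, a1, a2, a3, a4⟩ := kappa_conj s hS 1 hone (A := A) hc
      (by
        intro x hx
        rw [mob_one]
        exact Finset.mem_coe.2 (Finset.mem_union_left _ (Finset.mem_union_left _ (hBmem x hx))))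
      hh hfix hy hy' hu hu1
    refine ⟨κ, a1, a2, a3, ?_⟩
    simpa [mob_one] using a4
  have k2 := fun (y : OnePoint F) (hy : y ∉ PP (acl ({c} : Set F)))
      (hy' : h y ∉ PP (acl ({c} : Set F))) =>
    kappa_conj s hS γ₂ hγ₂ (A := A) hc
      (by
        intro x hx
        exact Finset.mem_coe.2 (Finset.mem_union_left _ (Finset.mem_union_right _
          (Finset.mem_image_of_mem _ (hBmem x hx)))))
      hh hfix hy hy' hζ₂ hζ21
  have k3 := fun (y : OnePoint F) (hy : y ∉ PP (acl ({c} : Set F)))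
      (hy' : h y ∉ PP (acl ({c} : Set F))) =>
    kappa_conj s hS γ₃ hγ₃ (A := A) hc
      (by
        intro x hx
        exact Finset.mem_coe.2 (Finset.mem_union_right _
          (Finset.mem_image_of_mem _ (hBmem x hx))))
      hh hfix hy hy' hζ₃ hζ31
  have hK2 : GLK (acl ({c} : Set F)) γ₂ := fun i j => hem c (hγ₂ i j)
  have hK3 : GLK (acl ({c} : Set F)) γ₃ := fun i j => hem c (hγ₃ i j)
  -- conjugates of tori over `k` preserve `P¹(K)`
  have hpres : ∀ (γ : GL (Fin 2) F), GLK (acl ({c} : Set F)) γ → ∀ κ ∈ acl (∅ : Set F), ∀ x,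
      mob γ (mulP κ ((mob γ)⁻¹ x)) ∈ PP (acl ({c} : Set F)) ↔ x ∈ PP (acl ({c} : Set F)) := by
    intro γ hγ κ hκ x
    rw [mob_mem_PP hγ, mulP_mem_PP (hem c hκ)]
    have := mob_mem_PP hγ ((mob γ)⁻¹ x)
    rw [apply_inv_self'] at this
    exact this.symm
  have part1 : ∀ y : OnePoint F, y ∉ PP (acl {c}) → h y ∉ PP (acl {c}) →
      h (mulP ζ y) = mulP ζ (h y) := by
    intro y hy hy'
    obtain ⟨κ, b1, b2, b3, b4⟩ := k1 ζ hζ hζ1 y hy hy'
    have c1 : mulP ζ y ∉ PP (acl ({c} : Set F)) := by rwa [mulP_mem_PP (hem c hζk)]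
    have c2 : h (mulP ζ y) ∉ PP (acl ({c} : Set F)) := by
      rw [b4, mulP_mem_PP (hem c b1)]; exact hy'
    obtain ⟨κ₃, d1, d2, d3, d4⟩ := k3 (mulP ζ y) c1 c2
    have c3 : mob γ₃ (mulP ζ₃ ((mob γ₃)⁻¹ (mulP ζ y))) ∉ PP (acl ({c} : Set F)) := by
      rw [hpres γ₃ hK3 ζ₃ (UU_subset_acl hζ₃)]; exact c1
    have c4 : h (mob γ₃ (mulP ζ₃ ((mob γ₃)⁻¹ (mulP ζ y)))) ∉ PP (acl ({c} : Set F)) := by
      rw [d4, hpres γ₃ hK3 κ₃ d1]; exact c2
    obtain ⟨κ₂, e1, e2, e3, e4⟩ := k2 _ c3 c4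
    rw [htri y, d4, b4] at e4
    obtain ⟨z, hz, hzy⟩ := exists_coe_of_not_mem_PP hy'
    have hκζ : κ = ζ := by
      apply hrig κ κ₂ κ₃ z b1 e1 d1 (fun h1 => hz (hem c h1)) b2 e2 d2 b3
      rw [← hzy]
      exact e4.symm
    rw [b4, hκζ]
  intro y hy hy'
  refine ⟨part1 y hy hy', ?_⟩
  have hζ0 := hU0 ζ hζ
  have hζinv : ζ⁻¹ ∈ UU F := by
    obtain ⟨e, he, hζe⟩ := hζ
    exact ⟨e, he, by rw [inv_pow, hζe, inv_one]⟩
  have hζinv1 : ζ⁻¹ ≠ 1 := fun h1 => hζ1 (by rw [← inv_inv ζ, h1, inv_one])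
  obtain ⟨κ, b1, b2, b3, b4⟩ := k1 ζ⁻¹ hζinv hζinv1 y hy hy'
  have c1 : mulP ζ⁻¹ y ∉ PP (acl ({c} : Set F)) := by
    rwa [mulP_mem_PP (hem c (UU_subset_acl hζinv))]
  have c2 : h (mulP ζ⁻¹ y) ∉ PP (acl ({c} : Set F)) := by
    rw [b4, mulP_mem_PP (hem c b1)]; exact hy'
  have h1 := part1 (mulP ζ⁻¹ y) c1 c2
  have hcancel : ∀ x : OnePoint F, mulP ζ (mulP ζ⁻¹ x) = x := by
    intro x
    induction x using OnePoint.rec with
    | infty => simp
    | coe x => rw [mulP_coe (inv_ne_zero hζ0), mulP_coe hζ0, mul_inv_cancel_left₀ hζ0]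
  have hcancel' : ∀ x : OnePoint F, mulP ζ⁻¹ (mulP ζ x) = x := by
    intro x
    induction x using OnePoint.rec with
    | infty => simp
    | coe x => rw [mulP_coe hζ0, mulP_coe (inv_ne_zero hζ0), inv_mul_cancel_left₀ hζ0]
  rw [hcancel] at h1
  rw [h1, hcancel']

end Pool.Agent.MPa267
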