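import Pool.Agent.Lib.MP_a267a3_lc.Config
import Pool.Agent.Lib.MP_a267a3_lc.GC
import Pool.Agent.Lib.MP_a267a3_lc.EndA
import Pool.Agent.Lib.MP_a267a3_lc.EndB
import Pool.Agent.Lib.MP_a267a3_lc.EndC

/-!
# MP_a267a3_lc: the main theorem on the projective line
-/

set_option autoImplicit false

namespace Pool.Agent.MPa267

open OnePoint

variable {F : Type*} [Field F]

/-- the main theorem on the projective line -/
theorem main_line [IsAlgClosed F] (htr : ∃ t u : F, t ∉ acl (∅ : Set F) ∧ u ∉ acl {t})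
    (H : Subgroup (Equiv.Perm (OnePoint F))) (hG : GG F ≤ H) (hcl : IsClosedP H) :
    H ≤ GG F ∨ H = ⊤ := by
  by_contra hcon
  push Not at hcon
  obtain ⟨hne, hne'⟩ := hcon
  obtain ⟨n, s⟩ := exists_setup htr H hG hcl hne hne'
  obtain ⟨t, u, ht, hu⟩ := htr
  obtain ⟨hinf, S, hS⟩ := config s ht hu
  obtain ⟨ζ, A, hζU, hζ1, hA, hgc⟩ := generic_commuting s (S := S) hS
  obtain ⟨e, he, hζe⟩ := hζU
  have he0 : e ≠ 0 := by rintro rfl; simp at he
  have hζk : ζ ∈ acl (∅ : Set F) := UU_subset_acl ⟨e, he, hζe⟩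
  have hζ0 : ζ ≠ 0 := by rintro rfl; rw [zero_pow he0] at hζe; exact zero_ne_one hζe
  obtain ⟨b, hb, hb0, hb1, hbe⟩ := exists_b (F := F) e he0
  have hKne : acl ({t} : Set F) ≠ ⊤ := acl_ne_top_of_not_mem hu
  have hKcl : IsAlgClosed (acl ({t} : Set F)) := isAlgClosed_acl _
  obtain ⟨σ, hσ, hσinf, hσ0, hσ1, hσζ, hσC⟩ :=
    exists_sigma s A hA hζk hb hζ0 hζ1 hb0 hb1 ht hKne
  set K := acl ({t} : Set F) with hK
  have hζK : ζ ∈ K := acl_mono (Set.empty_subset _) hζk
  obtain ⟨p, hp⟩ := ExpChar.exists F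
  set f : Equiv.Perm (OnePoint F) := σ * mulP ζ * σ⁻¹ with hf
  have hfH : f ∈ H := H.mul_mem (H.mul_mem hσ (s.hG (mulP_mem_GG ζ))) (H.inv_mem hσ)
  have hσinv : σ⁻¹ ∞ = ∞ := by rw [Equiv.Perm.inv_eq_iff_eq, hσinf]
  have hfinf : f ∞ = ∞ := by
    simp [hf, Equiv.Perm.mul_apply, hσinv, hσinf]
  have hf0 : f ((0 : F) : OnePoint F) = ((0 : F) : OnePoint F) := by
    have h1 : σ⁻¹ ((0 : F) : OnePoint F) = ((0 : F) : OnePoint F) := by
      rw [Equiv.Perm.inv_eq_iff_eq, hσ0]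
    rw [hf, Equiv.Perm.mul_apply, Equiv.Perm.mul_apply, h1, mulP_coe hζ0, mul_zero, hσ0]
  have hf1 : f ((1 : F) : OnePoint F) = (b : OnePoint F) := by
    have h1 : σ⁻¹ ((1 : F) : OnePoint F) = ((1 : F) : OnePoint F) := by
      rw [Equiv.Perm.inv_eq_iff_eq, hσ1]
    rw [hf, Equiv.Perm.mul_apply, Equiv.Perm.mul_apply, h1, mulP_coe hζ0, mul_one, hσζ]
  have hfe : f ^ e = 1 := by
    have h1 : ∀ m : ℕ, f ^ m = σ * mulP ζ ^ m * σ⁻¹ := by
      intro m; rw [hf]; exact conj_pow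
    rw [h1]
    have h2 : ∀ m : ℕ, mulP ζ ^ m = mulP (ζ ^ m) := by
      intro m
      induction m with
      | zero =>
        ext x; induction x using OnePoint.rec with
        | infty => simp
        | coe x => simp [mulP_coe one_ne_zero]
      | succ m ih =>
        rw [pow_succ, ih]
        ext x; induction x using OnePoint.rec with
        | infty => simp [Equiv.Perm.mul_apply]
        | coe x =>
          rw [Equiv.Perm.mul_apply, mulP_coe hζ0, mulP_coe (pow_ne_zero _ hζ0),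
            mulP_coe (pow_ne_zero _ hζ0), pow_succ, mul_assoc]
    rw [h2, hζe]
    have h3 : mulP (1 : F) = 1 := by
      ext x; induction x using OnePoint.rec with
      | infty => simp
      | coe x => simp [mulP_coe one_ne_zero]
    rw [h3]; group
  -- the second flat
  have hC2 : σ '' PP K ∈ JJ H (SS F) := image_mem_JJ (PP_mem_JJ H hG K hKne) hσ
  have hmem : ∀ x, x ∈ σ '' PP K ↔ σ⁻¹ x ∈ PP K := by
    intro x
    constructor
    · rintro ⟨y, hy, rfl⟩; simpa using hy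
    · intro hx; exact ⟨σ⁻¹ x, hx, by simp⟩
  have hfC : ∀ x, f x ∈ σ '' PP K ↔ x ∈ σ '' PP K := by
    intro x
    rw [hmem, hmem, hf, Equiv.Perm.mul_apply, Equiv.Perm.mul_apply, inv_apply_self',
      mulP_mem_PP hζK]
  have hcomm : ∀ φ : F ≃+* F, (∀ a ∈ K, φ a = a) → ∀ x, x ∉ σ '' PP K → autP φ x ∉ σ '' PP K →
      f (autP φ x) = autP φ (f x) ∧ f⁻¹ (autP φ x) = autP φ (f⁻¹ x) := by
    intro φ hφ x hx hx'
    have hφP : ∀ y ∈ PP K, autP φ y = y := by
      rintro y (rfl | ⟨a, ha, rfl⟩)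
      · rfl
      · rw [autP_coe, hφ a ha]
    rw [hmem] at hx hx'
    have h1 := hgc t ht (σ⁻¹ * autP φ * σ)
      (H.mul_mem (H.mul_mem (H.inv_mem hσ) (hG (autP_mem_GG φ))) hσ) (by
        intro y hy
        rw [Equiv.Perm.mul_apply, Equiv.Perm.mul_apply, hφP _ (hσC y hy)]
        simp) (σ⁻¹ x) hx (by simpa [Equiv.Perm.mul_apply] using hx')
    obtain ⟨h1, h2⟩ := h1
    constructor
    · have h3 := congrArg σ h1
      simp only [Equiv.Perm.mul_apply, apply_inv_self'] at h3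
      rw [hf]; simp only [Equiv.Perm.mul_apply]
      rw [← h3]
    · have h3 := congrArg σ h2
      have h4 : f⁻¹ = σ * mulP ζ⁻¹ * σ⁻¹ := by
        rw [hf, mul_inv_rev, mul_inv_rev, inv_inv, mul_assoc]
        congr 2
        rw [inv_eq_iff_mul_eq_one]
        ext x; induction x using OnePoint.rec with
        | infty => simp [Equiv.Perm.mul_apply]
        | coe x =>
          rw [Equiv.Perm.mul_apply, mulP_coe (inv_ne_zero hζ0), mulP_coe hζ0,
            mul_inv_cancel_left₀ hζ0]; rfl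
      simp only [Equiv.Perm.mul_apply, apply_inv_self'] at h3
      rw [h4]; simp only [Equiv.Perm.mul_apply]
      rw [← h3]
  obtain ⟨g, i, j, hg⟩ := eq_of_commuting p s hinf K hKne hC2 hfH hfinf hfC hcomm
  exact hbe (pow_eq_one_contra p hfinf hf0 hf1 hfe he0 g i j hg)

end Pool.Agent.MPa267
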