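import Pool.Agent.Lib.MP_a267a3_lc.Setup

/-!
# MP_a267a3_lc: the kappa lemma
-/

set_option autoImplicit false

namespace Pool.Agent.MPa267

open OnePoint

variable {F : Type*} [Field F]

/-- conclusion (*) of section 5 for the finite set `S` -/
def Star (H : Subgroup (Equiv.Perm (OnePoint F))) (S : Finset (OnePoint F)) : Prop :=
  (∀ x ∈ S, ∃ u ∈ UU F, x = (u : OnePoint F)) ∧
    ∀ v : F, v ∉ acl (∅ : Set F) → ∀ u ∈ UU F,
      ((u * v : F) : OnePoint F) ∈ Cl H (insert (v : OnePoint F) (S : Set (OnePoint F)))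

/-- images of `Cl (insert y A)` -/
theorem mem_Cl_image {H : Subgroup (Equiv.Perm (OnePoint F))} {h : Equiv.Perm (OnePoint F)}
    (hh : h ∈ H) {A : Set (OnePoint F)} {x y : OnePoint F} (hx : x ∈ Cl H (insert y A)) :
    h x ∈ Cl H (insert (h y) (h '' A)) := by
  have h1 : h x ∈ h '' (Cl H (insert y A)) := ⟨x, hx, rfl⟩
  rw [image_cl hh, Set.image_insert_eq] at h1
  exact h1

/-- the `κ`-lemma -/
theorem kappa [IsAlgClosed F] {H : Subgroup (Equiv.Perm (OnePoint F))} {n : ℕ}
    (s : Setup H n) {S : Finset (OnePoint F)} (hS : Star H S)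
    {h : Equiv.Perm (OnePoint F)} (hh : h ∈ H) {c : F} (hc : c ∉ acl (∅ : Set F))
    (hinf : h ∞ = ∞) (h0 : h ((0 : F) : OnePoint F) = ((0 : F) : OnePoint F))
    (hfix : ∀ x ∈ S, h x = x) (hfixc : ∀ x ∈ S, h (mulP c x) = mulP c x)
    {y z : F} (hy : y ∉ acl {c}) (hz : z ∉ acl {c})
    (hyz : h (y : OnePoint F) = (z : OnePoint F)) {u : F} (hu : u ∈ UU F) :
    ∃ κ ∈ acl (∅ : Set F), κ ≠ 0 ∧ (u ≠ 1 → κ ≠ 1) ∧
      h ((u * y : F) : OnePoint F) = ((κ * z : F) : OnePoint F) := by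
  classical
  have hk : IsAlgClosed (acl (∅ : Set F)) := isAlgClosed_acl _
  have hem : ∀ t : F, acl (∅ : Set F) ≤ acl {t} := fun t => acl_mono (Set.empty_subset _)
  have hself : ∀ t : F, t ∈ acl ({t} : Set F) := fun t => subset_acl _ rfl
  -- exchange for singletons
  have hexch : ∀ a b : F, a ∈ acl ({b} : Set F) → a ∉ acl (∅ : Set F) → b ∈ acl ({a} : Set F) := by
    intro a b hab ha
    have := acl_exchange (s := (∅ : Set F)) (x := b) (y := a) (by simpa using hab) ha
    simpa using this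
  have hc0 : c ≠ 0 := by rintro rfl; exact hc (Subfield.zero_mem _)
  have hy0 : y ≠ 0 := by rintro rfl; exact hy (Subfield.zero_mem _)
  have hz0 : z ≠ 0 := by rintro rfl; exact hz (Subfield.zero_mem _)
  have hu0 : u ≠ 0 := by
    rintro rfl
    obtain ⟨e, he, hue⟩ := hu
    have he0 : e ≠ 0 := by rintro rfl; simp at he
    rw [zero_pow he0] at hue
    exact zero_ne_one hue
  have hyk : y ∉ acl (∅ : Set F) := fun h1 => hy (hem c h1)
  have hzk : z ∉ acl (∅ : Set F) := fun h1 => hz (hem c h1)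
  have hycn : y / c ∉ acl ({c} : Set F) := by
    intro h1
    apply hy
    have := Subfield.mul_mem _ h1 (hself c)
    rwa [div_mul_cancel₀ _ hc0] at this
  have hzcn : z / c ∉ acl ({c} : Set F) := by
    intro h1
    apply hz
    have := Subfield.mul_mem _ h1 (hself c)
    rwa [div_mul_cancel₀ _ hc0] at this
  have hyck : y / c ∉ acl (∅ : Set F) := fun h1 => hycn (hem c h1)
  have hcz : c ∉ acl ({z} : Set F) := fun h1 => hz (hexch c z h1 hc)
  have hczc : c ∉ acl ({z / c} : Set F) := fun h1 => hzcn (hexch c (z / c) h1 hc)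
  have hkz : IsAlgClosed (acl ({z} : Set F)) := isAlgClosed_acl _
  have hkzc : IsAlgClosed (acl ({z / c} : Set F)) := isAlgClosed_acl _
  -- `S ⊂ P¹(k)`
  have hSk : ∀ x ∈ S, x ∈ PP (acl (∅ : Set F)) := by
    intro x hx
    obtain ⟨w, hw, rfl⟩ := hS.1 x hx
    rw [coe_mem_PP]; exact UU_subset_acl hw
  have himS : h '' (S : Set (OnePoint F)) = S := by
    ext x
    constructor
    · rintro ⟨a, ha, rfl⟩; rw [hfix a ha]; exact ha
    · intro hx; exact ⟨x, hx, hfix x hx⟩
  -- first statement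
  have h1 : h ((u * y : F) : OnePoint F) ∈ PP (acl ({z} : Set F)) := by
    have h2 := mem_Cl_image hh (hS.2 y hyk u hu)
    rw [himS, hyz] at h2
    refine Cl_subset_PP H s.hG (acl {z}) (acl_ne_top_of_not_mem hcz) ?_ h2
    rintro x (rfl | hx)
    · rw [coe_mem_PP]; exact hself z
    · exact PP_mono (hem z) (hSk x hx)
  -- second statement
  have hGc : mulP c ∈ H := s.hG (mulP_mem_GG c)
  have h2 : h ((u * y : F) : OnePoint F) ∈ Cl H (insert (z : OnePoint F) (mulP c '' (S : Set (OnePoint F)))) := by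
    have h3 := mem_Cl_image hGc (hS.2 (y / c) hyck u hu)
    rw [mulP_coe hc0, mulP_coe hc0, mul_div_cancel₀ _ hc0] at h3
    have h4 : c * (u * (y / c)) = u * y := by field_simp
    rw [h4] at h3
    have h5 := mem_Cl_image hh h3
    have h6 : h '' (mulP c '' (S : Set (OnePoint F))) = mulP c '' (S : Set (OnePoint F)) := by
      ext x
      constructor
      · rintro ⟨_, ⟨a, ha, rfl⟩, rfl⟩; rw [hfixc a ha]; exact ⟨a, ha, rfl⟩
      · rintro ⟨a, ha, rfl⟩; exact ⟨mulP c a, ⟨a, ha, rfl⟩, hfixc a ha⟩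
    rw [h6, hyz] at h5
    exact h5
  have h3 : (mulP c)⁻¹ (h ((u * y : F) : OnePoint F)) ∈ PP (acl ({z / c} : Set F)) := by
    have h4 := mem_Cl_image (H.inv_mem hGc) h2
    have h5 : (mulP c : Equiv.Perm (OnePoint F))⁻¹ (z : OnePoint F) = ((z / c : F) : OnePoint F) := by
      rw [Equiv.Perm.inv_eq_iff_eq, mulP_coe hc0, mul_div_cancel₀ _ hc0]
    have h6 : ((mulP c)⁻¹ : Equiv.Perm (OnePoint F)) '' (mulP c '' (S : Set (OnePoint F))) = S := by
      rw [← Set.image_comp]
      have : (((mulP c)⁻¹ : Equiv.Perm (OnePoint F)) ∘ (mulP c : Equiv.Perm (OnePoint F))) = id := by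
        funext x; exact inv_apply_self' _ _
      rw [this, Set.image_id]
    rw [h5, h6] at h4
    refine Cl_subset_PP H s.hG (acl {z / c}) (acl_ne_top_of_not_mem hczc) ?_ h4
    rintro x (rfl | hx)
    · rw [coe_mem_PP]; exact hself _
    · exact PP_mono (hem _) (hSk x hx)
  -- the value
  have hne : h ((u * y : F) : OnePoint F) ≠ ∞ := by
    intro h4
    rw [← hinf] at h4
    exact coe_ne_infty _ (h.injective h4)
  obtain ⟨w, hw⟩ := ne_infty_iff_exists.1 hne
  rw [← hw] at h1 h3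
  rw [coe_mem_PP] at h1
  have h5 : (mulP c : Equiv.Perm (OnePoint F))⁻¹ (w : OnePoint F) = ((w / c : F) : OnePoint F) := by
    rw [Equiv.Perm.inv_eq_iff_eq, mulP_coe hc0, mul_div_cancel₀ _ hc0]
  rw [h5, coe_mem_PP] at h3
  have hzc0 : z / c ≠ 0 := div_ne_zero hz0 hc0
  have hzcz : z / c ∉ acl ({z} : Set F) := by
    intro h6
    apply hcz
    have h7 := Subfield.div_mem _ (hself z) h6
    have h8 : z / (z / c) = c := by field_simp
    rwa [h8] at h7
  refine ⟨w / z, ?_, ?_, ?_, ?_⟩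
  · apply acl_inter hzcz
    · exact Subfield.div_mem _ h1 (hself z)
    · have h6 : w / z = (w / c) / (z / c) := by field_simp
      rw [h6]
      exact Subfield.div_mem _ h3 (hself _)
  · apply div_ne_zero _ hz0
    rintro rfl
    rw [← h0] at hw
    have h6 := h.injective hw
    exact mul_ne_zero hu0 hy0 (coe_eq_coe.1 h6).symm
  · intro hu1 h6
    have h7 : w = z := by rwa [div_eq_one_iff_eq hz0] at h6
    rw [h7, ← hyz] at hw
    have h8 := coe_eq_coe.1 (h.injective hw)
    apply hu1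
    have h9 : u * y = 1 * y := by rw [← h8, one_mul]
    exact mul_right_cancel₀ hy0 h9
  · rw [← hw, div_mul_cancel₀ _ hz0]

end Pool.Agent.MPa267
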