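import Pool.Agent.Lib.MP_a267a3_lc.T2
import Pool.Agent.Lib.MP_a267a3_lc.AbsC
import Pool.Agent.Lib.MP_a267a3_lc.AlgE

/-!
# MP_a267a3_lc: the set-up, configurations
-/

set_option autoImplicit false

namespace Pool.Agent.MPa267

open OnePoint

variable {F : Type*} [Field F]

/-- closure for the family of all `P¹(K)` -/
abbrev Cl (H : Subgroup (Equiv.Perm (OnePoint F))) (A : Set (OnePoint F)) : Set (OnePoint F) :=
  cl H (SS F) A

/-- the standing assumptions -/
structure Setup (H : Subgroup (Equiv.Perm (OnePoint F))) (n : ℕ) : Prop where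
  hG : GG F ≤ H
  abs : AbsSetup H (SS F) (PP (acl (∅ : Set F))) n
  four : 4 ≤ n

/-- closures of subsets of `P¹(K)` stay in `P¹(K)` -/
theorem Cl_subset_PP [IsAlgClosed F] (H : Subgroup (Equiv.Perm (OnePoint F))) (hG : GG F ≤ H)
    (K : Subfield F) [hK : IsAlgClosed K] (hne : K ≠ ⊤) {A : Set (OnePoint F)} (hA : A ⊆ PP K) :
    Cl H A ⊆ PP K := by
  refine cl_subset_of_mem_JJ ⟨⟨1, one_mem _, PP K, ⟨K, hK, hne, rfl⟩, fun _ hs => hs⟩,
    jor_PP H hG K⟩ hA

/-- `P¹(K)` is in `JJ` -/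
theorem PP_mem_JJ [IsAlgClosed F] (H : Subgroup (Equiv.Perm (OnePoint F))) (hG : GG F ≤ H)
    (K : Subfield F) [hK : IsAlgClosed K] (hne : K ≠ ⊤) : PP K ∈ JJ H (SS F) :=
  ⟨⟨1, one_mem _, PP K, ⟨K, hK, hne, rfl⟩, fun _ hs => hs⟩, jor_PP H hG K⟩

theorem acl_ne_top_of_not_mem {s : Set F} {t : F} (ht : t ∉ acl s) : acl s ≠ ⊤ := by
  intro h; rw [h] at ht; exact ht (Subfield.mem_top t)

/-- in transcendence degree at least two the abstract hypotheses hold -/
theorem exists_setup [IsAlgClosed F] (htr : ∃ t u : F, t ∉ acl (∅ : Set F) ∧ u ∉ acl {t})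
    (H : Subgroup (Equiv.Perm (OnePoint F))) (hG : GG F ≤ H) (hcl : IsClosedP H)
    (hne : ¬ H ≤ GG F) (hne' : H ≠ ⊤) : ∃ n, Setup H n := by
  obtain ⟨t, u, ht, hu⟩ := htr
  have h4 := four_transitive H hG hne ⟨t, ht⟩
  obtain ⟨n, hn4, hn, hn'⟩ := exists_degree H hcl hne' h4
  have hk : IsAlgClosed (acl (∅ : Set F)) := isAlgClosed_acl _
  have hkt : IsAlgClosed (acl ({t} : Set F)) := isAlgClosed_acl _
  have hku : IsAlgClosed (acl ({u} : Set F)) := isAlgClosed_acl _
  have htu : t ∉ acl ({u} : Set F) := by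
    intro h
    apply hu
    have h1 : t ∈ acl (insert u (∅ : Set F)) := by simpa using h
    have := acl_exchange h1 ht
    simpa using this
  refine ⟨n, hG, ⟨?_, ?_, ?_, ?_, hn, hn', by omega, ?_⟩, hn4⟩
  · rintro P ⟨K, hK, hKne, rfl⟩
    exact jor_PP H hG K
  · rintro P ⟨K, hK, hKne, rfl⟩ Q ⟨L, hL, hLne, rfl⟩ h hh
    exact not_cover H hG hcl hne' K L hKne hLne hh
  · exact ⟨_, hk, acl_ne_top_of_not_mem ht, rfl⟩
  · -- infinite
    have hinf : (acl (∅ : Set F) : Set F).Infinite :=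
      (UU_infinite (F := F)).mono UU_subset_acl
    refine Set.Infinite.mono ?_ (hinf.image (f := fun x : F => (x : OnePoint F))
      (fun x _ y _ h => coe_eq_coe.1 h))
    rintro _ ⟨x, hx, rfl⟩
    exact (coe_mem_PP _ _).2 hx
  · intro A hA
    refine ⟨(t : OnePoint F), (u : OnePoint F), ?_, ?_, ?_⟩
    · rw [coe_mem_PP]; exact ht
    · intro h
      have h1 : insert (t : OnePoint F) A ⊆ PP (acl {t}) := by
        rintro x (rfl | hx)
        · rw [coe_mem_PP]; exact subset_acl _ rfl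
        · exact PP_mono (acl_mono (Set.empty_subset _)) (hA hx)
      have h2 := Cl_subset_PP H hG (acl {t}) (acl_ne_top_of_not_mem hu) h1 h
      rw [coe_mem_PP] at h2
      exact hu h2
    · intro h
      have h1 : insert (u : OnePoint F) A ⊆ PP (acl {u}) := by
        rintro x (rfl | hx)
        · rw [coe_mem_PP]; exact subset_acl _ rfl
        · exact PP_mono (acl_mono (Set.empty_subset _)) (hA hx)
      have h2 := Cl_subset_PP H hG (acl {u}) (acl_ne_top_of_not_mem htu) h1 h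
      rw [coe_mem_PP] at h2
      exact htu h2

/-! ## Configurations -/

/-- `E ∪ μ_m ∪ tμ_m` -/
def TT (E : Set (OnePoint F)) (m : ℕ) (t : F) : Set (OnePoint F) :=
  E ∪ {x | ∃ u : F, u ^ m = 1 ∧ (x = (u : OnePoint F) ∨ x = ((t * u : F) : OnePoint F))}

/-- `{0, ∞}` -/
def EE (F : Type*) [Field F] : Set (OnePoint F) := {((0 : F) : OnePoint F), ∞}

end Pool.Agent.MPa267
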