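import Pool.Agent.Lib.MP_a267a3_lc.Setup

/-!
# MP_a267a3_lc: finite blocks
-/

set_option autoImplicit false

namespace Pool.Agent.MPa267

open OnePoint

variable {F : Type*} [Field F]

private lemma setupA_unit_mem {m : ℕ} (hm : (m : F) ≠ 0) {u : F} (hu : u ^ m = 1) :
    u ∈ acl (∅ : Set F) := UU_subset_acl ⟨m, hm, hu⟩

private lemma setupA_unit_ne {m : ℕ} (hm : (m : F) ≠ 0) {u : F} (hu : u ^ m = 1) : u ≠ 0 := by
  rintro rfl
  have hm0 : m ≠ 0 := by rintro rfl; exact hm (by simp)
  rw [zero_pow hm0] at hu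
  exact zero_ne_one hu

/-- cardinality of `T_t` -/
theorem TT_card [IsAlgClosed F] {m : ℕ} (hm : (m : F) ≠ 0) {t : F}
    (ht : t ∉ acl (∅ : Set F)) :
    (∃ A : Finset (OnePoint F), (A : Set (OnePoint F)) = TT ∅ m t ∧ A.card = 2 * m) ∧
    (∃ A : Finset (OnePoint F), (A : Set (OnePoint F)) = TT (EE F) m t ∧
      A.card = 2 * m + 2) := by
  classical
  obtain ⟨M, hMc, hM⟩ := exists_unit_group (F := F) m hm
  have ht0 : t ≠ 0 := by rintro rfl; exact ht (zero_mem _)
  let A1 : Finset (OnePoint F) := M.image (fun u : F => (u : OnePoint F))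
  let A2 : Finset (OnePoint F) := M.image (fun u : F => ((t * u : F) : OnePoint F))
  have h1 : A1.card = m := by
    rw [← hMc]
    exact Finset.card_image_of_injective _ (fun x y h => coe_eq_coe.1 h)
  have h2 : A2.card = m := by
    rw [← hMc]
    exact Finset.card_image_of_injective _ (fun x y h =>
      mul_left_cancel₀ ht0 (coe_eq_coe.1 h))
  have hdisj : Disjoint A1 A2 := by
    rw [Finset.disjoint_left]
    intro x hx1 hx2
    obtain ⟨u, hu, rfl⟩ := Finset.mem_image.mp hx1
    obtain ⟨v, hv, hvu⟩ := Finset.mem_image.mp hx2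
    have hvu' := coe_eq_coe.1 hvu
    rw [hM] at hu hv
    apply ht
    have hv0 := setupA_unit_ne hm hv
    have : t = u / v := by rw [← hvu']; field_simp
    rw [this]
    exact div_mem (setupA_unit_mem hm hu) (setupA_unit_mem hm hv)
  have hcard : (A1 ∪ A2).card = 2 * m := by
    rw [Finset.card_union_of_disjoint hdisj, h1, h2]; ring
  have hmem : ∀ x, x ∈ A1 ∪ A2 ↔
      ∃ u : F, u ^ m = 1 ∧ (x = (u : OnePoint F) ∨ x = ((t * u : F) : OnePoint F)) := by
    intro x
    simp only [A1, A2, Finset.mem_union, Finset.mem_image, hM]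
    constructor
    · rintro (⟨u, hu, rfl⟩ | ⟨u, hu, rfl⟩)
      · exact ⟨u, hu, Or.inl rfl⟩
      · exact ⟨u, hu, Or.inr rfl⟩
    · rintro ⟨u, hu, rfl | rfl⟩
      · exact Or.inl ⟨u, hu, rfl⟩
      · exact Or.inr ⟨u, hu, rfl⟩
  refine ⟨⟨A1 ∪ A2, ?_, hcard⟩, ⟨insert ((0 : F) : OnePoint F) (insert ∞ (A1 ∪ A2)), ?_, ?_⟩⟩
  · ext x
    rw [Finset.mem_coe, hmem]
    simp [TT]
  · ext x
    rw [Finset.mem_coe, Finset.mem_insert, Finset.mem_insert, hmem]
    rw [← or_assoc]
    rfl
  · rw [Finset.card_insert_of_notMem, Finset.card_insert_of_notMem, hcard]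
    · rw [hmem]
      rintro ⟨u, hu, h | h⟩
      · exact infty_ne_coe u h
      · exact infty_ne_coe (t * u) h
    · rw [Finset.mem_insert, hmem]
      rintro (h | ⟨u, hu, h | h⟩)
      · exact coe_ne_infty (0 : F) h
      · exact setupA_unit_ne hm hu (coe_eq_coe.1 h).symm
      · exact mul_ne_zero ht0 (setupA_unit_ne hm hu) (coe_eq_coe.1 h).symm

/-- divisibility for a finite block: `E ∪ μ_m` with `n` elements -/
theorem dvd_block [IsAlgClosed F] {H : Subgroup (Equiv.Perm (OnePoint F))} {n : ℕ}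
    (s : Setup H n) (E : Finset (OnePoint F)) (hE : (E : Set (OnePoint F)) ⊆ EE F)
    (m : ℕ) (hm : (m : F) ≠ 0) (hn : E.card + m = n) (A : Finset (OnePoint F))
    (hA : A.card = n) (B : Finset (OnePoint F)) (hB : (B : Set (OnePoint F)) = Cl H A) :
    ∃ B' : Finset (OnePoint F), B'.card = B.card ∧ (E : Set (OnePoint F)) ⊆ B' ∧
      (E = ∅ → (((0 : F) : OnePoint F) ∈ B' ↔ ∞ ∈ B')) ∧
      ∀ j : ℕ, ((B' : Set (OnePoint F)) ∩ EE F).ncard = j → m ∣ B'.card - j := by
  classical
  obtain ⟨M, hMc, hM⟩ := exists_unit_group (F := F) m hm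
  let A0 : Finset (OnePoint F) := M.image (fun u : F => (u : OnePoint F))
  have hA0 : ∀ x, x ∈ A0 ↔ ∃ u : F, u ^ m = 1 ∧ x = (u : OnePoint F) := by
    intro x
    simp only [A0, Finset.mem_image, hM]
    constructor
    · rintro ⟨u, hu, rfl⟩; exact ⟨u, hu, rfl⟩
    · rintro ⟨u, hu, rfl⟩; exact ⟨u, hu, rfl⟩
  have hA0c : A0.card = m := by
    rw [← hMc]
    exact Finset.card_image_of_injective _ (fun x y h => coe_eq_coe.1 h)
  have hEm : ∀ x ∈ E, x = ((0 : F) : OnePoint F) ∨ x = ∞ := by
    intro x hx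
    have := hE (Finset.mem_coe.mpr hx)
    simpa [EE] using this
  have hdisj : Disjoint E A0 := by
    rw [Finset.disjoint_left]
    intro x hx1 hx2
    obtain ⟨u, hu, rfl⟩ := (hA0 x).mp hx2
    rcases hEm _ hx1 with h | h
    · exact setupA_unit_ne hm hu (coe_eq_coe.1 h)
    · exact coe_ne_infty u h
  set A1 := E ∪ A0 with hA1
  have hA1c : A1.card = n := by
    rw [hA1, Finset.card_union_of_disjoint hdisj, hA0c, hn]
  obtain ⟨h, hh, himg⟩ := s.abs.block_transitive A A1 hA hA1c
  have hB' : ((B.image h : Finset (OnePoint F)) : Set (OnePoint F)) = Cl H (A1 : Set _) := by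
    rw [Finset.coe_image, hB]
    exact himg
  have hB'c : (B.image h).card = B.card := Finset.card_image_of_injective _ h.injective
  generalize hBB : B.image h = B' at hB' hB'c
  have hmemB : ∀ x, x ∈ B' ↔ x ∈ Cl H (A1 : Set (OnePoint F)) := by
    intro x
    rw [← Finset.mem_coe, hB']
  have hsub : ∀ x ∈ A1, x ∈ B' := fun x hx => (hmemB x).mpr (subset_cl _ (Finset.mem_coe.mpr hx))
  -- permutations in `H` preserving `A1` preserve `B'`
  have hpres : ∀ g ∈ H, (∀ x ∈ A1, g x ∈ B') → ∀ x, x ∈ B' → g x ∈ B' := by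
    intro g hg hgA x hx
    have h1 : ((A1.image g : Finset (OnePoint F)) : Set (OnePoint F)) ⊆ Cl H (A1 : Set _) := by
      rintro y hy
      obtain ⟨x, hx, rfl⟩ := Finset.mem_image.mp (Finset.mem_coe.mp hy)
      exact (hmemB _).mp (hgA x hx)
    have h2 := s.abs.block_eq A1 (A1.image g) hA1c
      (by rw [Finset.card_image_of_injective _ g.injective, hA1c]) h1
    rw [hmemB] at hx ⊢
    show g x ∈ Cl H (A1 : Set (OnePoint F))
    have h3 : g x ∈ g '' (Cl H (A1 : Set (OnePoint F))) := ⟨x, hx, rfl⟩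
    rw [show g '' (Cl H (A1 : Set (OnePoint F))) = Cl H (g '' (A1 : Set (OnePoint F))) from
      image_cl hg _, ← Finset.coe_image] at h3
    rw [show Cl H ((A1.image g : Finset (OnePoint F)) : Set (OnePoint F)) =
      Cl H (A1 : Set (OnePoint F)) from h2] at h3
    exact h3
  have hpres' : ∀ g ∈ H, (∀ x ∈ A1, g x ∈ B') → ∀ x, g x ∈ B' → x ∈ B' := by
    intro g hg hgA x hx
    have hinj : Set.InjOn g (B' : Set (OnePoint F)) := g.injective.injOn
    have hmap : Set.MapsTo g (B' : Set (OnePoint F)) (B' : Set (OnePoint F)) :=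
      fun y hy => hpres g hg hgA y hy
    have hsurj := Finset.surjOn_of_injOn_of_card_le g hmap hinj le_rfl
    obtain ⟨y, hy, hyx⟩ := hsurj hx
    rwa [← g.injective hyx]
  have hGH : ∀ a : F, mulP a ∈ H := fun a => s.hG (mulP_mem_GG a)
  have hmulE : ∀ (a : F) (x : OnePoint F), x ∈ E → mulP a x = x := by
    intro a x hx
    by_cases ha : a = 0
    · subst ha; rw [mulP_zero]; rfl
    rcases hEm x hx with rfl | rfl
    · rw [mulP_coe ha, mul_zero]
    · exact mulP_infty a
  have hmu : ∀ u : F, u ^ m = 1 → ∀ x ∈ B', mulP u x ∈ B' := by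
    intro u hu
    apply hpres _ (hGH u)
    intro x hx
    rw [hA1, Finset.mem_union] at hx
    rcases hx with hx | hx
    · rw [hmulE u x hx]
      exact hsub x (by rw [hA1, Finset.mem_union]; exact Or.inl hx)
    · obtain ⟨v, hv, rfl⟩ := (hA0 x).mp hx
      rw [mulP_coe (setupA_unit_ne hm hu)]
      apply hsub
      rw [hA1, Finset.mem_union]
      refine Or.inr ((hA0 _).mpr ⟨u * v, ?_, rfl⟩)
      rw [mul_pow, hu, hv, one_mul]
  have hmul : ∀ a : F, a ≠ 0 → (a : OnePoint F) ∈ B' → ∀ x ∈ A1, mulP a x ∈ B' := by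
    intro a ha haB x hx
    rw [hA1, Finset.mem_union] at hx
    rcases hx with hx | hx
    · rw [hmulE a x hx]
      exact hsub x (by rw [hA1, Finset.mem_union]; exact Or.inl hx)
    · obtain ⟨v, hv, rfl⟩ := (hA0 x).mp hx
      rw [mulP_coe ha, mul_comm]
      have := hmu v hv _ haB
      rwa [mulP_coe (setupA_unit_ne hm hv)] at this
  have h1B : ((1 : F) : OnePoint F) ∈ B' := by
    apply hsub
    rw [hA1, Finset.mem_union]
    exact Or.inr ((hA0 _).mpr ⟨1, one_pow m, rfl⟩)
  -- the group
  let G' : Subgroup Fˣ :=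
    { carrier := {a | ((a : F) : OnePoint F) ∈ B'}
      one_mem' := by
        show (((1 : Fˣ) : F) : OnePoint F) ∈ B'
        rw [Units.val_one]; exact h1B
      mul_mem' := by
        intro a b ha hb
        show (((a * b : Fˣ) : F) : OnePoint F) ∈ B'
        rw [Units.val_mul]
        have := hpres _ (hGH a) (hmul a a.ne_zero ha) _ hb
        rwa [mulP_coe a.ne_zero] at this
      inv_mem' := by
        intro a ha
        show (((a⁻¹ : Fˣ) : F) : OnePoint F) ∈ B'
        apply hpres' _ (hGH a) (hmul a a.ne_zero ha)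
        rw [mulP_coe a.ne_zero]
        rw [Units.mul_inv]
        exact h1B }
  have hmemG : ∀ a : Fˣ, a ∈ G' ↔ ((a : F) : OnePoint F) ∈ B' := fun a => Iff.rfl
  let R : Subgroup Fˣ := rootsOfUnity m F
  have hRG : R ≤ G' := by
    intro a ha
    rw [hmemG]
    apply hsub
    rw [hA1, Finset.mem_union]
    refine Or.inr ((hA0 _).mpr ⟨a, ?_, rfl⟩)
    have ha' : a ^ m = 1 := (mem_rootsOfUnity m a).mp ha
    rw [← Units.val_pow_eq_pow_val, ha', Units.val_one]
  have hdvd := Subgroup.card_dvd_of_le hRG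
  have hRc : Nat.card R = m := by
    rw [← hMc]
    have e : R ≃ M :=
      { toFun := fun a => ⟨((a : Fˣ) : F), by
          rw [hM]
          have ha' : (a : Fˣ) ^ m = 1 := (mem_rootsOfUnity m _).mp a.2
          rw [← Units.val_pow_eq_pow_val, ha', Units.val_one]⟩
        invFun := fun u => ⟨Units.mk0 (u : F) (setupA_unit_ne hm ((hM _).mp u.2)), by
          rw [mem_rootsOfUnity]
          ext
          rw [Units.val_pow_eq_pow_val, Units.val_mk0, Units.val_one]
          exact (hM _).mp u.2⟩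
        left_inv := fun a => by ext; simp
        right_inv := fun u => by ext; simp }
    rw [Nat.card_congr e]
    simp
  have hGc : Nat.card G' = (B'.filter (fun x => x ∉ EE F)).card := by
    have e : G' ≃ {x // x ∈ B'.filter (fun x => x ∉ EE F)} :=
      { toFun := fun a => ⟨(((a : Fˣ) : F) : OnePoint F), by
          rw [Finset.mem_filter]
          refine ⟨a.2, ?_⟩
          simp only [EE, Set.mem_insert_iff, Set.mem_singleton_iff, not_or]
          exact ⟨fun h => a.1.ne_zero (coe_eq_coe.1 h), coe_ne_infty _⟩⟩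
        invFun := fun x => by
          have hx := (Finset.mem_filter.mp x.2)
          have hx2 : ¬ (x.1 = ((0 : F) : OnePoint F) ∨ x.1 = ∞) := by
            simpa [EE] using hx.2
          push Not at hx2
          have hex : ∃ a : F, (a : OnePoint F) = x.1 := ne_infty_iff_exists.mp hx2.2
          exact ⟨Units.mk0 hex.choose (by
            intro h0
            apply hx2.1
            rw [← hex.choose_spec, h0]), by
            rw [hmemG, Units.val_mk0, hex.choose_spec]
            exact hx.1⟩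
        left_inv := fun a => by
          ext
          simp only [Units.val_mk0]
          apply coe_eq_coe.1
          generalize_proofs h1 h2
          exact h1.choose_spec
        right_inv := fun x => by
          ext1
          simp only [Units.val_mk0]
          generalize_proofs h1 h2
          exact h1.choose_spec }
    rw [Nat.card_congr e, Nat.card_eq_fintype_card, Fintype.card_coe]
  refine ⟨B', hB'c, ?_, ?_, ?_⟩
  · intro x hx
    exact hsub x (by rw [hA1, Finset.mem_union]; exact Or.inl (Finset.mem_coe.mp hx))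
  · intro hE0
    have hinv : ∀ x ∈ A1, (invP : Equiv.Perm (OnePoint F)) x ∈ B' := by
      intro x hx
      rw [hA1, hE0, Finset.empty_union] at hx
      obtain ⟨v, hv, rfl⟩ := (hA0 x).mp hx
      rw [invP_coe (setupA_unit_ne hm hv)]
      apply hsub
      rw [hA1, Finset.mem_union]
      refine Or.inr ((hA0 _).mpr ⟨v⁻¹, ?_, rfl⟩)
      rw [inv_pow, hv, inv_one]
    constructor
    · intro h0
      have := hpres _ (s.hG invP_mem_GG) hinv _ h0
      rwa [invP_zero] at this
    · intro h0
      have := hpres _ (s.hG invP_mem_GG) hinv _ h0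
      rwa [invP_infty] at this
  · intro j hj
    rw [hRc, hGc] at hdvd
    have hpart := Finset.card_filter_add_card_filter_not (s := B') (fun x => x ∈ EE F)
    have hj' : (B'.filter (fun x => x ∈ EE F)).card = j := by
      rw [← hj, ← Set.ncard_coe_finset]
      congr 1
      ext x
      simp
    have : B'.card - j = (B'.filter (fun x => x ∉ EE F)).card := by omega
    rw [this]
    exact hdvd

private lemma setupA_ncard (S : Set (OnePoint F)) :
    ((S ∩ EE F).ncard = 0 ∧ ((0 : F) : OnePoint F) ∉ S ∧ ∞ ∉ S) ∨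
    ((S ∩ EE F).ncard = 1 ∧ ((0 : F) : OnePoint F) ∈ S ∧ ∞ ∉ S) ∨
    ((S ∩ EE F).ncard = 1 ∧ ((0 : F) : OnePoint F) ∉ S ∧ ∞ ∈ S) ∨
    ((S ∩ EE F).ncard = 2 ∧ ((0 : F) : OnePoint F) ∈ S ∧ ∞ ∈ S) := by
  by_cases h0 : ((0 : F) : OnePoint F) ∈ S
  · by_cases h1 : ∞ ∈ S
    · refine Or.inr (Or.inr (Or.inr ⟨?_, h0, h1⟩))
      have : S ∩ EE F = {((0 : F) : OnePoint F), ∞} := by
        ext x
        simp only [EE, Set.mem_inter_iff, Set.mem_insert_iff, Set.mem_singleton_iff]
        constructor
        · exact fun h => h.2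
        · rintro (rfl | rfl)
          · exact ⟨h0, Or.inl rfl⟩
          · exact ⟨h1, Or.inr rfl⟩
      rw [this]
      exact Set.ncard_pair (coe_ne_infty _)
    · refine Or.inr (Or.inl ⟨?_, h0, h1⟩)
      have : S ∩ EE F = {((0 : F) : OnePoint F)} := by
        ext x
        simp only [EE, Set.mem_inter_iff, Set.mem_insert_iff, Set.mem_singleton_iff]
        constructor
        · rintro ⟨hx, rfl | rfl⟩
          · rfl
          · exact absurd hx h1
        · rintro rfl
          exact ⟨h0, Or.inl rfl⟩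
      rw [this]
      exact Set.ncard_singleton _
  · by_cases h1 : ∞ ∈ S
    · refine Or.inr (Or.inr (Or.inl ⟨?_, h0, h1⟩))
      have : S ∩ EE F = {∞} := by
        ext x
        simp only [EE, Set.mem_inter_iff, Set.mem_insert_iff, Set.mem_singleton_iff]
        constructor
        · rintro ⟨hx, rfl | rfl⟩
          · exact absurd hx h0
          · rfl
        · rintro rfl
          exact ⟨h1, Or.inr rfl⟩
      rw [this]
      exact Set.ncard_singleton _
    · refine Or.inl ⟨?_, h0, h1⟩
      have : S ∩ EE F = ∅ := by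
        ext x
        simp only [EE, Set.mem_inter_iff, Set.mem_insert_iff, Set.mem_singleton_iff,
          Set.mem_empty_iff_false, iff_false, not_and]
        rintro hx (rfl | rfl)
        · exact h0 hx
        · exact h1 hx
      rw [this]
      exact Set.ncard_empty _

/-- (section 4) -/
theorem finite_block [IsAlgClosed F] {H : Subgroup (Equiv.Perm (OnePoint F))} {n : ℕ}
    (s : Setup H n) (hodd : Odd n) (A B : Finset (OnePoint F)) (hA : A.card = n)
    (hB : (B : Set (OnePoint F)) = Cl H A) : 2 * n - 2 < B.card := by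
  classical
  by_contra hle
  push Not at hle
  have h4 := s.four
  have h5 : 5 ≤ n := by
    obtain ⟨r, hr⟩ := hodd
    omega
  -- `n < b`
  have hAB : A ⊆ B := by
    intro x hx
    rw [← Finset.mem_coe, hB]
    exact subset_cl _ (Finset.mem_coe.mpr hx)
  have hlt : n < B.card := by
    rw [← hA]
    apply Finset.card_lt_card
    rw [Finset.ssubset_iff_subset_ne]
    refine ⟨hAB, ?_⟩
    intro h
    have := s.abs.cl_ne_of_card_eq A hA
    apply this
    rw [h]
    rw [h] at hB
    exact hB.symm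
  -- the three divisibilities
  have hE1 : ((({((0 : F) : OnePoint F), ∞} : Finset (OnePoint F))) : Set (OnePoint F)) ⊆
      EE F := by
    intro x hx
    simpa [EE] using hx
  have hE2 : ((({∞} : Finset (OnePoint F))) : Set (OnePoint F)) ⊆ EE F := by
    intro x hx
    have : x = ∞ := by simpa using hx
    rw [this]
    simp [EE]
  have hE1c : ({((0 : F) : OnePoint F), ∞} : Finset (OnePoint F)).card = 2 :=
    Finset.card_pair (coe_ne_infty _)
  have ha : (n : F) ≠ 0 → B.card = n + 2 := by
    intro hn0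
    obtain ⟨B', hc, -, hz, hd⟩ := dvd_block s ∅ (by simp) n hn0 (by simp) A hA B hB
    have hz' := hz rfl
    rcases setupA_ncard (B' : Set (OnePoint F)) with ⟨hj, h0, h1⟩ | ⟨hj, h0, h1⟩ |
      ⟨hj, h0, h1⟩ | ⟨hj, h0, h1⟩
    · obtain ⟨c, hcc⟩ := hd _ hj
      rw [hc, Nat.sub_zero] at hcc
      have : c = 1 ∨ c = 0 ∨ 2 ≤ c := by omega
      rcases this with rfl | rfl | hc2
      · omega
      · omega
      · have := Nat.mul_le_mul_left n hc2
        omega
    · exact absurd (hz'.mp h0) h1
    · exact absurd (hz'.mpr h1) h0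
    · obtain ⟨c, hcc⟩ := hd _ hj
      rw [hc] at hcc
      have : c = 1 ∨ c = 0 ∨ 2 ≤ c := by omega
      rcases this with rfl | rfl | hc2
      · omega
      · omega
      · have := Nat.mul_le_mul_left n hc2
        omega
  have hb : ((n - 2 : ℕ) : F) ≠ 0 → B.card = 2 * n - 2 := by
    intro hn0
    obtain ⟨B', hc, hEB, -, hd⟩ := dvd_block s {((0 : F) : OnePoint F), ∞} hE1 (n - 2) hn0
      (by rw [hE1c]; omega) A hA B hB
    have h0' : ((0 : F) : OnePoint F) ∈ (B' : Set (OnePoint F)) := hEB (by simp)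
    have h1' : ∞ ∈ (B' : Set (OnePoint F)) := hEB (by simp)
    rcases setupA_ncard (B' : Set (OnePoint F)) with ⟨hj, h0, h1⟩ | ⟨hj, h0, h1⟩ |
      ⟨hj, h0, h1⟩ | ⟨hj, h0, h1⟩
    · exact absurd h0' h0
    · exact absurd h1' h1
    · exact absurd h0' h0
    · obtain ⟨c, hcc⟩ := hd _ hj
      rw [hc] at hcc
      have : c = 1 ∨ c = 0 ∨ c = 2 ∨ 3 ≤ c := by omega
      rcases this with rfl | rfl | rfl | hc2
      · omega
      · omega
      · omega
      · have := Nat.mul_le_mul_left (n - 2) hc2
        omega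
  have hc' : ((n - 1 : ℕ) : F) ≠ 0 → (n - 1 ∣ B.card - 1) ∨ (n - 1 ∣ B.card - 2) := by
    intro hn0
    obtain ⟨B', hc, hEB, -, hd⟩ := dvd_block s {∞} hE2 (n - 1) hn0
      (by rw [Finset.card_singleton]; omega) A hA B hB
    have h1' : ∞ ∈ (B' : Set (OnePoint F)) := hEB (by simp)
    rcases setupA_ncard (B' : Set (OnePoint F)) with ⟨hj, h0, h1⟩ | ⟨hj, h0, h1⟩ |
      ⟨hj, h0, h1⟩ | ⟨hj, h0, h1⟩
    · exact absurd h1' h1
    · exact absurd h1' h1
    · left
      rw [← hc]
      exact hd _ hj
    · right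
      rw [← hc]
      exact hd _ hj
  by_cases h1 : (n : F) = 0
  · -- `(n : F) = 0`
    have h2 : ((n - 2 : ℕ) : F) ≠ 0 := by
      intro h2
      have h3 : (n : F) = ((n - 2 : ℕ) : F) + 2 := by
        have : ((n - 2 + 2 : ℕ) : F) = ((n - 2 : ℕ) : F) + 2 := by push_cast; ring
        rw [← this]
        congr 1
        omega
      rw [h1, h2, zero_add] at h3
      obtain ⟨r, hr⟩ := hodd
      rw [hr] at h1
      push_cast at h1
      rw [← h3] at h1
      simp at h1
    have hbb := hb h2
    have h3 : ((n - 1 : ℕ) : F) ≠ 0 := by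
      intro h3
      have h4 : (n : F) = ((n - 1 : ℕ) : F) + 1 := by
        have : ((n - 1 + 1 : ℕ) : F) = ((n - 1 : ℕ) : F) + 1 := by push_cast; ring
        rw [← this]
        congr 1
        omega
      rw [h1, h3, zero_add] at h4
      exact zero_ne_one h4
    rcases hc' h3 with hd | hd
    · rw [hbb] at hd
      have h6 : n - 1 ∣ 2 * (n - 1) := Dvd.intro_left 2 rfl
      have h7 : n - 1 ∣ 2 * (n - 1) - (2 * n - 2 - 1) := Nat.dvd_sub h6 hd
      have h8 : 2 * (n - 1) - (2 * n - 2 - 1) = 1 := by omega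
      rw [h8] at h7
      have := Nat.le_of_dvd one_pos h7
      omega
    · rw [hbb] at hd
      have h6 : n - 1 ∣ 2 * (n - 1) := Dvd.intro_left 2 rfl
      have h7 : n - 1 ∣ 2 * (n - 1) - (2 * n - 2 - 2) := Nat.dvd_sub h6 hd
      have h8 : 2 * (n - 1) - (2 * n - 2 - 2) = 2 := by omega
      rw [h8] at h7
      have := Nat.le_of_dvd two_pos h7
      omega
  · have haa := ha h1
    by_cases h2 : ((n - 2 : ℕ) : F) = 0
    · have h3 : ((n - 1 : ℕ) : F) ≠ 0 := by
        have h4 : ((n - 1 : ℕ) : F) = ((n - 2 : ℕ) : F) + 1 := by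
          have : ((n - 2 + 1 : ℕ) : F) = ((n - 2 : ℕ) : F) + 1 := by push_cast; ring
          rw [← this]
          congr 1
          omega
        rw [h4, h2, zero_add]
        exact one_ne_zero
      rcases hc' h3 with hd | hd
      · rw [haa] at hd
        have h7 : n - 1 ∣ (n + 2 - 1) - (n - 1) := Nat.dvd_sub hd dvd_rfl
        have h8 : (n + 2 - 1) - (n - 1) = 2 := by omega
        rw [h8] at h7
        have := Nat.le_of_dvd two_pos h7
        omega
      · rw [haa] at hd
        have h7 : n - 1 ∣ (n + 2 - 2) - (n - 1) := Nat.dvd_sub hd dvd_rfl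
        have h8 : (n + 2 - 2) - (n - 1) = 1 := by omega
        rw [h8] at h7
        have := Nat.le_of_dvd one_pos h7
        omega
    · have hbb := hb h2
      omega

end Pool.Agent.MPa267
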