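import Pool.Agent.Lib.MP_a267a3_lc.T1B

/-!
# MP_a267a3_lc: Hua trick
-/

set_option autoImplicit false

namespace Pool.Agent.MPa267

open OnePoint

variable {F : Type*} [Field F]

private lemma T1D_fieldA (a c : F) (ha : a ≠ 0) (ha1 : a + 1 ≠ 0) (hc : c ≠ 0)
    (h : a⁻¹ + -(a + 1)⁻¹ = c⁻¹) : c = a * (a + 1) := by
  field_simp at h
  linear_combination h

private lemma T1D_fieldB (a c : F) (ha1 : a + 1 ≠ 0) (hc : a + c ≠ 0)
    (h : (a + 1)⁻¹ + ((a + 1) ^ 2)⁻¹ = (a + c)⁻¹) :
    (a + 1 + 1) * (a + c) = (a + 1) ^ 2 := by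
  have e1 : (a + 1)⁻¹ + ((a + 1) ^ 2)⁻¹ = (a + 1 + 1) / (a + 1) ^ 2 := by
    field_simp
  rw [e1, div_eq_iff (pow_ne_zero 2 ha1)] at h
  rw [h, mul_assoc, mul_comm _ (a + c), ← mul_assoc, inv_mul_cancel₀ hc, one_mul]

/-- the squaring identity: if `f, g` are additive, `f(u⁻¹) = g(u)⁻¹` for `u ≠ 0`, `g` does not vanish outside
`0` and `g 1 = 1`, then `g` commutes with squaring. -/
private lemma T1D_sq (f g : F → F) (hadd : ∀ x y, f (x + y) = f x + f y)
    (hadd' : ∀ x y, g (x + y) = g x + g y) (g1 : g 1 = 1)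
    (hg0 : ∀ x, x ≠ 0 → g x ≠ 0) (hfg : ∀ u, u ≠ 0 → f u⁻¹ = (g u)⁻¹) (x : F) :
    g (x ^ 2) = g x ^ 2 := by
  have g0 : g 0 = 0 := by
    have := hadd' 0 0
    rw [add_zero] at this
    linear_combination -this
  have gneg : ∀ y, g (-y) = - g y := by
    intro y
    have := hadd' y (-y)
    rw [add_neg_cancel, g0] at this
    linear_combination -this
  have f0 : f 0 = 0 := by
    have := hadd 0 0
    rw [add_zero] at this
    linear_combination -this
  have fneg : ∀ y, f (-y) = - f y := by
    intro y
    have := hadd y (-y)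
    rw [add_neg_cancel, f0] at this
    linear_combination -this
  by_cases hx : x = 0
  · subst hx; simp [g0]
  by_cases hx1 : x + 1 = 0
  · have : x = -1 := by linear_combination hx1
    subst this
    rw [gneg, g1]
    norm_num [g1]
  have hx2 : x ^ 2 + x ≠ 0 := by
    have : x ^ 2 + x = x * (x + 1) := by ring
    rw [this]
    exact mul_ne_zero hx hx1
  have key : x⁻¹ + -(x + 1)⁻¹ = (x ^ 2 + x)⁻¹ := by
    field_simp
    ring
  have h1 := congrArg f key
  rw [hadd, fneg, hfg x hx, hfg _ hx1, hfg _ hx2, hadd' x 1, g1] at h1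
  have a1 : g x ≠ 0 := hg0 x hx
  have a2 : g x + 1 ≠ 0 := by
    have := hg0 _ hx1
    rwa [hadd', g1] at this
  have a3 : g (x ^ 2 + x) ≠ 0 := hg0 _ hx2
  have h2 : g (x ^ 2 + x) = g x * (g x + 1) := T1D_fieldA _ _ a1 a2 a3 h1
  rw [hadd'] at h2
  linear_combination h2

/-- Hua's trick -/
theorem aut_of_additive [IsAlgClosed F] (h : Equiv.Perm (OnePoint F)) (hinf : h ∞ = ∞)
    (h1 : h ((1 : F) : OnePoint F) = ((1 : F) : OnePoint F))
    (f f' : F → F) (hf : ∀ x : F, h (x : OnePoint F) = (f x : OnePoint F))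
    (hf' : ∀ x : F, (invP * h * invP : Equiv.Perm (OnePoint F)) (x : OnePoint F) =
      (f' x : OnePoint F))
    (hadd : ∀ x y, f (x + y) = f x + f y) (hadd' : ∀ x y, f' (x + y) = f' x + f' y) :
    ∃ φ : F ≃+* F, h = autP φ := by
  have f0 : f 0 = 0 := by
    have := hadd 0 0
    rw [add_zero] at this
    linear_combination -this
  have finj : Function.Injective f := by
    intro x y hxy
    have : h (x : OnePoint F) = h (y : OnePoint F) := by rw [hf, hf, hxy]
    exact OnePoint.coe_injective (h.injective this)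
  have fsurj : Function.Surjective f := by
    intro y
    obtain ⟨z, hz⟩ := h.surjective (y : OnePoint F)
    induction z using OnePoint.rec with
    | infty => rw [hinf] at hz; exact absurd hz (OnePoint.infty_ne_coe y)
    | coe z => rw [hf] at hz; exact ⟨z, OnePoint.coe_injective hz⟩
  have f1 : f 1 = 1 := by
    have := hf 1
    rw [h1] at this
    exact (OnePoint.coe_injective this).symm
  have hfn0 : ∀ x, x ≠ 0 → f x ≠ 0 := fun x hx h0 => hx (finj (by rw [h0, f0]))
  have hf'f : ∀ u, u ≠ 0 → f' u = (f u⁻¹)⁻¹ := by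
    intro u hu
    have := hf' u
    rw [Equiv.Perm.mul_apply, Equiv.Perm.mul_apply, invP_coe hu, hf,
      invP_coe (hfn0 _ (inv_ne_zero hu))] at this
    exact (OnePoint.coe_injective this).symm
  have hf'n0 : ∀ x, x ≠ 0 → f' x ≠ 0 := by
    intro x hx
    rw [hf'f x hx]
    exact inv_ne_zero (hfn0 _ (inv_ne_zero hx))
  have f'1 : f' 1 = 1 := by rw [hf'f 1 one_ne_zero, inv_one, f1, inv_one]
  have hff' : ∀ u, u ≠ 0 → f u⁻¹ = (f' u)⁻¹ := by
    intro u hu
    rw [hf'f u hu, inv_inv]
  have hf'f2 : ∀ u, u ≠ 0 → f' u⁻¹ = (f u)⁻¹ := by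
    intro u hu
    rw [hf'f _ (inv_ne_zero hu), inv_inv]
  have sq' : ∀ x, f' (x ^ 2) = f' x ^ 2 := T1D_sq f f' hadd hadd' f'1 hf'n0 hff'
  have sq : ∀ x, f (x ^ 2) = f x ^ 2 := T1D_sq f' f hadd' hadd f1 hfn0 hf'f2
  have fneg : ∀ y, f (-y) = - f y := by
    intro y
    have := hadd y (-y)
    rw [add_neg_cancel, f0] at this
    linear_combination -this
  have fmul : ∀ x y, f (x * y) = f x * f y := by
    by_cases h2 : (2 : F) = 0
    · -- characteristic two
      have hchar : ∀ x : F, x + x = 0 := by
        intro x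
        linear_combination x * h2
      -- f = f'
      have hinv : ∀ x, x ≠ 0 → f x⁻¹ = (f x)⁻¹ := by
        intro x hx
        by_cases hx1 : x + 1 = 0
        · have : x = 1 := by linear_combination hx1 - h2
          rw [this]; simp [f1]
        have e1 : x + x⁻¹ = (x + 1) ^ 2 * x⁻¹ := by
          field_simp
          linear_combination -x * h2
        have hx2 : x + x⁻¹ ≠ 0 := by
          rw [e1]
          exact mul_ne_zero (pow_ne_zero _ hx1) (inv_ne_zero hx)
        have key : (x + 1)⁻¹ + ((x + 1) ^ 2)⁻¹ = (x + x⁻¹)⁻¹ := by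
          rw [e1]
          field_simp
          linear_combination h2
        have h3 := congrArg f key
        rw [hadd, hff' _ hx1, hff' _ (pow_ne_zero _ hx1), hff' _ hx2, sq', hadd' x 1, f'1,
          hadd' x x⁻¹] at h3
        have a1 : f' x ≠ 0 := hf'n0 x hx
        have a2 : f' x + 1 ≠ 0 := by
          have := hf'n0 _ hx1
          rwa [hadd', f'1] at this
        have a3 : f' x + f' x⁻¹ ≠ 0 := by
          rw [← hadd']
          exact hf'n0 _ hx2
        have h4 : (f' x + 1 + 1) * (f' x + f' x⁻¹) = (f' x + 1) ^ 2 :=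
          T1D_fieldB _ _ a2 a3 h3
        have h5 : f' x * f' x⁻¹ = 1 := by
          linear_combination h4 - (f' x⁻¹) * h2
        rw [hf'f2 x hx] at h5
        have a4 := hfn0 x hx
        have h6 : f' x = f x := by
          field_simp at h5
          exact h5
        rw [hff' x hx, h6]
      -- Hua's identity
      have hua : ∀ a b, f (a ^ 2 * b) = f a ^ 2 * f b := by
        intro a b
        by_cases ha : a = 0
        · subst ha; simp [f0]
        by_cases hb : b = 0
        · subst hb; simp [f0]
        have hfa := hfn0 a ha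
        have hfb := hfn0 b hb
        by_cases hab : 1 - a * b = 0
        · have : b = a⁻¹ := by
            refine eq_inv_of_mul_eq_one_left ?_
            linear_combination -hab
          subst this
          rw [hinv a ha]
          have : a ^ 2 * a⁻¹ = a := by field_simp
          rw [this]
          field_simp
        have hab' : b⁻¹ + -a ≠ 0 := by
          intro hc
          apply hab
          field_simp at hc
          linear_combination hc
        have fab' : (f b)⁻¹ + -(f a) ≠ 0 := by
          have := hfn0 _ hab'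
          rwa [hadd, fneg, hinv b hb] at this
        have fab : 1 - f a * f b ≠ 0 := by
          intro hc
          apply fab'
          field_simp
          linear_combination hc
        have e1 : a⁻¹ + (b⁻¹ + -a)⁻¹ = (a * (1 - a * b))⁻¹ := by
          have : b⁻¹ + -a = (1 - a * b) / b := by field_simp; ring
          rw [this]
          field_simp
          ring
        have e1' : (f a)⁻¹ + ((f b)⁻¹ + -(f a))⁻¹ = (f a * (1 - f a * f b))⁻¹ := by
          have : (f b)⁻¹ + -(f a) = (1 - f a * f b) / f b := by field_simp; ring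
          rw [this]
          field_simp
          ring
        have hc0 : a⁻¹ + (b⁻¹ + -a)⁻¹ ≠ 0 := by
          rw [e1]
          exact inv_ne_zero (mul_ne_zero ha hab)
        have h7 : f (a + -(a⁻¹ + (b⁻¹ + -a)⁻¹)⁻¹) = f a + -((f a)⁻¹ + ((f b)⁻¹ + -(f a))⁻¹)⁻¹ := by
          rw [hadd, fneg, hinv _ hc0, hadd, hinv a ha, hinv _ hab', hadd, fneg, hinv b hb]
        rw [e1, e1', inv_inv, inv_inv] at h7
        have e2 : a + -(a * (1 - a * b)) = a ^ 2 * b := by ring
        rw [e2] at h7
        rw [h7]
        ring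
      intro x y
      obtain ⟨z, hz⟩ := IsAlgClosed.exists_pow_nat_eq x (n := 2) (by norm_num)
      rw [← hz, hua, sq]
    · intro x y
      have h3 := sq (x + y)
      have e : (x + y) ^ 2 = x ^ 2 + (x * y + x * y) + y ^ 2 := by ring
      rw [e, hadd, hadd, hadd, sq, sq, hadd] at h3
      have h4 : 2 * (f (x * y) - f x * f y) = 0 := by linear_combination h3
      rcases mul_eq_zero.1 h4 with h5 | h5
      · exact absurd h5 h2
      · linear_combination h5
  let φ0 : F →+* F :=
    { toFun := f
      map_one' := f1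
      map_mul' := fmul
      map_zero' := f0
      map_add' := hadd }
  refine ⟨RingEquiv.ofBijective φ0 ⟨finj, fsurj⟩, ?_⟩
  ext x : 1
  induction x using OnePoint.rec with
  | infty => rw [hinf, autP_infty]
  | coe x => rw [hf, autP_coe]; rfl

end Pool.Agent.MPa267
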