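import Pool.Agent.Lib.MP_a267a3_lc.T1C
import Pool.Agent.Lib.MP_a267a3_lc.T1D

/-!
# MP_a267a3_lc: a group strictly containing PΓL₂(F) is 4-transitive
-/

set_option autoImplicit false

namespace Pool.Agent.MPa267

open OnePoint

variable {F : Type*} [Field F]

/-- (T1) -/
theorem four_transitive [IsAlgClosed F] (H : Subgroup (Equiv.Perm (OnePoint F)))
    (hG : GG F ≤ H) (hne : ¬ H ≤ GG F) (htr : ∃ t : F, t ∉ acl (∅ : Set F)) : MT H 4 := by
  by_contra h4
  obtain ⟨R, r1, r2, r3, r4, r5, r6, r7⟩ := exists_rel H hG h4 htr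
  obtain ⟨K, hK, hK3, hlines⟩ := presLines_of_rel H hG R r1 r2 r3 r4 r5 r6 r7
  apply hne
  obtain ⟨t, ht⟩ := htr
  have htK : t ∉ K := fun h => ht (hK h)
  -- elements fixing 0, 1, ∞ are automorphisms
  have key : ∀ h ∈ H, h ∞ = ∞ → h ((0 : F) : OnePoint F) = ((0 : F) : OnePoint F) →
      h ((1 : F) : OnePoint F) = ((1 : F) : OnePoint F) → h ∈ GG F := by
    intro h hh hinf h0 h1
    have hinv' : h⁻¹ ∞ = ∞ := by
      rw [Equiv.Perm.inv_eq_iff_eq, hinf]
    obtain ⟨f, hf, hadd⟩ := additive_of_lines hK3 htK h hinf h0 (hlines h hh hinf)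
      (hlines _ (H.inv_mem hh) hinv')
    have hh' : invP * h * invP ∈ H := H.mul_mem (H.mul_mem (hG invP_mem_GG) hh) (hG invP_mem_GG)
    have hi : (invP * h * invP : Equiv.Perm (OnePoint F)) ∞ = ∞ := by
      simp [Equiv.Perm.mul_apply, h0]
    have hi' : (invP * h * invP : Equiv.Perm (OnePoint F))⁻¹ ∞ = ∞ := by
      rw [Equiv.Perm.inv_eq_iff_eq, hi]
    have h0' : (invP * h * invP : Equiv.Perm (OnePoint F)) ((0 : F) : OnePoint F) =
        ((0 : F) : OnePoint F) := by
      simp [Equiv.Perm.mul_apply, hinf]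
    obtain ⟨f', hf', hadd'⟩ := additive_of_lines hK3 htK (invP * h * invP) hi h0'
      (hlines _ hh' hi) (hlines _ (H.inv_mem hh') hi')
    obtain ⟨φ, hφ⟩ := aut_of_additive h hinf h1 f f' hf hf' hadd hadd'
    rw [hφ]; exact autP_mem_GG φ
  intro h hh
  -- compose with a Moebius transformation
  obtain ⟨g, -, hg0, hg1, hginf⟩ := mob_three (K := (⊤ : Subfield F))
    (x := h ((0 : F) : OnePoint F)) (y := h ((1 : F) : OnePoint F)) (z := h ∞)
    (by simp) (by simp) (by simp) (by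
      induction h ((0 : F) : OnePoint F) using OnePoint.rec <;> simp)
    (by induction h ((1 : F) : OnePoint F) using OnePoint.rec <;> simp)
    (by induction h ∞ using OnePoint.rec <;> simp)
  have : (mob g)⁻¹ * h ∈ GG F := by
    apply key
    · exact H.mul_mem (H.inv_mem (hG (mob_mem_GG g))) hh
    · rw [Equiv.Perm.mul_apply, Equiv.Perm.inv_eq_iff_eq, hginf]
    · rw [Equiv.Perm.mul_apply, Equiv.Perm.inv_eq_iff_eq, hg0]
    · rw [Equiv.Perm.mul_apply, Equiv.Perm.inv_eq_iff_eq, hg1]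
  have := (GG F).mul_mem (mob_mem_GG g) this
  rwa [mul_inv_cancel_left] at this

end Pool.Agent.MPa267
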