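import Pool.Agent.Lib.MP_a267a3_lc.AlgB

/-!
# MP_a267a3_lc: 3-transitivity and the relation R
-/

set_option autoImplicit false

namespace Pool.Agent.MPa267

open OnePoint

variable {F : Type*} [Field F]

/-- extension of injective partial maps with small domain -/
private lemma t1a_extend {X : Type*} [DecidableEq X] (T : Finset X) (j : ℕ) :
    ∀ (A : Finset X) (f : X → X), A.card + j = T.card → Set.InjOn f (A : Set X) →
      ∃ (B : Finset X) (g : X → X), A ⊆ B ∧ B.card = T.card ∧ Set.InjOn g (B : Set X) ∧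
        ∀ a ∈ A, g a = f a := by
  induction j with
  | zero =>
    intro A f hA hf
    exact ⟨A, f, subset_rfl, by simpa using hA, hf, fun _ _ => rfl⟩
  | succ j ih =>
    intro A f hA hf
    obtain ⟨x, -, hx⟩ : ∃ x ∈ T, x ∉ A :=
      Finset.exists_mem_notMem_of_card_lt_card (by omega)
    obtain ⟨y, -, hy⟩ : ∃ y ∈ T, y ∉ A.image f :=
      Finset.exists_mem_notMem_of_card_lt_card (by
        have := Finset.card_image_le (s := A) (f := f)
        omega)
    obtain ⟨B, g, hAB, hB, hg, hgf⟩ := ih (insert x A) (Function.update f x y)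
      (by rw [Finset.card_insert_of_notMem hx]; omega) (by
        have hne : ∀ a ∈ A, Function.update f x y a = f a := fun a ha =>
          Function.update_of_ne (by rintro rfl; exact hx ha) _ _
        intro a ha b hb hab
        rw [Finset.coe_insert] at ha hb
        rcases ha with rfl | ha <;> rcases hb with rfl | hb
        · rfl
        · rw [Function.update_self, hne b hb] at hab
          exact absurd (Finset.mem_image.2 ⟨b, hb, hab.symm⟩) hy
        · rw [Function.update_self, hne a ha] at hab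
          exact absurd (Finset.mem_image.2 ⟨a, ha, hab⟩) hy
        · rw [hne a ha, hne b hb] at hab
          exact hf ha hb hab)
    refine ⟨B, g, (Finset.subset_insert _ _).trans hAB, hB, hg, fun a ha => ?_⟩
    rw [hgf a (Finset.mem_insert_of_mem ha)]
    exact Function.update_of_ne (by rintro rfl; exact hx ha) _ _

omit [Field F] in
private lemma t1a_coe_ne {x y : F} (h : x ≠ y) : (x : OnePoint F) ≠ (y : OnePoint F) :=
  fun h' => h (coe_eq_coe.1 h')

/-- every triple of distinct points can be moved to `(0, 1, ∞)` -/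
private lemma t1a_std {x y z : OnePoint F} (hxy : x ≠ y) (hxz : x ≠ z) (hyz : y ≠ z) :
    ∃ h ∈ GG F, h x = ((0 : F) : OnePoint F) ∧ h y = ((1 : F) : OnePoint F) ∧ h z = ∞ := by
  have htop : ∀ x : OnePoint F, x ∈ PP (⊤ : Subfield F) := by
    intro x
    induction x using OnePoint.rec with
    | infty => exact infty_mem_PP _
    | coe x => exact (coe_mem_PP _ _).2 (Subfield.mem_top x)
  obtain ⟨g, -, h0, h1, h2⟩ := mob_three hxy hxz hyz (htop x) (htop y) (htop z)
  refine ⟨(mob g)⁻¹, inv_mem (mob_mem_GG g), ?_, ?_, ?_⟩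
  · rw [← h0, inv_apply_self']
  · rw [← h1, inv_apply_self']
  · rw [← h2, inv_apply_self']

/-- `PΓL₂(F)` (indeed `PGL₂(F)`) is 3-transitive -/
theorem MT_three (H : Subgroup (Equiv.Perm (OnePoint F))) (hG : GG F ≤ H) : MT H 3 := by
  classical
  intro A f hA hf
  let T : Finset (OnePoint F) := {((0 : F) : OnePoint F), ((1 : F) : OnePoint F), ∞}
  have hT : T.card = 3 := by
    rw [Finset.card_eq_three]
    exact ⟨_, _, _, t1a_coe_ne zero_ne_one, coe_ne_infty _, coe_ne_infty _, rfl⟩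
  obtain ⟨B, g, hAB, hB, hg, hgf⟩ := t1a_extend T (3 - A.card) A f (by omega) hf
  rw [hT] at hB
  obtain ⟨x, y, z, hxy, hxz, hyz, rfl⟩ := Finset.card_eq_three.1 hB
  have hx : x ∈ (({x, y, z} : Finset (OnePoint F)) : Set (OnePoint F)) := by simp
  have hy : y ∈ (({x, y, z} : Finset (OnePoint F)) : Set (OnePoint F)) := by simp
  have hz : z ∈ (({x, y, z} : Finset (OnePoint F)) : Set (OnePoint F)) := by simp
  obtain ⟨h₁, hh₁, a1, a2, a3⟩ := t1a_std hxy hxz hyz
  obtain ⟨h₂, hh₂, b1, b2, b3⟩ := t1a_std (fun h => hxy (hg hx hy h)) (fun h => hxz (hg hx hz h))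
    (fun h => hyz (hg hy hz h))
  refine ⟨h₂⁻¹ * h₁, hG (mul_mem (inv_mem hh₂) hh₁), fun a ha => ?_⟩
  rw [← hgf a ha]
  have ha' := hAB ha
  simp only [Finset.mem_insert, Finset.mem_singleton] at ha'
  rcases ha' with rfl | rfl | rfl
  · rw [Equiv.Perm.mul_apply, a1, ← b1, inv_apply_self']
  · rw [Equiv.Perm.mul_apply, a2, ← b2, inv_apply_self']
  · rw [Equiv.Perm.mul_apply, a3, ← b3, inv_apply_self']

/-- an abstract `H`-invariant 4-ary relation, if `H` is not 4-transitive -/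
theorem exists_rel [IsAlgClosed F] (H : Subgroup (Equiv.Perm (OnePoint F))) (hG : GG F ≤ H)
    (h4 : ¬ MT H 4) (htr : ∃ t : F, t ∉ acl (∅ : Set F)) :
    ∃ R : OnePoint F → OnePoint F → OnePoint F → OnePoint F → Prop,
      (∀ h ∈ H, ∀ x y z w, R x y z w → R (h x) (h y) (h z) (h w)) ∧
      (∀ x y z w, R x y z w → R y x z w) ∧
      (∀ x y z w, R x y z w → R x z y w) ∧
      (∀ x y z w, R x y z w → R x y w z) ∧
      (∀ x y z w, R x y z w → x ≠ y ∧ x ≠ z ∧ x ≠ w ∧ y ≠ z ∧ y ≠ w ∧ z ≠ w) ∧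
      (∀ a : F, R ((0 : F) : OnePoint F) ((1 : F) : OnePoint F) ∞ (a : OnePoint F) →
        a ∈ acl (∅ : Set F)) ∧
      (∃ a : F, R ((0 : F) : OnePoint F) ((1 : F) : OnePoint F) ∞ (a : OnePoint F)) := by
  classical
  have hk : IsAlgClosed (acl (∅ : Set F)) := isAlgClosed_acl _
  have hk0 : ∀ t : F, t ∉ acl (∅ : Set F) → t ≠ 0 := by
    rintro t ht rfl; exact ht (zero_mem _)
  have hk1 : ∀ t : F, t ∉ acl (∅ : Set F) → t ≠ 1 := by
    rintro t ht rfl; exact ht (one_mem _)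
  let Q : OnePoint F → OnePoint F → OnePoint F → OnePoint F → Prop := fun x y z w =>
    ∃ h ∈ H, ∃ t : F, t ∉ acl (∅ : Set F) ∧ h x = ((0 : F) : OnePoint F) ∧
      h y = ((1 : F) : OnePoint F) ∧ h z = ∞ ∧ h w = (t : OnePoint F)
  refine ⟨fun x y z w => (x ≠ y ∧ x ≠ z ∧ x ≠ w ∧ y ≠ z ∧ y ≠ w ∧ z ≠ w) ∧ ¬ Q x y z w,
    ?_, ?_, ?_, ?_, ?_, ?_, ?_⟩
  · rintro h hh x y z w ⟨⟨e1, e2, e3, e4, e5, e6⟩, hQ⟩
    refine ⟨⟨h.injective.ne e1, h.injective.ne e2, h.injective.ne e3, h.injective.ne e4,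
      h.injective.ne e5, h.injective.ne e6⟩, ?_⟩
    rintro ⟨h', hh', t, ht, a1, a2, a3, a4⟩
    exact hQ ⟨h' * h, mul_mem hh' hh, t, ht, a1, a2, a3, a4⟩
  · rintro x y z w ⟨⟨e1, e2, e3, e4, e5, e6⟩, hQ⟩
    refine ⟨⟨e1.symm, e4, e5, e2, e3, e6⟩, ?_⟩
    rintro ⟨h, hh, t, ht, a1, a2, a3, a4⟩
    have hdet : (-1 : F) * 1 - 1 * 0 ≠ 0 := by simp
    refine hQ ⟨mob (mk2 (-1) 1 0 1 hdet) * h, mul_mem (hG (mob_mem_GG _)) hh, 1 - t, ?_, ?_, ?_,
      ?_, ?_⟩
    · intro h1
      apply ht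
      have := sub_mem (one_mem (acl (∅ : Set F))) h1
      rwa [sub_sub_cancel] at this
    · rw [Equiv.Perm.mul_apply, a2, mob_mk2_coe, if_neg (by simp)]
      congr 1; simp
    · rw [Equiv.Perm.mul_apply, a1, mob_mk2_coe, if_neg (by simp)]
      congr 1; simp
    · rw [Equiv.Perm.mul_apply, a3, mob_mk2_infty, if_pos rfl]
    · rw [Equiv.Perm.mul_apply, a4, mob_mk2_coe, if_neg (by simp)]
      congr 1; simp; ring
  · rintro x y z w ⟨⟨e1, e2, e3, e4, e5, e6⟩, hQ⟩
    refine ⟨⟨e2, e1, e3, e4.symm, e6, e5⟩, ?_⟩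
    rintro ⟨h, hh, t, ht, a1, a2, a3, a4⟩
    have hdet : (1 : F) * (-1) - 0 * 1 ≠ 0 := by simp
    have ht1 : t - 1 ≠ 0 := sub_ne_zero.2 (hk1 t ht)
    refine hQ ⟨mob (mk2 1 0 1 (-1) hdet) * h, mul_mem (hG (mob_mem_GG _)) hh, t / (t - 1), ?_, ?_,
      ?_, ?_, ?_⟩
    · intro h1
      apply ht
      have h2 : t / (t - 1) - 1 ≠ 0 := by
        rw [div_sub_one ht1, sub_sub_cancel]
        exact one_div_ne_zero ht1
      have h3 := div_mem h1 (sub_mem h1 (one_mem (acl (∅ : Set F))))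
      have h4 : t / (t - 1) / (t / (t - 1) - 1) = t := by
        rw [div_sub_one ht1, sub_sub_cancel]
        field_simp
      rwa [h4] at h3
    · rw [Equiv.Perm.mul_apply, a1, mob_mk2_coe, if_neg (by simp)]
      congr 1; simp
    · rw [Equiv.Perm.mul_apply, a3, mob_mk2_infty, if_neg one_ne_zero]
      congr 1; simp
    · rw [Equiv.Perm.mul_apply, a2, mob_mk2_coe, if_pos (by simp)]
    · rw [Equiv.Perm.mul_apply, a4, mob_mk2_coe, if_neg (by simpa [← sub_eq_add_neg] using ht1)]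
      congr 1
      rw [one_mul, add_zero, ← sub_eq_add_neg]
  · rintro x y z w ⟨⟨e1, e2, e3, e4, e5, e6⟩, hQ⟩
    refine ⟨⟨e1, e3, e2, e5, e4, e6.symm⟩, ?_⟩
    rintro ⟨h, hh, t, ht, a1, a2, a3, a4⟩
    have ht0 := hk0 t ht
    have ht1 : 1 - t ≠ 0 := sub_ne_zero.2 (hk1 t ht).symm
    have hdet : (1 - t) * (-t) - 0 * 1 ≠ 0 := by
      rw [zero_mul, sub_zero]; exact mul_ne_zero ht1 (neg_ne_zero.2 ht0)
    refine hQ ⟨mob (mk2 (1 - t) 0 1 (-t) hdet) * h, mul_mem (hG (mob_mem_GG _)) hh, 1 - t, ?_, ?_,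
      ?_, ?_, ?_⟩
    · intro h1
      apply ht
      have := sub_mem (one_mem (acl (∅ : Set F))) h1
      rwa [sub_sub_cancel] at this
    · rw [Equiv.Perm.mul_apply, a1, mob_mk2_coe, if_neg (by simpa using ht0)]
      congr 1; simp
    · rw [Equiv.Perm.mul_apply, a2, mob_mk2_coe, if_neg (by simpa [← sub_eq_add_neg] using ht1)]
      congr 1
      rw [mul_one, mul_one, add_zero, ← sub_eq_add_neg, div_self ht1]
    · rw [Equiv.Perm.mul_apply, a4, mob_mk2_coe, if_pos (by simp)]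
    · rw [Equiv.Perm.mul_apply, a3, mob_mk2_infty, if_neg one_ne_zero]
      congr 1; simp
  · rintro x y z w ⟨hd, -⟩
    exact hd
  · rintro a ⟨-, hQ⟩
    by_contra ha
    exact hQ ⟨1, one_mem _, a, ha, rfl, rfl, rfl, rfl⟩
  · by_contra hcon
    push Not at hcon
    apply h4
    obtain ⟨t₀, ht₀⟩ := htr
    have hstd : ∀ x y z w : OnePoint F, x ≠ y → x ≠ z → x ≠ w → y ≠ z → y ≠ w → z ≠ w →
        ∃ h ∈ H, h x = ((0 : F) : OnePoint F) ∧ h y = ((1 : F) : OnePoint F) ∧ h z = ∞ ∧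
          h w = (t₀ : OnePoint F) := by
      intro x y z w hxy hxz hxw hyz hyw hzw
      obtain ⟨h₁, hh₁, a1, a2, a3⟩ := t1a_std hxy hxz hyz
      have hw : h₁ w ≠ ∞ := by rw [← a3]; exact h₁.injective.ne hzw.symm
      obtain ⟨a, ha⟩ := ne_infty_iff_exists.1 hw
      have ha0 : a ≠ 0 := by
        rintro rfl
        exact hxw (h₁.injective (a1.trans ha))
      have ha1 : a ≠ 1 := by
        rintro rfl
        exact hyw (h₁.injective (a2.trans ha))
      obtain ⟨h₂, hh₂, t, ht, b1, b2, b3, b4⟩ := hcon a ⟨t1a_coe_ne zero_ne_one, coe_ne_infty _,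
        t1a_coe_ne ha0.symm, coe_ne_infty _, t1a_coe_ne ha1.symm, infty_ne_coe _⟩
      obtain ⟨φ, hφ, hφt⟩ := exists_aut_of_not_mem (acl (∅ : Set F)) ht ht₀
      refine ⟨autP φ * h₂ * h₁, mul_mem (mul_mem (hG (autP_mem_GG φ)) hh₂) (hG hh₁), ?_, ?_, ?_,
        ?_⟩
      · rw [Equiv.Perm.mul_apply, Equiv.Perm.mul_apply, a1, b1, autP_coe, map_zero]
      · rw [Equiv.Perm.mul_apply, Equiv.Perm.mul_apply, a2, b2, autP_coe, map_one]
      · rw [Equiv.Perm.mul_apply, Equiv.Perm.mul_apply, a3, b3, autP_infty]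
      · rw [Equiv.Perm.mul_apply, Equiv.Perm.mul_apply, ← ha, b4, autP_coe, hφt]
    intro A f hA hf
    let T : Finset (OnePoint F) := {((0 : F) : OnePoint F), ((1 : F) : OnePoint F), ∞,
      (t₀ : OnePoint F)}
    have hT : T.card = 4 := by
      have h0 := hk0 t₀ ht₀
      have h1 := hk1 t₀ ht₀
      rw [Finset.card_insert_of_notMem, Finset.card_insert_of_notMem,
        Finset.card_insert_of_notMem, Finset.card_singleton]
      · simp
      · simp only [Finset.mem_insert, Finset.mem_singleton, not_or]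
        exact ⟨coe_ne_infty _, t1a_coe_ne h1.symm⟩
      · simp only [Finset.mem_insert, Finset.mem_singleton, not_or]
        exact ⟨t1a_coe_ne zero_ne_one, coe_ne_infty _, t1a_coe_ne h0.symm⟩
    obtain ⟨B, g, hAB, hB, hg, hgf⟩ := t1a_extend T (4 - A.card) A f (by omega) hf
    rw [hT] at hB
    obtain ⟨x, B', hxB', rfl, hB'⟩ := Finset.card_eq_succ.1 hB
    obtain ⟨y, z, w, hyz, hyw, hzw, rfl⟩ := Finset.card_eq_three.1 hB'
    simp only [Finset.mem_insert, Finset.mem_singleton, not_or] at hxB'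
    obtain ⟨hxy, hxz, hxw⟩ := hxB'
    have hx : x ∈ ((insert x {y, z, w} : Finset (OnePoint F)) : Set (OnePoint F)) := by simp
    have hy : y ∈ ((insert x {y, z, w} : Finset (OnePoint F)) : Set (OnePoint F)) := by simp
    have hz : z ∈ ((insert x {y, z, w} : Finset (OnePoint F)) : Set (OnePoint F)) := by simp
    have hw : w ∈ ((insert x {y, z, w} : Finset (OnePoint F)) : Set (OnePoint F)) := by simp
    obtain ⟨h₁, hh₁, a1, a2, a3, a4⟩ := hstd x y z w hxy hxz hxw hyz hyw hzw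
    obtain ⟨h₂, hh₂, b1, b2, b3, b4⟩ := hstd (g x) (g y) (g z) (g w)
      (fun h => hxy (hg hx hy h)) (fun h => hxz (hg hx hz h)) (fun h => hxw (hg hx hw h))
      (fun h => hyz (hg hy hz h)) (fun h => hyw (hg hy hw h)) (fun h => hzw (hg hz hw h))
    refine ⟨h₂⁻¹ * h₁, mul_mem (inv_mem hh₂) hh₁, fun a ha => ?_⟩
    rw [← hgf a ha]
    have ha' := hAB ha
    simp only [Finset.mem_insert, Finset.mem_singleton] at ha'
    rcases ha' with rfl | rfl | rfl | rfl
    · rw [Equiv.Perm.mul_apply, a1, ← b1, inv_apply_self']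
    · rw [Equiv.Perm.mul_apply, a2, ← b2, inv_apply_self']
    · rw [Equiv.Perm.mul_apply, a3, ← b3, inv_apply_self']
    · rw [Equiv.Perm.mul_apply, a4, ← b4, inv_apply_self']

end Pool.Agent.MPa267
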