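import Pool.Agent.Lib.MP_a267a3_lc.T1A

/-!
# MP_a267a3_lc: the subfield K and K-lines
-/

set_option autoImplicit false

namespace Pool.Agent.MPa267

open OnePoint

variable {F : Type*} [Field F]

/-- Collinearity over a subfield is preserved by the elements of `H` fixing `∞`. -/
def PresLines (K : Subfield F) (h : Equiv.Perm (OnePoint F)) : Prop :=
  ∀ x y z x' y' z' : F, x ≠ y → (∃ c ∈ K, z = x + c * (y - x)) →
    h (x : OnePoint F) = (x' : OnePoint F) → h (y : OnePoint F) = (y' : OnePoint F) →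
    h (z : OnePoint F) = (z' : OnePoint F) → ∃ c ∈ K, z' = x' + c * (y' - x')

/-- the smallest `R`-closed set containing `0, 1, ∞` -/
private inductive T1BHull (R : OnePoint F → OnePoint F → OnePoint F → OnePoint F → Prop) :
    OnePoint F → Prop
  | zero : T1BHull R ((0 : F) : OnePoint F)
  | one : T1BHull R ((1 : F) : OnePoint F)
  | infty : T1BHull R ∞
  | step : ∀ x y z w, T1BHull R x → T1BHull R y → T1BHull R z → R x y z w → T1BHull R w

private lemma t1b_image {H : Subgroup (Equiv.Perm (OnePoint F))}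
    {R : OnePoint F → OnePoint F → OnePoint F → OnePoint F → Prop}
    (hinv : ∀ h ∈ H, ∀ x y z w, R x y z w → R (h x) (h y) (h z) (h w))
    {h : Equiv.Perm (OnePoint F)} (hh : h ∈ H)
    (h0 : T1BHull R (h ((0 : F) : OnePoint F))) (h1 : T1BHull R (h ((1 : F) : OnePoint F)))
    (hi : T1BHull R (h ∞)) {w : OnePoint F} (hw : T1BHull R w) : T1BHull R (h w) := by
  induction hw with
  | zero => exact h0
  | one => exact h1
  | infty => exact hi
  | step x y z w _ _ _ hR ihx ihy ihz => exact .step _ _ _ _ ihx ihy ihz (hinv h hh _ _ _ _ hR)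

private lemma t1b_subset {H : Subgroup (Equiv.Perm (OnePoint F))}
    (hG : GG F ≤ H)
    {R : OnePoint F → OnePoint F → OnePoint F → OnePoint F → Prop}
    (hinv : ∀ h ∈ H, ∀ x y z w, R x y z w → R (h x) (h y) (h z) (h w))
    (hne : ∀ x y z w, R x y z w → x ≠ y ∧ x ≠ z ∧ x ≠ w ∧ y ≠ z ∧ y ≠ w ∧ z ≠ w)
    (halg : ∀ a : F, R ((0 : F) : OnePoint F) ((1 : F) : OnePoint F) ∞ (a : OnePoint F) →
        a ∈ acl (∅ : Set F)) {w : OnePoint F} (hw : T1BHull R w) : w ∈ PP (acl (∅ : Set F)) := by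
  induction hw with
  | zero => simp [zero_mem]
  | one => simp [one_mem]
  | infty => exact infty_mem_PP _
  | step x y z w _ _ _ hR ihx ihy ihz =>
    obtain ⟨nxy, nxz, nxw, nyz, nyw, nzw⟩ := hne _ _ _ _ hR
    obtain ⟨g, hg, g0, g1, gi⟩ := mob_three nxy nxz nyz ihx ihy ihz
    have hR' := hinv (mob g)⁻¹ (H.inv_mem (hG (mob_mem_GG g))) _ _ _ _ hR
    rw [← g0, ← g1, ← gi, inv_apply_self', inv_apply_self', inv_apply_self'] at hR'
    have hwi : (mob g)⁻¹ w ≠ ∞ := by
      intro h
      apply nzw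
      rw [← gi, ← h, apply_inv_self']
    obtain ⟨a, ha⟩ := OnePoint.ne_infty_iff_exists.1 hwi
    rw [← ha] at hR'
    have hmem := halg a hR'
    have : w = mob g (a : OnePoint F) := by rw [ha, apply_inv_self']
    rw [this, mob_mem_PP hg]
    simpa using hmem

theorem presLines_of_rel [IsAlgClosed F] (H : Subgroup (Equiv.Perm (OnePoint F)))
    (hG : GG F ≤ H)
    (R : OnePoint F → OnePoint F → OnePoint F → OnePoint F → Prop)
    (hinv : ∀ h ∈ H, ∀ x y z w, R x y z w → R (h x) (h y) (h z) (h w))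
    (h1 : ∀ x y z w, R x y z w → R y x z w)
    (h2 : ∀ x y z w, R x y z w → R x z y w)
    (h3 : ∀ x y z w, R x y z w → R x y w z)
    (hne : ∀ x y z w, R x y z w → x ≠ y ∧ x ≠ z ∧ x ≠ w ∧ y ≠ z ∧ y ≠ w ∧ z ≠ w)
    (halg : ∀ a : F, R ((0 : F) : OnePoint F) ((1 : F) : OnePoint F) ∞ (a : OnePoint F) →
        a ∈ acl (∅ : Set F))
    (hex : ∃ a : F, R ((0 : F) : OnePoint F) ((1 : F) : OnePoint F) ∞ (a : OnePoint F)) :
    ∃ K : Subfield F, K ≤ acl (∅ : Set F) ∧ (∃ a ∈ K, a ≠ 0 ∧ a ≠ 1) ∧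
      ∀ h ∈ H, h ∞ = ∞ → PresLines K h := by
  -- closure properties of the hull
  have hmul : ∀ a b : F, T1BHull R (a : OnePoint F) → T1BHull R (b : OnePoint F) →
      T1BHull R ((a * b : F) : OnePoint F) := by
    intro a b ha hb
    by_cases h0 : a = 0
    · subst h0; rw [zero_mul]; exact ha
    have := t1b_image (h := mulP a) hinv (hG (mulP_mem_GG a))
      (by rw [mulP_coe h0, mul_zero]; exact .zero)
      (by rw [mulP_coe h0, mul_one]; exact ha)
      (by rw [mulP_infty]; exact .infty) hb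
    rwa [mulP_coe h0] at this
  have hinvm : ∀ a : F, T1BHull R (a : OnePoint F) → T1BHull R ((a⁻¹ : F) : OnePoint F) := by
    intro a ha
    by_cases h0 : a = 0
    · subst h0; rw [inv_zero]; exact ha
    have := t1b_image (h := invP) hinv (hG invP_mem_GG)
      (by rw [invP_zero]; exact .infty)
      (by rw [invP_coe one_ne_zero, inv_one]; exact .one)
      (by rw [invP_infty]; exact .zero) ha
    rwa [invP_coe h0] at this
  have hsub : ∀ a : F, T1BHull R (a : OnePoint F) → T1BHull R ((1 - a : F) : OnePoint F) := by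
    intro a ha
    have hm : (-1 : F) ≠ 0 := neg_ne_zero.2 one_ne_zero
    have := t1b_image (h := addP 1 * mulP (-1)) hinv
      (hG ((GG F).mul_mem (addP_mem_GG 1) (mulP_mem_GG (-1))))
      (by rw [Equiv.Perm.mul_apply, mulP_coe hm, addP_coe, mul_zero, add_zero]; exact .one)
      (by rw [Equiv.Perm.mul_apply, mulP_coe hm, addP_coe, mul_one, add_neg_cancel]; exact .zero)
      (by rw [Equiv.Perm.mul_apply, mulP_infty, addP_infty]; exact .infty) ha
    rw [Equiv.Perm.mul_apply, mulP_coe hm, addP_coe] at this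
    convert this using 2
    ring
  obtain ⟨a, ha⟩ := hex
  have haZ : T1BHull R (a : OnePoint F) := .step _ _ _ _ .zero .one .infty ha
  obtain ⟨-, -, n0a, -, n1a, -⟩ := hne _ _ _ _ ha
  have ha0 : a ≠ 0 := by
    rintro rfl; exact n0a rfl
  have ha1 : a ≠ 1 := by
    rintro rfl; exact n1a rfl
  have hneg1 : T1BHull R ((-1 : F) : OnePoint F) := by
    have e : (-1 : F) = (1 - a⁻¹) * (a * (1 - a)⁻¹) := by
      have : (1 - a) ≠ 0 := sub_ne_zero.2 (Ne.symm ha1)
      field_simp
      ring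
    rw [e]
    exact hmul _ _ (hsub _ (hinvm _ haZ)) (hmul _ _ haZ (hinvm _ (hsub _ haZ)))
  have hneg : ∀ b : F, T1BHull R (b : OnePoint F) → T1BHull R ((-b : F) : OnePoint F) := by
    intro b hb
    have := hmul _ _ hneg1 hb
    rwa [neg_one_mul] at this
  have hone_add : ∀ b : F, T1BHull R (b : OnePoint F) → T1BHull R ((1 + b : F) : OnePoint F) := by
    intro b hb
    have := hsub _ (hneg _ hb)
    rwa [sub_neg_eq_add] at this
  have hadd : ∀ b c : F, T1BHull R (b : OnePoint F) → T1BHull R (c : OnePoint F) →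
      T1BHull R ((b + c : F) : OnePoint F) := by
    intro b c hb hc
    by_cases h0 : b = 0
    · subst h0; rwa [zero_add]
    have := hmul _ _ hb (hone_add _ (hmul _ _ (hinvm _ hb) hc))
    convert this using 2
    field_simp
  let K : Subfield F :=
    { carrier := {x | T1BHull R (x : OnePoint F)}
      mul_mem' := fun {x y} hx hy => hmul x y hx hy
      one_mem' := .one
      add_mem' := fun {x y} hx hy => hadd x y hx hy
      zero_mem' := .zero
      neg_mem' := fun {x} hx => hneg x hx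
      inv_mem' := fun x hx => hinvm x hx }
  refine ⟨K, ?_, ⟨a, haZ, ha0, ha1⟩, ?_⟩
  · intro x hx
    have := t1b_subset hG hinv hne halg (w := (x : OnePoint F)) hx
    simpa using this
  · intro h hh hi x y z x' y' z' hxy hz hx' hy' hz'
    obtain ⟨c, hc, rfl⟩ := hz
    have hyx : y - x ≠ 0 := sub_ne_zero.2 (Ne.symm hxy)
    have hxy' : x' ≠ y' := by
      rintro rfl
      apply hxy
      have := h.injective (hx'.trans hy'.symm)
      exact coe_eq_coe.1 this
    have hyx' : y' - x' ≠ 0 := sub_ne_zero.2 (Ne.symm hxy')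
    set g : Equiv.Perm (OnePoint F) := addP x * mulP (y - x) with hg
    set g' : Equiv.Perm (OnePoint F) := addP x' * mulP (y' - x') with hg'
    have hgH : g ∈ H := hG ((GG F).mul_mem (addP_mem_GG _) (mulP_mem_GG _))
    have hgH' : g' ∈ H := hG ((GG F).mul_mem (addP_mem_GG _) (mulP_mem_GG _))
    have gc : ∀ u : F, g (u : OnePoint F) = ((x + (y - x) * u : F) : OnePoint F) := by
      intro u
      rw [hg, Equiv.Perm.mul_apply, mulP_coe hyx, addP_coe]
    have gc' : ∀ u : F, g' (u : OnePoint F) = ((x' + (y' - x') * u : F) : OnePoint F) := by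
      intro u
      rw [hg', Equiv.Perm.mul_apply, mulP_coe hyx', addP_coe]
    have gi : g ∞ = ∞ := by rw [hg, Equiv.Perm.mul_apply, mulP_infty, addP_infty]
    have gi' : g' ∞ = ∞ := by rw [hg', Equiv.Perm.mul_apply, mulP_infty, addP_infty]
    have hk : g'⁻¹ * (h * g) ∈ H := H.mul_mem (H.inv_mem hgH') (H.mul_mem hh hgH)
    have k0 : (g'⁻¹ * (h * g)) ((0 : F) : OnePoint F) = ((0 : F) : OnePoint F) := by
      rw [Equiv.Perm.mul_apply, Equiv.Perm.inv_eq_iff_eq, Equiv.Perm.mul_apply, gc, gc', mul_zero,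
        mul_zero, add_zero, add_zero, hx']
    have k1 : (g'⁻¹ * (h * g)) ((1 : F) : OnePoint F) = ((1 : F) : OnePoint F) := by
      rw [Equiv.Perm.mul_apply, Equiv.Perm.inv_eq_iff_eq, Equiv.Perm.mul_apply, gc, gc', mul_one,
        mul_one, add_sub_cancel, add_sub_cancel, hy']
    have ki : (g'⁻¹ * (h * g)) (∞ : OnePoint F) = ∞ := by
      rw [Equiv.Perm.mul_apply, Equiv.Perm.inv_eq_iff_eq, Equiv.Perm.mul_apply, gi, gi', hi]
    have kc := t1b_image hinv hk (by rw [k0]; exact .zero) (by rw [k1]; exact .one)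
      (by rw [ki]; exact .infty) hc
    have kc' : (g'⁻¹ * (h * g)) (c : OnePoint F) =
        (((z' - x') * (y' - x')⁻¹ : F) : OnePoint F) := by
      rw [Equiv.Perm.mul_apply, Equiv.Perm.inv_eq_iff_eq, Equiv.Perm.mul_apply, gc, gc', mul_comm (y - x) c,
        hz']
      congr 1
      field_simp
      ring
    rw [kc'] at kc
    refine ⟨(z' - x') * (y' - x')⁻¹, kc, ?_⟩
    field_simp
    ring

end Pool.Agent.MPa267
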