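import Pool.Agent.Lib.MP_a267a3_lc.T1B

/-!
# MP_a267a3_lc: additivity
-/

set_option autoImplicit false

namespace Pool.Agent.MPa267

open OnePoint

variable {F : Type*} [Field F]

private lemma T1C_core {K : Subfield F} (hK : ∃ a ∈ K, a ≠ 0 ∧ a ≠ 1) (f : F → F)
    (hsurj : Function.Surjective f) (h0 : f 0 = 0)
    (hL : ∀ x y : F, x ≠ y → ∀ c ∈ K, ∃ c' ∈ K, f (x + c * (y - x)) = f x + c' * (f y - f x))
    (hL' : ∀ x y z : F, x ≠ y → ∀ c ∈ K, f z = f x + c * (f y - f x) →
      ∃ c' ∈ K, z = x + c' * (y - x))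
    {x y : F} (hxy : ∀ a ∈ K, ∀ b ∈ K, a * x + b * y = 0 → a = 0 ∧ b = 0) :
    ∃ c ∈ K, f (x + y) = f y + c * f x := by
  obtain ⟨c, hc, hc0, hc1⟩ := hK
  have hx : x ≠ 0 := by
    rintro rfl
    have := (hxy 1 K.one_mem 0 K.zero_mem (by simp)).1
    exact one_ne_zero this
  have hy : y ≠ 0 := by
    rintro rfl
    have := (hxy 0 K.zero_mem 1 K.one_mem (by simp)).2
    exact one_ne_zero this
  have hne : (1 : F) - 1 / c ≠ 0 := by
    intro h
    apply hc1
    field_simp at h
    linear_combination h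
  have hneK : (1 : F) - 1 / c ∈ K := K.sub_mem K.one_mem (K.div_mem K.one_mem hc)
  -- p = c y
  obtain ⟨c1, hc1K, hp⟩ := hL 0 y (Ne.symm hy) c hc
  have hp' : f (c * y) = c1 * f y := by
    simpa [h0] using hp
  have hpx : c * y ≠ x := by
    intro h
    have := (hxy (-1) (K.neg_mem K.one_mem) c hc (by rw [h]; ring)).2
    exact hc0 this
  obtain ⟨s, hs, hq⟩ := hL (c * y) x hpx (1 - 1 / c) hneK
  have hq0 : c * y + (1 - 1 / c) * (x - c * y) = y + (1 - 1 / c) * x := by
    field_simp
    ring
  rw [hq0, hp'] at hq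
  set q := y + (1 - 1 / c) * x with hqdef
  have hqy : y ≠ q := by
    intro h
    have h1 : (1 - 1 / c) * x = 0 := by linear_combination -h + hqdef
    rcases mul_eq_zero.1 h1 with h2 | h2
    · exact hne h2
    · exact hx h2
  -- f q = a f y + b f x
  have hq1 : f q = ((1 - s) * c1) * f y + s * f x := by rw [hq]; ring
  have ha : (1 - s) * c1 = 1 := by
    by_contra hne1
    have h1 : (1 : F) - (1 - s) * c1 ≠ 0 := fun h => hne1 (by linear_combination -h)
    have hKa : (1 : F) - (1 - s) * c1 ∈ K :=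
      K.sub_mem K.one_mem (K.mul_mem (K.sub_mem K.one_mem hs) hc1K)
    set t := 1 / (1 - (1 - s) * c1) with ht
    have htK : t ∈ K := K.div_mem K.one_mem hKa
    obtain ⟨w, hw⟩ := hsurj (t * s * f x)
    obtain ⟨c2, hc2, hw2⟩ := hL' 0 x w (Ne.symm hx) (t * s) (K.mul_mem htK hs) (by
      rw [hw, h0]; ring)
    obtain ⟨c3, hc3, hw3⟩ := hL' y q w hqy t htK (by
      rw [hw, hq1]
      have : t * (1 - (1 - s) * c1) = 1 := by rw [ht]; field_simp
      linear_combination (f y) * this)
    have h2 := hxy (c2 - c3 * (1 - 1 / c)) (K.sub_mem hc2 (K.mul_mem hc3 hneK)) (-1)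
      (K.neg_mem K.one_mem) (by
        rw [hw2] at hw3
        rw [hqdef] at hw3
        linear_combination hw3)
    have h3 := h2.2
    have : (1 : F) = 0 := by linear_combination -h3
    exact one_ne_zero this
  obtain ⟨c4, hc4, h4⟩ := hL y q hqy (1 / (1 - 1 / c)) (K.div_mem K.one_mem hneK)
  have h5 : y + 1 / (1 - 1 / c) * (q - y) = x + y := by
    rw [hqdef]
    have : 1 / (1 - 1 / c) * (1 - 1 / c) = 1 := by
      rw [one_div, inv_mul_cancel₀ hne]
    linear_combination x * this
  rw [h5, hq1, ha] at h4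
  exact ⟨c4 * s, K.mul_mem hc4 hs, by rw [h4]; ring⟩

/-- fundamental theorem of affine geometry (additive part) -/
theorem additive_of_lines {K : Subfield F} (hK : ∃ a ∈ K, a ≠ 0 ∧ a ≠ 1) {t : F} (ht : t ∉ K)
    (h : Equiv.Perm (OnePoint F)) (hinf : h ∞ = ∞)
    (h0 : h ((0 : F) : OnePoint F) = ((0 : F) : OnePoint F))
    (hl : PresLines K h) (hl' : PresLines K h⁻¹) :
    ∃ f : F → F, (∀ x : F, h (x : OnePoint F) = (f x : OnePoint F)) ∧
      ∀ x y, f (x + y) = f x + f y := by
  have hex : ∀ x : F, ∃ y : F, h (x : OnePoint F) = (y : OnePoint F) := by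
    intro x
    have hne : h (x : OnePoint F) ≠ ∞ := by
      rw [← hinf]
      exact fun h1 => coe_ne_infty x (h.injective h1)
    obtain ⟨y, hy⟩ := OnePoint.ne_infty_iff_exists.1 hne
    exact ⟨y, hy.symm⟩
  choose f hf using hex
  refine ⟨f, hf, ?_⟩
  have hinj : Function.Injective f := by
    intro x y hxy
    have : h (x : OnePoint F) = h (y : OnePoint F) := by rw [hf, hf, hxy]
    exact coe_eq_coe.1 (h.injective this)
  have hsurj : Function.Surjective f := by
    intro y
    have hne : h⁻¹ (y : OnePoint F) ≠ ∞ := by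
      intro h1
      have h2 : h (h⁻¹ (y : OnePoint F)) = h ∞ := by rw [h1]
      rw [apply_inv_self', hinf] at h2
      exact coe_ne_infty y h2
    obtain ⟨x, hx⟩ := OnePoint.ne_infty_iff_exists.1 hne
    refine ⟨x, ?_⟩
    have : h (x : OnePoint F) = (y : OnePoint F) := by rw [hx, apply_inv_self']
    rw [hf] at this
    exact coe_eq_coe.1 this
  have hf0 : f 0 = 0 := by
    rw [hf] at h0
    exact coe_eq_coe.1 h0
  have hfinv : ∀ x : F, h⁻¹ (f x : OnePoint F) = (x : OnePoint F) := by
    intro x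
    rw [← hf, inv_apply_self']
  have hL : ∀ x y : F, x ≠ y → ∀ c ∈ K, ∃ c' ∈ K,
      f (x + c * (y - x)) = f x + c' * (f y - f x) := by
    intro x y hxy c hc
    exact hl x y (x + c * (y - x)) (f x) (f y) (f (x + c * (y - x))) hxy ⟨c, hc, rfl⟩
      (hf _) (hf _) (hf _)
  have hL' : ∀ x y z : F, x ≠ y → ∀ c ∈ K, f z = f x + c * (f y - f x) →
      ∃ c' ∈ K, z = x + c' * (y - x) := by
    intro x y z hxy c hc hz
    exact hl' (f x) (f y) (f z) x y z (fun h1 => hxy (hinj h1)) ⟨c, hc, hz⟩
      (hfinv _) (hfinv _) (hfinv _)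
  -- images of independent pairs are independent
  have hind : ∀ x y : F, (∀ a ∈ K, ∀ b ∈ K, a * x + b * y = 0 → a = 0 ∧ b = 0) →
      f (x + y) = f x + f y := by
    intro x y hxy
    have hyx : ∀ a ∈ K, ∀ b ∈ K, a * y + b * x = 0 → a = 0 ∧ b = 0 := by
      intro a ha b hb hab
      have := hxy b hb a ha (by rw [add_comm]; exact hab)
      exact ⟨this.2, this.1⟩
    obtain ⟨c, hc, h1⟩ := T1C_core hK f hsurj hf0 hL hL' hxy
    obtain ⟨d, hd, h2⟩ := T1C_core hK f hsurj hf0 hL hL' hyx
    rw [add_comm y x] at h2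
    have hx : x ≠ 0 := by
      rintro rfl
      have := (hxy 1 K.one_mem 0 K.zero_mem (by simp)).1
      exact one_ne_zero this
    -- (c - 1) f x = (d - 1) f y
    have h3 : (d - 1) * f y = (c - 1) * f x := by linear_combination h1 - h2
    have hd1 : d = 1 := by
      by_contra hd1
      have hd1' : d - 1 ≠ 0 := sub_ne_zero.2 hd1
      have h4 : f y = f 0 + (c - 1) / (d - 1) * (f x - f 0) := by
        rw [hf0, sub_zero, zero_add]
        field_simp
        linear_combination h3
      obtain ⟨e, he, h5⟩ := hL' 0 x y (Ne.symm hx) _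
        (K.div_mem (K.sub_mem hc K.one_mem) (K.sub_mem hd K.one_mem)) h4
      have h6 := (hxy e he (-1) (K.neg_mem K.one_mem) (by rw [h5]; ring)).2
      have : (1 : F) = 0 := by linear_combination -h6
      exact one_ne_zero this
    rw [h2, hd1, one_mul]
  intro x y
  by_cases hx : x = 0
  · rw [hx, zero_add, hf0, zero_add]
  by_cases hy : y = 0
  · rw [hy, add_zero, hf0, add_zero]
  by_cases hxy : ∀ a ∈ K, ∀ b ∈ K, a * x + b * y = 0 → a = 0 ∧ b = 0
  · exact hind x y hxy
  -- dependent case
  have hdep : ∃ d ∈ K, d ≠ 0 ∧ y = d * x := by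
    push Not at hxy
    obtain ⟨a, ha, b, hb, hab, hne⟩ := hxy
    have hb0 : b ≠ 0 := by
      intro hb0
      rw [hb0, zero_mul, add_zero] at hab
      rcases mul_eq_zero.1 hab with h1 | h1
      · exact hne h1 hb0
      · exact hx h1
    have ha0 : a ≠ 0 := by
      intro ha0
      rw [ha0, zero_mul, zero_add] at hab
      rcases mul_eq_zero.1 hab with h1 | h1
      · exact hb0 h1
      · exact hy h1
    refine ⟨-a / b, K.div_mem (K.neg_mem ha) hb, div_ne_zero (neg_ne_zero.2 ha0) hb0, ?_⟩
    field_simp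
    linear_combination hab
  obtain ⟨d, hd, hd0, rfl⟩ := hdep
  -- key: elements of the form (a x, (b + e t) x) with a ≠ 0, e ≠ 0 are independent
  have hkey : ∀ a ∈ K, a ≠ 0 → ∀ b ∈ K,
      f (a * x + (b * x + t * x)) = f (a * x) + f (b * x + t * x) := by
    intro a ha ha0 b hb
    apply hind
    intro a' ha' b' hb' hab
    have h1 : (a' * a + b' * b + b' * t) * x = 0 := by linear_combination hab
    have h2 : a' * a + b' * b + b' * t = 0 := by
      rcases mul_eq_zero.1 h1 with h | h
      · exact h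
      · exact absurd h hx
    have hb0 : b' = 0 := by
      by_contra hb0
      apply ht
      have : t = -(a' * a + b' * b) / b' := by
        field_simp
        linear_combination h2
      rw [this]
      exact K.div_mem (K.neg_mem (K.add_mem (K.mul_mem ha' ha) (K.mul_mem hb' hb))) hb'
    rw [hb0] at h2
    have h3 : a' * a = 0 := by linear_combination h2
    rcases mul_eq_zero.1 h3 with h | h
    · exact ⟨h, hb0⟩
    · exact absurd h ha0
  have e1 : f (x + (d * x + t * x)) = f x + f (d * x + t * x) := by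
    have := hkey 1 K.one_mem one_ne_zero d hd
    simpa using this
  have e2 : f (d * x + t * x) = f (d * x) + f (t * x) := by
    have := hkey d hd hd0 0 K.zero_mem
    simpa using this
  have e3 : f ((x + d * x) + t * x) = f (x + d * x) + f (t * x) := by
    by_cases h1 : 1 + d = 0
    · have : x + d * x = 0 := by linear_combination x * h1
      rw [this, zero_add, hf0, zero_add]
    · have := hkey (1 + d) (K.add_mem K.one_mem hd) h1 0 K.zero_mem
      have e : (1 + d) * x = x + d * x := by ring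
      rw [e] at this
      simpa using this
  have e4 : x + d * x + t * x = x + (d * x + t * x) := by ring
  rw [e4, e1, e2] at e3
  linear_combination -e3

end Pool.Agent.MPa267
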