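import Pool.Agent.Lib.MP_a267a3_lc.Defs

/-!
# MP_a267a3_lc: three-cycles
-/

set_option autoImplicit false

namespace Pool.Agent.MPa267

private theorem t2a_apply_inv {X : Type*} (f : Equiv.Perm X) (x : X) : f (f⁻¹ x) = x :=
  f.apply_symm_apply x

private theorem t2a_inv_apply {X : Type*} (f : Equiv.Perm X) (x : X) : f⁻¹ (f x) = x :=
  f.symm_apply_apply x

private theorem t2a_inv_eq {X : Type*} (f : Equiv.Perm X) {x y : X} : f⁻¹ x = y ↔ x = f y :=
  f.symm_apply_eq

private theorem t2a_eq_inv {X : Type*} (f : Equiv.Perm X) {x y : X} : x = f⁻¹ y ↔ f x = y :=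
  f.eq_symm_apply

private theorem t2a_conj {X : Type*} [DecidableEq X] (h : Equiv.Perm X) (a b : X) :
    h * Equiv.swap a b * h⁻¹ = Equiv.swap (h a) (h b) := by
  ext x
  rw [Equiv.swap_apply_apply]

private theorem t2a_cycles {X : Type*} [DecidableEq X]
    (H : Subgroup (Equiv.Perm X)) (h3 : MT H 3) {a b c : X} (hab : a ≠ b)
    (hac : a ≠ c) (hbc : b ≠ c) (hc : Equiv.swap a b * Equiv.swap b c ∈ H) {x y z : X}
    (hxy : x ≠ y) (hxz : x ≠ z) (hyz : y ≠ z) : Equiv.swap x y * Equiv.swap y z ∈ H := by
  classical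
  obtain ⟨h, hh, hf⟩ := h3 {a, b, c} (fun u => if u = a then x else if u = b then y else z)
    (Finset.card_le_three) (by
      intro u hu v hv huv
      simp only [Finset.coe_insert, Finset.coe_singleton, Set.mem_insert_iff,
        Set.mem_singleton_iff] at hu hv
      rcases hu with rfl | rfl | rfl <;> rcases hv with rfl | rfl | rfl <;>
        simp_all [eq_comm])
  have ha : h a = x := by
    have := hf a (by simp)
    simpa using this
  have hb : h b = y := by
    have := hf b (by simp)
    simpa [hab.symm] using this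
  have hc' : h c = z := by
    have := hf c (by simp)
    simpa [hac.symm, hbc.symm] using this
  have h1 : h * (Equiv.swap a b * Equiv.swap b c) * h⁻¹ =
      (h * Equiv.swap a b * h⁻¹) * (h * Equiv.swap b c * h⁻¹) := by group
  rw [t2a_conj, t2a_conj, ha, hb, hc'] at h1
  rw [← h1]
  exact H.mul_mem (H.mul_mem hh hc) (H.inv_mem hh)

/-- a closed 3-transitive group containing a 3-cycle is everything -/
theorem eq_top_of_three_cycle {X : Type*} [Infinite X] [DecidableEq X]
    (H : Subgroup (Equiv.Perm X)) (hcl : IsClosedP H) (h3 : MT H 3) {a b c : X} (hab : a ≠ b)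
    (hac : a ≠ c) (hbc : b ≠ c) (hc : Equiv.swap a b * Equiv.swap b c ∈ H) : H = ⊤ := by
  rw [eq_top_iff]
  intro σ _
  refine hcl σ fun A => ?_
  induction A using Finset.induction_on with
  | empty => exact ⟨1, H.one_mem, by simp⟩
  | insert w A hw ih =>
    obtain ⟨h, hh, hA⟩ := ih
    by_cases hww : h w = σ w
    · refine ⟨h, hh, ?_⟩
      intro x hx
      rcases Finset.mem_insert.1 hx with rfl | hx
      · exact hww
      · exact hA x hx
    · obtain ⟨d, hd⟩ := Infinite.exists_notMem_finset (A.image σ ∪ {h w, σ w})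
      have hd1 : d ≠ h w := by
        rintro rfl
        exact hd (by simp)
      have hd2 : d ≠ σ w := by
        rintro rfl
        exact hd (by simp)
      have hd3 : ∀ x ∈ A, σ x ≠ d := by
        intro x hx he
        exact hd (Finset.mem_union_left _ (Finset.mem_image.2 ⟨x, hx, he⟩))
      refine ⟨Equiv.swap (h w) (σ w) * Equiv.swap (σ w) d * h,
        H.mul_mem (t2a_cycles H h3 hab hac hbc hc hww hd1.symm hd2.symm) hh, ?_⟩
      intro x hx
      rcases Finset.mem_insert.1 hx with rfl | hx
      · rw [Equiv.Perm.mul_apply, Equiv.Perm.mul_apply,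
          Equiv.swap_apply_of_ne_of_ne hww hd1.symm, Equiv.swap_apply_left]
      · have hxw : x ≠ w := fun h => hw (h ▸ hx)
        have h1 : σ x ≠ h w := by
          rw [← hA x hx]
          exact fun he => hxw (h.injective he)
        have h2 : σ x ≠ σ w := fun he => hxw (σ.injective he)
        rw [Equiv.Perm.mul_apply, Equiv.Perm.mul_apply, hA x hx,
          Equiv.swap_apply_of_ne_of_ne h2 (hd3 x hx), Equiv.swap_apply_of_ne_of_ne h1 h2]

/-- if the supports of `f` and `g` meet in exactly one point, the commutator is a 3-cycle -/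
theorem commutator_three_cycle {X : Type*} [DecidableEq X] (f g : Equiv.Perm X) (p : X)
    (hp : f p ≠ p) (hp' : g p ≠ p) (hfg : ∀ x, x ≠ p → f x = x ∨ g x = x) :
    ∃ a b c : X, a ≠ b ∧ a ≠ c ∧ b ≠ c ∧
      f * g * f⁻¹ * g⁻¹ = Equiv.swap a b * Equiv.swap b c := by
  have hgf : g (f p) = f p := by
    rcases hfg (f p) hp with h | h
    · exact absurd (f.injective h) hp
    · exact h
  have hfg' : f (g p) = g p := by
    rcases hfg (g p) hp' with h | h
    · exact h
    · exact absurd (g.injective h) hp'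
  have hfi : f⁻¹ p ≠ p := fun h => hp (by
    have := congrArg f h
    rw [t2a_apply_inv] at this
    exact this.symm)
  have hgi : g⁻¹ p ≠ p := fun h => hp' (by
    have := congrArg g h
    rw [t2a_apply_inv] at this
    exact this.symm)
  have hgfi : g (f⁻¹ p) = f⁻¹ p := by
    rcases hfg _ hfi with h | h
    · rw [t2a_apply_inv] at h
      exact absurd h.symm hfi
    · exact h
  have hfgi : f (g⁻¹ p) = g⁻¹ p := by
    rcases hfg _ hgi with h | h
    · exact h
    · rw [t2a_apply_inv] at h
      exact absurd h.symm hgi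
  have hne : f p ≠ g p := by
    intro h
    rw [h] at hgf
    exact hp' (g.injective hgf)
  refine ⟨p, f p, g p, hp.symm, hp'.symm, hne, ?_⟩
  ext x
  simp only [Equiv.Perm.mul_apply]
  by_cases hx : x = p
  · subst hx
    have h1 : f⁻¹ (g⁻¹ x) = g⁻¹ x := by
      rw [t2a_inv_eq]
      exact hfgi.symm
    rw [h1, t2a_apply_inv, Equiv.swap_apply_of_ne_of_ne hp.symm hp'.symm,
      Equiv.swap_apply_left]
  by_cases hx1 : x = f p
  · subst hx1
    have h1 : g⁻¹ (f p) = f p := by
      rw [t2a_inv_eq]
      exact hgf.symm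
    rw [h1, t2a_inv_apply, hfg', Equiv.swap_apply_left,
      Equiv.swap_apply_of_ne_of_ne hp' hne.symm]
  by_cases hx2 : x = g p
  · subst hx2
    rw [t2a_inv_apply, hgfi, t2a_apply_inv, Equiv.swap_apply_right,
      Equiv.swap_apply_right]
  rw [Equiv.swap_apply_of_ne_of_ne hx1 hx2, Equiv.swap_apply_of_ne_of_ne hx hx1]
  have key : g x = x → f (g (f⁻¹ (g⁻¹ x))) = x := by
    intro h
    have h1 : g⁻¹ x = x := by
      rw [t2a_inv_eq]
      exact h.symm
    rw [h1]
    have hw : f⁻¹ x ≠ p := by
      intro h2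
      rw [t2a_inv_eq] at h2
      exact hx1 h2
    rcases hfg _ hw with h2 | h2
    · rw [t2a_apply_inv] at h2
      rw [← h2, h]
      rw [t2a_eq_inv] at h2
      exact h2
    · rw [h2, t2a_apply_inv]
  rcases hfg x hx with h | h
  · have hw : g⁻¹ x ≠ p := by
      intro h2
      rw [t2a_inv_eq] at h2
      exact hx2 h2
    rcases hfg _ hw with h2 | h2
    · have h3 : f⁻¹ (g⁻¹ x) = g⁻¹ x := by
        rw [t2a_inv_eq]
        exact h2.symm
      rw [h3, t2a_apply_inv, h]
    · rw [t2a_apply_inv] at h2
      apply key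
      rw [t2a_eq_inv] at h2
      exact h2
  · exact key h

end Pool.Agent.MPa267
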