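import Pool.Agent.Lib.MP_a267a3_lc.T1A
import Pool.Agent.Lib.MP_a267a3_lc.T2A

/-!
# MP_a267a3_lc: small supports
-/

set_option autoImplicit false

namespace Pool.Agent.MPa267

open OnePoint

variable {F : Type*} [Field F]

/-- (T2) -/
theorem eq_top_of_small_support [IsAlgClosed F] (H : Subgroup (Equiv.Perm (OnePoint F)))
    (hG : GG F ≤ H) (hcl : IsClosedP H) (L : Subfield F) (hL : L ≠ ⊤)
    {h : Equiv.Perm (OnePoint F)} (hh : h ∈ H) (h1 : h ≠ 1) (hs : ∀ x, x ∉ PP L → h x = x) :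
    H = ⊤ := by
  classical
  obtain ⟨p, hp⟩ : ∃ p, h p ≠ p := by
    by_contra hcon
    push Not at hcon
    exact h1 (Equiv.ext hcon)
  have hpL : p ∈ PP L := by
    by_contra hpL
    exact hp (hs p hpL)
  -- conjugate so that `∞` is moved
  obtain ⟨γ, hγ, hγp⟩ : ∃ γ : GL (Fin 2) F, GLK L γ ∧ mob γ ∞ = p := by
    rcases hpL with rfl | ⟨a, ha, rfl⟩
    · refine ⟨mk2 1 0 0 1 (by simp), GLK_mk2 _ (one_mem _) (zero_mem _) (zero_mem _) (one_mem _), ?_⟩
      rw [mob_mk2_infty, if_pos rfl]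
    · refine ⟨mk2 a (-1) 1 0 (by simp), GLK_mk2 _ ha (neg_mem (one_mem _)) (one_mem _)
        (zero_mem _), ?_⟩
      rw [mob_mk2_infty, if_neg one_ne_zero, div_one]
  obtain ⟨f, hf, hfp, hfs⟩ : ∃ f ∈ H, f ∞ ≠ ∞ ∧ ∀ x, x ∉ PP L → f x = x := by
    refine ⟨(mob γ)⁻¹ * h * mob γ, mul_mem (mul_mem (inv_mem (hG (mob_mem_GG γ))) hh)
      (hG (mob_mem_GG γ)), ?_, ?_⟩
    · rw [Equiv.Perm.mul_apply, Equiv.Perm.mul_apply, hγp]
      intro h2
      rw [Equiv.Perm.inv_eq_iff_eq, hγp] at h2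
      exact hp h2
    · intro x hx
      rw [Equiv.Perm.mul_apply, Equiv.Perm.mul_apply, hs _ (fun h2 => hx ((mob_mem_PP hγ x).1 h2)),
        inv_apply_self']
  obtain ⟨u, hu⟩ : ∃ u : F, u ∉ L := by
    by_contra h0; push Not at h0
    exact hL (eq_top_iff.2 fun x _ => h0 x)
  have hinv : ∀ a : F, (addP u)⁻¹ (a : OnePoint F) = ((a - u : F) : OnePoint F) := by
    intro a
    rw [Equiv.Perm.inv_eq_iff_eq, addP_coe, add_sub_cancel]
  have hinv' : (addP u)⁻¹ (∞ : OnePoint F) = ∞ := by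
    rw [Equiv.Perm.inv_eq_iff_eq, addP_infty]
  have hg : addP u * f * (addP u)⁻¹ ∈ H :=
    mul_mem (mul_mem (hG (addP_mem_GG u)) hf) (inv_mem (hG (addP_mem_GG u)))
  obtain ⟨a, b, c, hab, hac, hbc, hcomm⟩ := commutator_three_cycle f
    (addP u * f * (addP u)⁻¹) ∞ hfp (by
      rw [Equiv.Perm.mul_apply, Equiv.Perm.mul_apply, hinv']
      intro h2
      apply hfp
      apply (addP u).injective
      rw [h2, addP_infty]) (by
      intro x hx
      by_cases hxL : x ∈ PP L
      · right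
        rcases hxL with rfl | ⟨a, ha, rfl⟩
        · exact absurd rfl hx
        · rw [Equiv.Perm.mul_apply, Equiv.Perm.mul_apply, hinv, hfs, addP_coe, add_sub_cancel]
          rw [coe_mem_PP]
          intro h2
          apply hu
          have := L.sub_mem ha h2
          rwa [sub_sub_cancel] at this
      · left
        exact hfs x hxL)
  have : Infinite F := IsAlgClosed.instInfinite
  have : Infinite (OnePoint F) := Infinite.of_injective (fun x : F => (x : OnePoint F))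
    coe_injective
  refine eq_top_of_three_cycle H hcl (MT_three H hG) hab hac hbc ?_
  rw [← hcomm]
  exact mul_mem (mul_mem (mul_mem hf hg) (inv_mem hf)) (inv_mem hg)

end Pool.Agent.MPa267
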