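import Pool.Agent.Lib.MP_a267a3_lc.T1
import Pool.Agent.Lib.MP_a267a3_lc.T2B

/-!
# MP_a267a3_lc: small supports (2)
-/

set_option autoImplicit false

namespace Pool.Agent.MPa267

open OnePoint

variable {F : Type*} [Field F]

/-- (T2') two translates of `P¹(K₁)`, `P¹(K₂)` never cover the line -/
theorem not_cover [IsAlgClosed F] (H : Subgroup (Equiv.Perm (OnePoint F)))
    (hG : GG F ≤ H) (hcl : IsClosedP H) (hne : H ≠ ⊤) (K₁ K₂ : Subfield F) [IsAlgClosed K₁]
    (h1 : K₁ ≠ ⊤) (h2 : K₂ ≠ ⊤) {h : Equiv.Perm (OnePoint F)} (hh : h ∈ H) :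
    ∃ x, h x ∉ PP K₁ ∧ x ∉ PP K₂ := by
  by_contra hcon
  push Not at hcon
  obtain ⟨x, hx⟩ : ∃ x : F, x ∉ K₁ := by
    by_contra h0; push Not at h0
    exact h1 (eq_top_iff.2 fun x _ => h0 x)
  have hx1 : x + 1 ∉ K₁ := fun h0 => hx (by simpa using K₁.sub_mem h0 K₁.one_mem)
  obtain ⟨φ, hφ, hφx⟩ := exists_aut_of_not_mem K₁ hx hx1
  -- `h⁻¹ φ h` is supported in `P¹(K₂)`
  apply hne
  refine eq_top_of_small_support H hG hcl K₂ h2 (h := h⁻¹ * autP φ * h)
    (H.mul_mem (H.mul_mem (H.inv_mem hh) (hG (autP_mem_GG φ))) hh) ?_ ?_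
  · intro h0
    have : autP φ = 1 := by
      have h2 : h⁻¹ * autP φ * h = 1 := h0
      calc autP φ = h * (h⁻¹ * autP φ * h) * h⁻¹ := by group
        _ = 1 := by rw [h2]; group
    have h3 := congrArg (fun f : Equiv.Perm (OnePoint F) => f (x : OnePoint F)) this
    simp only [autP_coe, Equiv.Perm.coe_one, id_eq, coe_eq_coe, hφx] at h3
    simp at h3
  · intro y hy
    have h3 : h y ∈ PP K₁ := by
      by_contra h4; exact hy (hcon y h4)
    rw [Equiv.Perm.mul_apply, Equiv.Perm.mul_apply, Equiv.Perm.inv_eq_iff_eq]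
    rcases h3 with h3 | ⟨a, ha, h3⟩
    · rw [h3, autP_infty]
    · rw [h3, autP_coe, hφ a ha]

/-- the transitivity degree -/
theorem exists_degree {X : Type*} (H : Subgroup (Equiv.Perm X)) (hcl : IsClosedP H)
    (hne : H ≠ ⊤) (h4 : MT H 4) : ∃ n, 4 ≤ n ∧ MT H n ∧ ¬ MT H (n + 1) := by
  classical
  by_contra hcon
  push Not at hcon
  apply hne
  have hall : ∀ n, MT H (n + 4) := by
    intro n
    induction n with
    | zero => exact h4
    | succ n ih => exact hcon (n + 4) (by omega) ih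
  rw [eq_top_iff]
  intro σ _
  apply hcl
  intro A
  obtain ⟨h, hh, hA⟩ := hall A.card A σ (by omega) (σ.injective.injOn)
  exact ⟨h, hh, hA⟩

/-- the family of all `P¹(K)`, `K` a proper algebraically closed subfield -/
def SS (F : Type*) [Field F] : Set (Set (OnePoint F)) :=
  {P | ∃ K : Subfield F, IsAlgClosed K ∧ K ≠ ⊤ ∧ P = PP K}

/-- `P¹(K)` is a Jordan complement -/
theorem jor_PP [IsAlgClosed F] (H : Subgroup (Equiv.Perm (OnePoint F))) (hG : GG F ≤ H)
    (K : Subfield F) [IsAlgClosed K] : Jor H (PP K) := by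
  intro x hx y hy
  induction x using OnePoint.rec with
  | infty => exact absurd (infty_mem_PP K) hx
  | coe x =>
    induction y using OnePoint.rec with
    | infty => exact absurd (infty_mem_PP K) hy
    | coe y =>
      rw [coe_mem_PP] at hx hy
      obtain ⟨φ, hφ, hφx⟩ := exists_aut_of_not_mem K hx hy
      refine ⟨autP φ, hG (autP_mem_GG φ), ?_, by rw [autP_coe, hφx]⟩
      rintro s (hs | ⟨a, ha, hs⟩)
      · rw [hs, autP_infty]
      · rw [hs, autP_coe, hφ a ha]

end Pool.Agent.MPa267
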